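import Pool.Agent.H537.EG.LSP

/-! Sums over translates, and an inequality of Montgomery and Vaughan (Finner) for products of functions
depending on few coordinates. -/

set_option autoImplicit false

namespace Pool.Agent.H537.EG
open Finset

/-- sum over `p` translates by multiples of `s` -/
noncomputable def Sg (s p : ℕ) (F : ℕ → ℝ) (n : ℕ) : ℝ := ∑ x ∈ range p, F (n + x * s)

/-- iterated sums over translates, with the steps `σ p` -/
noncomputable def SL (σ : ℕ → ℕ) : List ℕ → (ℕ → ℝ) → ℕ → ℝ
  | [], F => F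
  | p :: l, F => SL σ l (Sg (σ p) p F)

lemma Sg_mono {s p : ℕ} {F G : ℕ → ℝ} (h : ∀ n, F n ≤ G n) (n : ℕ) : Sg s p F n ≤ Sg s p G n :=
  sum_le_sum fun _ _ => h _

lemma SL_mono {σ : ℕ → ℕ} (l : List ℕ) : ∀ {F G : ℕ → ℝ}, (∀ n, F n ≤ G n) → ∀ n,
    SL σ l F n ≤ SL σ l G n := by
  induction l with
  | nil => intro F G h n; exact h n
  | cons p l ih => intro F G h n; exact ih (fun m => Sg_mono h m) n

lemma Sg_smul {s p : ℕ} (c : ℝ) (F : ℕ → ℝ) : Sg s p (fun n => c * F n) = fun n => c * Sg s p F n := by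
  funext n
  unfold Sg
  rw [mul_sum]

lemma SL_smul {σ : ℕ → ℕ} (l : List ℕ) (c : ℝ) : ∀ (F : ℕ → ℝ),
    SL σ l (fun n => c * F n) = fun n => c * SL σ l F n := by
  induction l with
  | nil => intro F; rfl
  | cons p l ih => intro F; unfold SL; rw [Sg_smul, ih]

lemma Sg_sum {s p : ℕ} {ι : Type*} (S : Finset ι) (F : ι → ℕ → ℝ) :
    Sg s p (fun n => ∑ i ∈ S, F i n) = fun n => ∑ i ∈ S, Sg s p (F i) n := by
  funext n
  unfold Sg
  rw [sum_comm]

lemma SL_sum {σ : ℕ → ℕ} (l : List ℕ) {ι : Type*} (S : Finset ι) : ∀ (F : ι → ℕ → ℝ),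
    SL σ l (fun n => ∑ i ∈ S, F i n) = fun n => ∑ i ∈ S, SL σ l (F i) n := by
  induction l with
  | nil => intro F; rfl
  | cons p l ih => intro F; unfold SL; rw [Sg_sum, ih]

lemma Sg_nonneg {s p : ℕ} {F : ℕ → ℝ} (h : ∀ n, 0 ≤ F n) (n : ℕ) : 0 ≤ Sg s p F n :=
  sum_nonneg fun _ _ => h _

lemma SL_nonneg {σ : ℕ → ℕ} (l : List ℕ) : ∀ {F : ℕ → ℝ}, (∀ n, 0 ≤ F n) → ∀ n, 0 ≤ SL σ l F n := by
  induction l with
  | nil => intro F h n; exact h n
  | cons p l ih => intro F h n; exact ih (fun m => Sg_nonneg h m) n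

lemma SL_abs {σ : ℕ → ℕ} (l : List ℕ) (F : ℕ → ℝ) (n : ℕ) :
    |SL σ l F n| ≤ SL σ l (fun n => |F n|) n := by
  rw [abs_le]
  constructor
  · have h1 : SL σ l (fun n => (-1) * |F n|) n ≤ SL σ l F n :=
      SL_mono l (fun m => by have := neg_abs_le (F m); linarith) n
    rw [SL_smul] at h1
    linarith
  · exact SL_mono l (fun m => le_abs_self (F m)) n

lemma Sg_trans {s p : ℕ} (F : ℕ → ℝ) (c : ℕ) :
    Sg s p (fun n => F (n + c)) = fun n => Sg s p F (n + c) := by
  funext n
  unfold Sg
  apply sum_congr rfl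
  intro x _
  simp only
  congr 1; ring

lemma SL_trans {σ : ℕ → ℕ} (l : List ℕ) (c : ℕ) : ∀ (F : ℕ → ℝ),
    SL σ l (fun n => F (n + c)) = fun n => SL σ l F (n + c) := by
  induction l with
  | nil => intro F; rfl
  | cons p l ih => intro F; unfold SL; rw [Sg_trans, ih]

lemma Sg_inv {s p c : ℕ} {F : ℕ → ℝ} (h : ∀ n, F (n + c) = F n) (n : ℕ) :
    Sg s p F (n + c) = Sg s p F n := by
  unfold Sg
  apply sum_congr rfl
  intro x _
  rw [← h (n + x * s)]
  congr 1; ring

lemma inv_mul_of_inv {c : ℕ} {F : ℕ → ℝ} (h : ∀ n, F (n + c) = F n) (x n : ℕ) :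
    F (n + x * c) = F n := by
  induction x with
  | zero => simp
  | succ x ih => rw [← ih, ← h (n + x * c)]; congr 1; ring

/-- full period sums -/
lemma sum_SL {σ : ℕ → ℕ} (M : ℕ) (l : List ℕ) : ∀ (F : ℕ → ℝ), (∀ x, F (x + M) = F x) →
    ∑ x ∈ range M, SL σ l F x = (l.map (fun p : ℕ => (p : ℝ))).prod * ∑ x ∈ range M, F x := by
  induction l with
  | nil => intro F _; simp [SL]
  | cons p l ih =>
    intro F hF
    unfold SL
    rw [ih _ (fun x => Sg_inv hF x)]
    have h1 : ∑ x ∈ range M, Sg (σ p) p F x = p * ∑ x ∈ range M, F x := by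
      unfold Sg
      rw [sum_comm]
      rw [sum_congr rfl (fun y _ => sum_shift M F hF (y * σ p))]
      simp
    rw [h1, List.map_cons, List.prod_cons]
    ring

lemma one_coord {ι : Type*} [DecidableEq ι] (T : Finset ι) (p : ℕ) (a : ι → ℕ → ℝ)
    (ha : ∀ i ∈ T, ∀ x, 0 ≤ a i x) (hT : 2 ≤ T.card) :
    ∑ x ∈ range p, ∏ i ∈ T, a i x ≤ ∏ i ∈ T, √(∑ x ∈ range p, (a i x) ^ 2) := by
  obtain ⟨i, hi, j, hj, hij⟩ := one_lt_card.1 (by omega : 1 < T.card)
  have hj' : j ∈ T.erase i := mem_erase.2 ⟨Ne.symm hij, hj⟩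
  have hle : ∀ k ∈ T, ∀ x ∈ range p, a k x ≤ √(∑ x ∈ range p, (a k x) ^ 2) := by
    intro k hk x hx
    apply Real.le_sqrt_of_sq_le
    exact single_le_sum (f := fun x => (a k x) ^ 2) (fun _ _ => sq_nonneg _) hx
  rw [← mul_prod_erase T _ hi, ← mul_prod_erase (T.erase i) _ hj']
  set B := ∏ k ∈ (T.erase i).erase j, √(∑ x ∈ range p, (a k x) ^ 2) with hB
  have hB0 : 0 ≤ B := prod_nonneg fun _ _ => Real.sqrt_nonneg _
  calc ∑ x ∈ range p, ∏ i ∈ T, a i x
      ≤ ∑ x ∈ range p, (a i x * a j x) * B := by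
        apply sum_le_sum
        intro x hx
        rw [← mul_prod_erase T _ hi, ← mul_prod_erase (T.erase i) _ hj', ← mul_assoc]
        apply mul_le_mul_of_nonneg_left _ (mul_nonneg (ha i hi x) (ha j hj x))
        apply prod_le_prod
        · intro k hk
          exact ha k (mem_of_mem_erase (mem_of_mem_erase hk)) x
        · intro k hk
          exact hle k (mem_of_mem_erase (mem_of_mem_erase hk)) x hx
    _ = (∑ x ∈ range p, a i x * a j x) * B := by rw [sum_mul]
    _ ≤ (√(∑ x ∈ range p, (a i x) ^ 2) * √(∑ x ∈ range p, (a j x) ^ 2)) * B := by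
        apply mul_le_mul_of_nonneg_right _ hB0
        exact Real.sum_mul_le_sqrt_mul_sqrt _ _ _
    _ = _ := by ring

/-- **Products of functions depending on few coordinates.** -/
theorem mv {ι : Type*} [DecidableEq ι] (σ : ℕ → ℕ) (S : Finset ι) (f : ι → Finset ℕ) (l : List ℕ) :
    ∀ (F : ι → ℕ → ℝ), (∀ i ∈ S, ∀ n, 0 ≤ F i n) →
    (∀ i ∈ S, ∀ p ∈ l, p ∉ f i → ∀ n, F i (n + σ p) = F i n) →
    (∀ p ∈ l, (S.filter (fun i => p ∈ f i)).card ≠ 1) → ∀ n,
    SL σ l (fun n => ∏ i ∈ S, F i n) n ≤
      (l.map (fun p => if (S.filter (fun i => p ∈ f i)).card = 0 then (p : ℝ) else 1)).prod *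
      ∏ i ∈ S, √(SL σ (l.filter (fun p => decide (p ∈ f i))) (fun n => (F i n) ^ 2) n) := by
  induction l with
  | nil =>
    intro F hF _ _ n
    simp only [SL, List.map_nil, List.prod_nil, one_mul, List.filter_nil]
    apply le_of_eq
    apply prod_congr rfl
    intro i hi
    rw [Real.sqrt_sq (hF i hi n)]
  | cons p l ih =>
    intro F hF hinv hcard n
    have hinv' : ∀ i ∈ S, ∀ q ∈ l, q ∉ f i → ∀ n, F i (n + σ q) = F i n :=
      fun i hi q hq => hinv i hi q (List.mem_cons_of_mem _ hq)
    have hcard' : ∀ q ∈ l, (S.filter (fun i => q ∈ f i)).card ≠ 1 :=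
      fun q hq => hcard q (List.mem_cons_of_mem _ hq)
    have hp1 := hcard p List.mem_cons_self
    by_cases hc : (S.filter (fun i => p ∈ f i)).card = 0
    · -- the coordinate does not occur
      have hno : ∀ i ∈ S, p ∉ f i := by
        intro i hi hpi
        rw [card_eq_zero, filter_eq_empty_iff] at hc
        exact hc hi hpi
      have e1 : Sg (σ p) p (fun n => ∏ i ∈ S, F i n) = fun n => (p : ℝ) * ∏ i ∈ S, F i n := by
        funext m
        unfold Sg
        have : ∀ x ∈ range p, ∏ i ∈ S, F i (m + x * σ p) = ∏ i ∈ S, F i m := by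
          intro x _
          apply prod_congr rfl
          intro i hi
          exact inv_mul_of_inv (hinv i hi p List.mem_cons_self (hno i hi)) x m
        rw [sum_congr rfl this]
        simp
      have e2 : ∀ i ∈ S, (p :: l).filter (fun q => decide (q ∈ f i)) =
          l.filter (fun q => decide (q ∈ f i)) := by
        intro i hi
        rw [List.filter_cons_of_neg]
        simpa using hno i hi
      change SL σ l (Sg (σ p) p (fun n => ∏ i ∈ S, F i n)) n ≤ _
      rw [e1, SL_smul]
      simp only [List.map_cons, List.prod_cons, if_pos hc]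
      rw [mul_assoc]
      apply mul_le_mul_of_nonneg_left _ (Nat.cast_nonneg p)
      refine (ih F hF hinv' hcard' n).trans (le_of_eq ?_)
      congr 1
      apply prod_congr rfl
      intro i hi
      rw [e2 i hi]
    · -- the coordinate occurs at least twice
      have hT : 2 ≤ (S.filter (fun i => p ∈ f i)).card := by omega
      set F' : ι → ℕ → ℝ := fun i m =>
        if p ∈ f i then √(Sg (σ p) p (fun n => (F i n) ^ 2) m) else F i m with hF'
      have hF'0 : ∀ i ∈ S, ∀ n, 0 ≤ F' i n := by
        intro i hi m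
        simp only [hF']
        split_ifs
        · exact Real.sqrt_nonneg _
        · exact hF i hi m
      have hF'inv : ∀ i ∈ S, ∀ q ∈ l, q ∉ f i → ∀ n, F' i (n + σ q) = F' i n := by
        intro i hi q hq hqi m
        simp only [hF']
        split_ifs
        · congr 1
          exact Sg_inv (F := fun n => (F i n) ^ 2) (fun n => by simp only [hinv' i hi q hq hqi n]) m
        · exact hinv' i hi q hq hqi m
      have hpt : ∀ m, Sg (σ p) p (fun n => ∏ i ∈ S, F i n) m ≤ ∏ i ∈ S, F' i m := by
        intro m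
        unfold Sg
        have e3 : ∀ x ∈ range p, ∏ i ∈ S, F i (m + x * σ p) =
            (∏ i ∈ S.filter (fun i => p ∈ f i), F i (m + x * σ p)) *
              ∏ i ∈ S.filter (fun i => ¬ p ∈ f i), F i m := by
          intro x _
          rw [← prod_filter_mul_prod_filter_not S (fun i => p ∈ f i)]
          congr 1
          apply prod_congr rfl
          intro i hi
          rw [mem_filter] at hi
          exact inv_mul_of_inv (hinv i hi.1 p List.mem_cons_self hi.2) x m
        rw [sum_congr rfl e3, ← sum_mul]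
        rw [← prod_filter_mul_prod_filter_not S (fun i => p ∈ f i) (fun i => F' i m)]
        have e4 : ∏ i ∈ S.filter (fun i => ¬ p ∈ f i), F' i m =
            ∏ i ∈ S.filter (fun i => ¬ p ∈ f i), F i m := by
          apply prod_congr rfl
          intro i hi
          rw [mem_filter] at hi
          simp only [hF', if_neg hi.2]
        rw [e4]
        apply mul_le_mul_of_nonneg_right
        · refine (one_coord _ p (fun i x => F i (m + x * σ p)) ?_ hT).trans (le_of_eq ?_)
          · intro i hi x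
            rw [mem_filter] at hi
            exact hF i hi.1 _
          · apply prod_congr rfl
            intro i hi
            rw [mem_filter] at hi
            simp only [hF', if_pos hi.2]
            rfl
        · apply prod_nonneg
          intro i hi
          rw [mem_filter] at hi
          exact hF i hi.1 m
      have h5 : SL σ (p :: l) (fun n => ∏ i ∈ S, F i n) n ≤ SL σ l (fun m => ∏ i ∈ S, F' i m) n := by
        change SL σ l (Sg (σ p) p (fun n => ∏ i ∈ S, F i n)) n ≤ _
        exact SL_mono l hpt n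
      refine h5.trans ((ih F' hF'0 hF'inv hcard' n).trans (le_of_eq ?_))
      simp only [List.map_cons, List.prod_cons, if_neg hc, one_mul]
      congr 1
      apply prod_congr rfl
      intro i hi
      congr 1
      by_cases hpi : p ∈ f i
      · rw [List.filter_cons_of_pos (by simpa using hpi)]
        change _ = SL σ (l.filter (fun q => decide (q ∈ f i))) (Sg (σ p) p (fun n => (F i n) ^ 2)) n
        congr 1
        funext m
        simp only [hF', if_pos hpi]
        rw [Real.sq_sqrt]
        exact Sg_nonneg (fun _ => sq_nonneg _) m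
      · rw [List.filter_cons_of_neg (by simpa using hpi)]
        congr 1
        funext m
        simp only [hF', if_neg hpi]

end Pool.Agent.H537.EG
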