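import Pool.Agent.H537.EG.Eng4
import Pool.Graph.R_pool_sql_team_seeded_b0a926ef.R502.BL.AllMod

/-! From windows to residue classes. -/

set_option autoImplicit false
set_option maxHeartbeats 4000000

namespace Pool.Agent.H537.EG
open Finset Filter
open Pool.Agent.R502.BL (pc)

/-- the first element `> u` of the class of `l` modulo `k` -/
def fst (k u l : ℕ) : ℕ := u + 1 + (l + (k - 1) * (u + 1)) % k

lemma fst_gt (k u l : ℕ) : u < fst k u l := by unfold fst; omega

lemma fst_le {k : ℕ} (u l : ℕ) (hk : 1 ≤ k) : fst k u l ≤ u + k := by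
  unfold fst
  have := Nat.mod_lt (l + (k - 1) * (u + 1)) (show 0 < k by omega)
  omega

lemma fst_mod {k : ℕ} (u l : ℕ) (hk : 1 ≤ k) : fst k u l ≡ l [MOD k] := by
  unfold fst
  have h1 : u + 1 + (l + (k - 1) * (u + 1)) % k ≡ u + 1 + (l + (k - 1) * (u + 1)) [MOD k] :=
    Nat.ModEq.add_left _ (Nat.mod_modEq _ _)
  refine h1.trans ?_
  have h2 : u + 1 + (l + (k - 1) * (u + 1)) = l + k * (u + 1) := by
    obtain ⟨j, rfl⟩ : ∃ j, k = j + 1 := ⟨k - 1, by omega⟩
    simp only [Nat.add_sub_cancel]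
    ring
  rw [h2]
  exact Nat.modEq_iff_dvd.2 ⟨-((u : ℤ) + 1), by push_cast; ring⟩

/-- the elements of a class above `u` -/
lemma fst_min {k u l p : ℕ} (hk : 1 ≤ k) (hp : u < p) (hpl : p ≡ l [MOD k]) :
    fst k u l + k * ((p - fst k u l) / k) = p := by
  have h1 : p ≡ fst k u l [MOD k] := hpl.trans (fst_mod u l hk).symm
  have h2 : fst k u l ≤ p := by
    by_contra h
    push Not at h
    have h3 : k ∣ fst k u l - p := (Nat.modEq_iff_dvd' h.le).1 h1
    have h4 := Nat.le_of_dvd (by omega) h3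
    have h5 := fst_le u l hk
    omega
  have h3 : k ∣ p - fst k u l := (Nat.modEq_iff_dvd' h2).1 h1.symm
  rw [Nat.mul_div_cancel' h3]
  omega

lemma pc_le_wc {k u v l H R : ℕ} (hk : 1 ≤ k) (hR : R < k) (hH : v < fst k u l + k * H) :
    pc k u v l ≤ wc k H R (fst k u l) + 1 := by
  unfold pc wc
  have h1 := card_filter_add_card_filter_not (s := (Ioc u v).filter (fun p => p.Prime ∧ p ≡ l [MOD k]))
    (p := fun p => R < p)
  rw [← h1]
  apply Nat.add_le_add
  · apply card_le_card_of_injOn (fun p => (p - fst k u l) / k)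
    · intro p hp
      simp only [mem_coe, mem_filter, mem_Ioc] at hp
      obtain ⟨⟨⟨hp1, hp2⟩, hp3, hp4⟩, hp5⟩ := hp
      have h2 := fst_min hk hp1 hp4
      simp only [mem_coe, mem_filter, mem_range]
      rw [h2]
      refine ⟨?_, hp3, hp5⟩
      have h3 : k * ((p - fst k u l) / k) < k * H := by omega
      exact Nat.lt_of_mul_lt_mul_left h3
    · intro p hp p' hp' h
      simp only [mem_coe, mem_filter, mem_Ioc] at hp hp'
      simp only at h
      have h2 := fst_min hk hp.1.1.1 hp.1.2.2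
      have h3 := fst_min hk hp'.1.1.1 hp'.1.2.2
      rw [← h2, ← h3, h]
  · apply card_le_one.2
    intro a ha b hb
    simp only [mem_filter, mem_Ioc, not_lt] at ha hb
    have h2 : a ≡ b [MOD k] := ha.1.2.2.trans hb.1.2.2.symm
    rw [Nat.ModEq, Nat.mod_eq_of_lt (by omega), Nat.mod_eq_of_lt (by omega)] at h2
    exact h2

/-- an elementary inequality -/
lemma ev_fin2 (A ε : ℝ) (hε : 0 < ε) : ∀ᶠ Y : ℝ in atTop, 0 < Real.log (Y - 1) ∧
      (2 + ε / 2) * ((Y + 2) / Real.log (Y - 1)) + A ≤ (2 + ε) * (Y / Real.log Y) := by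
  set δ : ℝ := ε / (10 + 3 * ε) with hδ
  have hδ0 : 0 < δ := by positivity
  have hδ1 : δ < 1 := by rw [hδ, div_lt_one (by positivity)]; linarith
  have hδ2 : (2 + ε / 2) * (1 + δ) + δ * (1 - δ) ≤ (2 + ε) * (1 - δ) := by
    have h1 : δ * (10 + 3 * ε) = ε := by rw [hδ]; field_simp
    nlinarith [sq_nonneg δ]
  have t1 := eventually_ge_atTop (2 / δ)
  have t2 := Real.tendsto_log_atTop.eventually_ge_atTop (Real.log 2 / δ)
  have t3 := Real.tendsto_log_atTop.eventually_ge_atTop 1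
  have t4 := ev_log (A / δ) 1 1 one_pos
  filter_upwards [t1, t2, t3, t4, eventually_ge_atTop 2] with Y t1 t2 t3 t4 hY
  rw [div_le_iff₀ hδ0] at t1 t2
  rw [pow_one, Real.rpow_one, div_mul_eq_mul_div, div_le_iff₀ hδ0] at t4
  have hY0 : 0 < Y := by linarith
  have hlog : 0 < Real.log Y := by linarith
  have e1 : Real.log Y - Real.log 2 ≤ Real.log (Y - 1) := by
    rw [← Real.log_div (by linarith) (by norm_num)]
    apply Real.log_le_log (by linarith)
    linarith
  have e2 : (1 - δ) * Real.log Y ≤ Real.log (Y - 1) := by linarith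
  have e3 : 0 < (1 - δ) * Real.log Y := mul_pos (by linarith) hlog
  refine ⟨by linarith, ?_⟩
  have e4 : Y + 2 ≤ (1 + δ) * Y := by linarith
  have e5 : A ≤ δ * (Y / Real.log Y) := by
    rw [mul_div_assoc', le_div_iff₀ hlog]
    linarith
  calc (2 + ε / 2) * ((Y + 2) / Real.log (Y - 1)) + A
      ≤ (2 + ε / 2) * ((1 + δ) * Y / ((1 - δ) * Real.log Y)) + δ * (Y / Real.log Y) := by
        gcongr
    _ = ((2 + ε / 2) * (1 + δ) + δ * (1 - δ)) / (1 - δ) * (Y / Real.log Y) := by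
        have : (1 - δ) ≠ 0 := by linarith
        field_simp
    _ ≤ (2 + ε) * (Y / Real.log Y) := by
        apply mul_le_mul_of_nonneg_right _ (by positivity)
        rw [div_le_iff₀ (by linarith)]
        exact hδ2

/-- the bound for windows gives the bound in terms of `y / k` -/
lemma bound_conv {A ε Y κ Hr : ℝ} (hA : 0 < A) (hε : 0 < ε) (hκ : 1 ≤ κ) (hY1 : 0 < Real.log (Y - 1))
    (hY : (2 + ε / 2) * ((Y + 2) / Real.log (Y - 1)) + A ≤ (2 + ε) * (Y / Real.log Y))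
    (hH1 : Y - 1 ≤ Hr) (hH2 : Hr ≤ Y + 2) (hY2 : 1 < Y) :
    (2 + ε / 2) / A * κ * (Hr / Real.log Hr) + 1 ≤ (2 + ε) / A * κ * (Y / Real.log Y) := by
  have h1 : Real.log (Y - 1) ≤ Real.log Hr := Real.log_le_log (by linarith) hH1
  have h2 : (2 + ε / 2) * (Hr / Real.log Hr) ≤ (2 + ε / 2) * ((Y + 2) / Real.log (Y - 1)) := by
    have : 0 < Y - 1 := by linarith
    gcongr
  have h3 : (2 + ε / 2) * (Hr / Real.log Hr) + A ≤ (2 + ε) * (Y / Real.log Y) := by linarith
  calc (2 + ε / 2) / A * κ * (Hr / Real.log Hr) + 1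
      ≤ (2 + ε / 2) / A * κ * (Hr / Real.log Hr) + κ := by linarith
    _ = κ / A * ((2 + ε / 2) * (Hr / Real.log Hr) + A) := by field_simp
    _ ≤ κ / A * ((2 + ε) * (Y / Real.log Y)) := mul_le_mul_of_nonneg_left h3 (by positivity)
    _ = (2 + ε) / A * κ * (Y / Real.log Y) := by ring

/-- **classes** -/
theorem classes (A ε : ℝ) (hA : 0 < A) (hε : 0 < ε) : ∃ (C c : ℝ), 1 ≤ C ∧ 0 < c ∧ ∀ᶠ k : ℕ in atTop, ∀ x y : ℝ,
    k * (Real.log k) ^ C ≤ y → y ≤ (k : ℝ) ^ (1 + c) → y ≤ x →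
      (((range k).filter (fun l => (2 + ε) / A * y / (Nat.totient k * Real.log (y / k)) <
        (pc k ⌊x - y⌋₊ ⌊x⌋₊ l : ℝ))).card : ℝ) ≤ (k : ℝ) ^ (1 - 1 / (2 * A) + ε) := by
  obtain ⟨C, c0, hC, hc0, hev⟩ := eng4 A (ε / 2) hA (by linarith)
  obtain ⟨Y0, hY0⟩ := eventually_atTop.1 (ev_fin2 A ε hε)
  set c : ℝ := min (c0 / 2) (1 / (2 * A)) with hc
  have hcpos : 0 < c := by positivity
  have hc1 : c ≤ c0 / 2 := min_le_left _ _
  have hc2 : c ≤ 1 / (2 * A) := min_le_right _ _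
  refine ⟨C + 1, c, by linarith, hcpos, ?_⟩
  have hlogX : ∀ x : ℝ, ∀ᶠ X : ℕ in atTop, x ≤ Real.log X := fun x =>
    (Real.tendsto_log_atTop.comp tendsto_natCast_atTop_atTop).eventually_ge_atTop x
  have hpow : ∀ (a K : ℝ), 0 < a → ∀ᶠ X : ℕ in atTop, K ≤ (X : ℝ) ^ a := fun a K ha =>
    ((tendsto_rpow_atTop ha).comp tendsto_natCast_atTop_atTop).eventually_ge_atTop _
  filter_upwards [hev, hlogX 2, hlogX Y0, hpow (c0 / 2) 3 (by linarith), hpow (1 / 4) (3 ^ (A / 2)) (by norm_num),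
    eventually_ge_atTop 2] with k hk l1 lY hk3 hk4 hk2 x y hy1 hy2 hyx
  have hkR : (2 : ℝ) ≤ k := by exact_mod_cast hk2
  have hk0 : (0 : ℝ) < k := by linarith
  have hk1 : 1 ≤ k := by omega
  have hlC : 2 ≤ (Real.log k) ^ C := by
    calc (2 : ℝ) ≤ Real.log k := l1
      _ = (Real.log k) ^ (1 : ℝ) := (Real.rpow_one _).symm
      _ ≤ (Real.log k) ^ C := Real.rpow_le_rpow_of_exponent_le (by linarith) hC
  set Y : ℝ := y / k with hY
  have hYlow : (Real.log k) ^ (C + 1) ≤ Y := by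
    rw [hY, le_div_iff₀ hk0]; linarith
  have hlC1 : (Real.log k) ^ (C + 1) = (Real.log k) ^ C * Real.log k := by
    rw [Real.rpow_add (by linarith), Real.rpow_one]
  have hYC : 2 * (Real.log k) ^ C ≤ Y := by
    rw [hlC1] at hYlow
    nlinarith
  have hYlog : Real.log k ≤ Y := by
    rw [hlC1] at hYlow
    nlinarith
  have hYY0 : Y0 ≤ Y := lY.trans hYlog
  obtain ⟨g1, g2⟩ := hY0 Y hYY0
  have hYup : Y ≤ (k : ℝ) ^ c := by
    rw [hY, div_le_iff₀ hk0]
    rw [Real.rpow_add hk0, Real.rpow_one] at hy2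
    linarith
  have hy0 : 0 < y := by
    have : 0 < Y := by linarith
    rw [hY] at this
    exact (div_pos_iff_of_pos_right hk0).1 this
  have hykY : y = k * Y := by rw [hY]; field_simp
  set u : ℕ := ⌊x - y⌋₊ with hu
  set v : ℕ := ⌊x⌋₊ with hv
  have hu1 : (u : ℝ) ≤ x - y := Nat.floor_le (by linarith)
  have hu2 : x - y < u + 1 := Nat.lt_floor_add_one _
  have hv1 : (v : ℝ) ≤ x := Nat.floor_le (by linarith)
  have hv2 : x < v + 1 := Nat.lt_floor_add_one _
  -- the length of the windows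
  set H : ℕ := (v - u) / k + 1 with hH
  have huv : u ≤ v := Nat.floor_le_floor (by linarith)
  have hvu : ((v - u : ℕ) : ℝ) = v - u := by rw [Nat.cast_sub huv]
  have hHk1 : ((v - u : ℕ) : ℝ) < k * H := by
    have := Nat.lt_mul_div_succ (v - u) (show 0 < k by omega)
    exact_mod_cast this
  have hHk2 : (k : ℝ) * H ≤ (v - u : ℕ) + k := by
    have h1 : k * ((v - u) / k) ≤ v - u := Nat.mul_div_le _ _
    have h2 : k * H = k * ((v - u) / k) + k := by rw [hH]; ring
    have h3 : k * H ≤ (v - u) + k := by rw [h2]; exact Nat.add_le_add_right h1 k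
    exact_mod_cast h3
  have hHlow : Y - 1 ≤ H := by
    have h1 : y - 1 ≤ k * H := by linarith
    have h2 : (k : ℝ) * (Y - 1) ≤ k * H := by rw [hykY] at h1; linarith
    exact le_of_mul_le_mul_left h2 hk0
  have hHup : (H : ℝ) ≤ Y + 2 := by
    have h1 : (k : ℝ) * H ≤ y + 1 + k := by linarith
    have h2 : (k : ℝ) * H ≤ k * (Y + 2) := by rw [hykY] at h1; linarith
    exact le_of_mul_le_mul_left h2 hk0
  have hHC : (Real.log k) ^ C ≤ H := by linarith
  have hH1 : (1 : ℝ) ≤ H := by linarith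
  have hHc : (H : ℝ) ≤ (k : ℝ) ^ c0 := by
    have h1 : (k : ℝ) ^ c ≤ (k : ℝ) ^ (c0 / 2) := Real.rpow_le_rpow_of_exponent_le (by linarith) hc1
    have h2 : (k : ℝ) ^ c0 = (k : ℝ) ^ (c0 / 2) * (k : ℝ) ^ (c0 / 2) := by
      rw [← Real.rpow_add hk0]; congr 1; ring
    rw [h2]
    nlinarith
  set R : ℕ := ⌊(H : ℝ) ^ (A / 2)⌋₊ with hR
  have hRk : R < k := by
    have h1 : (R : ℝ) ≤ (H : ℝ) ^ (A / 2) := Nat.floor_le (by positivity)
    have h2 : (H : ℝ) ≤ 3 * (k : ℝ) ^ c := by linarith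
    have h3 : (H : ℝ) ^ (A / 2) ≤ 3 ^ (A / 2) * (k : ℝ) ^ (1 / 4 : ℝ) := by
      calc (H : ℝ) ^ (A / 2) ≤ (3 * (k : ℝ) ^ c) ^ (A / 2) := Real.rpow_le_rpow (by linarith) h2 (by linarith)
        _ = 3 ^ (A / 2) * (k : ℝ) ^ (c * (A / 2)) := by
            rw [Real.mul_rpow (by norm_num) (by positivity), ← Real.rpow_mul hk0.le]
        _ ≤ 3 ^ (A / 2) * (k : ℝ) ^ (1 / 4 : ℝ) := by
            apply mul_le_mul_of_nonneg_left _ (by positivity)
            apply Real.rpow_le_rpow_of_exponent_le (by linarith)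
            have : c * (A / 2) ≤ 1 / (2 * A) * (A / 2) := mul_le_mul_of_nonneg_right hc2 (by linarith)
            refine this.trans (le_of_eq ?_)
            field_simp
            norm_num
    have h4 : (3 : ℝ) ^ (A / 2) * (k : ℝ) ^ (1 / 4 : ℝ) ≤ (k : ℝ) ^ (1 / 4 : ℝ) * (k : ℝ) ^ (1 / 4 : ℝ) :=
      mul_le_mul_of_nonneg_right hk4 (by positivity)
    have h5 : (k : ℝ) ^ (1 / 4 : ℝ) * (k : ℝ) ^ (1 / 4 : ℝ) = (k : ℝ) ^ (1 / 2 : ℝ) := by
      rw [← Real.rpow_add hk0]; norm_num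
    have h6 : (k : ℝ) ^ (1 / 2 : ℝ) < k := by
      calc (k : ℝ) ^ (1 / 2 : ℝ) < (k : ℝ) ^ (1 : ℝ) :=
            Real.rpow_lt_rpow_of_exponent_lt (by linarith) (by norm_num)
        _ = k := Real.rpow_one _
    exact_mod_cast (by linarith : (R : ℝ) < k)
  set κ : ℝ := (k : ℝ) / Nat.totient k with hκ
  have hφ : (0 : ℝ) < Nat.totient k := by exact_mod_cast Nat.totient_pos.2 hk1
  have hκ1 : 1 ≤ κ := by
    rw [hκ, one_le_div hφ]
    exact_mod_cast Nat.totient_le k
  have hY1 : 1 < Y := by linarith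
  have hb := bound_conv hA hε hκ1 g1 g2 hHlow hHup hY1
  have hconv : (2 + ε) / A * y / (Nat.totient k * Real.log Y) = (2 + ε) / A * κ * (Y / Real.log Y) := by
    rw [hykY, hκ]
    have : 0 < Real.log Y := Real.log_pos hY1
    field_simp
  rw [hconv]
  have hfin := hk H k u hHC hHc hk1
  have hexp : (k : ℝ) ^ (1 - 1 / (2 * A) + ε / 2) ≤ (k : ℝ) ^ (1 - 1 / (2 * A) + ε) :=
    Real.rpow_le_rpow_of_exponent_le (by linarith) (by linarith)
  refine le_trans ?_ (hfin.trans hexp)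
  have hcard : ((range k).filter (fun l => (2 + ε) / A * κ * (Y / Real.log Y) < (pc k u v l : ℝ))).card ≤
      ((Icc 1 k).filter (fun n => (2 + ε / 2) / A * κ * (H / Real.log H) < (wc k H R (u + n) : ℝ))).card := by
    apply card_le_card_of_injOn (fun l => fst k u l - u)
    · intro l hl
      rw [mem_coe, mem_filter, mem_range] at hl
      rw [mem_coe, mem_filter, mem_Icc]
      have h1 := fst_gt k u l
      have h2 := fst_le u l hk1
      refine ⟨⟨(by omega : 1 ≤ fst k u l - u), (by omega : fst k u l - u ≤ k)⟩, ?_⟩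
      have h3 : u + (fst k u l - u) = fst k u l := by omega
      rw [h3]
      have h4 : v < fst k u l + k * H := by
        have h5 : v - u < k * H := by exact_mod_cast hHk1
        omega
      have h6 : (pc k u v l : ℝ) ≤ (wc k H R (fst k u l) : ℝ) + 1 := by
        exact_mod_cast pc_le_wc hk1 hRk h4
      linarith [hl.2]
    · intro l hl l' hl' h
      rw [mem_coe, mem_filter, mem_range] at hl hl'
      simp only at h
      have h1 := fst_gt k u l
      have h1' := fst_gt k u l'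
      have h2 : fst k u l = fst k u l' := by omega
      have h3 : l ≡ l' [MOD k] := by
        refine (fst_mod u l hk1).symm.trans ?_
        rw [h2]
        exact fst_mod u l' hk1
      rw [Nat.ModEq, Nat.mod_eq_of_lt hl.1, Nat.mod_eq_of_lt hl'.1] at h3
      exact h3
  exact_mod_cast hcard

end Pool.Agent.H537.EG
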