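import Pool.Agent.H537.EG.Wts
import Pool.Graph.R_seed8.Helper256.KM.E1
import Pool.Graph.R_seed8.H20R2.EN.FLem

/-! The engine: few windows of a progression contain many primes. -/

set_option autoImplicit false

namespace Pool.Agent.H537.EG
open Finset

/-- the primes in `(z, w]` not dividing `k` -/
def PS (k z w : ℕ) : Finset ℕ := (Ioc z w).filter (fun p => p.Prime ∧ ¬ p ∣ k)

lemma mem_PS {k z w p : ℕ} : p ∈ PS k z w ↔ p.Prime ∧ z < p ∧ p ≤ w ∧ ¬ p ∣ k := by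
  unfold PS
  rw [mem_filter, mem_Ioc]
  tauto

/-- the number of primes `> R` in the window -/
def wc (k H R n : ℕ) : ℕ := ((range H).filter (fun h => (n + k * h).Prime ∧ R < n + k * h)).card

lemma PI_le : ∃ C : ℝ, 1 ≤ C ∧ ∀ k R : ℕ, 2 ≤ R → ∏ p ∈ PQ k R, (1 + 1 / (p : ℝ)) ≤ C * Real.log R := by
  obtain ⟨C, hC0, hC⟩ := Pool.Agent.Helper256.KM.mertens_upper
  refine ⟨Real.exp C, Real.one_le_exp hC0, ?_⟩
  intro k R hR
  have hRR : (2 : ℝ) ≤ R := by exact_mod_cast hR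
  have hlog : 0 < Real.log R := Real.log_pos (by linarith)
  have h1 : ∏ p ∈ PQ k R, (1 + 1 / (p : ℝ)) ≤ Real.exp (∑ p ∈ PQ k R, 1 / (p : ℝ)) := by
    rw [Real.exp_sum]
    apply prod_le_prod
    · intro p _; positivity
    · intro p _
      have := Real.add_one_le_exp (1 / (p : ℝ))
      linarith
  have h2 : ∑ p ∈ PQ k R, 1 / (p : ℝ) ≤ Real.log (Real.log R) + C := by
    have h3 := hC R hRR
    rw [Nat.floor_natCast] at h3
    refine le_trans ?_ h3
    apply sum_le_sum_of_subset_of_nonneg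
    · intro p hp
      rw [mem_PQ] at hp
      rw [mem_filter, mem_Icc]
      exact ⟨⟨hp.1.one_le, hp.2.1⟩, hp.1⟩
    · intro p _ _; positivity
  calc ∏ p ∈ PQ k R, (1 + 1 / (p : ℝ)) ≤ Real.exp (∑ p ∈ PQ k R, 1 / (p : ℝ)) := h1
    _ ≤ Real.exp (Real.log (Real.log R) + C) := Real.exp_le_exp.2 h2
    _ = Real.exp C * Real.log R := by rw [Real.exp_add, Real.exp_log hlog, mul_comm]

lemma prod_Icc_inv (w : ℕ) (hw : 1 ≤ w) : ∏ j ∈ Icc 2 w, (1 - 1 / (j : ℝ))⁻¹ = w := by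
  induction w, hw using Nat.le_induction with
  | base => simp
  | succ w hw ih =>
    rw [prod_Icc_succ_top (by omega), ih]
    have hwR : (0 : ℝ) < w := by exact_mod_cast hw
    push_cast
    have : (1 - 1 / ((w : ℝ) + 1)) = w / (w + 1) := by field_simp; ring
    rw [this, inv_div]
    field_simp

lemma prod_inv_le (k z w : ℕ) (hw : 1 ≤ w) : ∏ p ∈ PS k z w, (1 - 1 / (p : ℝ))⁻¹ ≤ w := by
  rw [← prod_Icc_inv w hw]
  have hge : ∀ j : ℕ, 2 ≤ j → (1 : ℝ) ≤ (1 - 1 / (j : ℝ))⁻¹ := by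
    intro j hj
    have hjR : (2 : ℝ) ≤ j := by exact_mod_cast hj
    have h1 : 1 / (j : ℝ) ≤ 1 / 2 := by
      apply one_div_le_one_div_of_le (by norm_num) hjR
    have h2 : 0 < 1 / (j : ℝ) := by positivity
    rw [one_le_inv₀ (by linarith)]
    linarith
  apply Finset.prod_le_prod_of_subset_of_one_le
  · intro p hp
    rw [mem_PS] at hp
    rw [mem_Icc]
    exact ⟨hp.1.two_le, hp.2.2.1⟩
  · intro p hp
    rw [mem_PS] at hp
    linarith [hge p hp.1.two_le]
  · intro j hj _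
    rw [mem_Icc] at hj
    exact hge j hj.1

lemma tot_ratio (n : ℕ) : (Nat.totient n : ℝ) = n * ∏ p ∈ n.primeFactors, (1 - 1 / (p : ℝ)) := by
  have h := Nat.totient_eq_mul_prod_factors n
  have h2 : ((Nat.totient n : ℚ) : ℝ) = ((n * ∏ p ∈ n.primeFactors, (1 - (p : ℚ)⁻¹) : ℚ) : ℝ) := by
    rw [h]
  push_cast at h2
  rw [h2]
  simp only [one_div]

/-- the modulus with the small primes included -/
def kp (k z w : ℕ) : ℕ := k * ∏ p ∈ PS k z w, p

lemma kp_ratio {k z w : ℕ} (hk : 1 ≤ k) :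
    ((kp k z w : ℝ) / Nat.totient (kp k z w)) * ∏ p ∈ PS k z w, (1 - 1 / (p : ℝ)) =
      (k : ℝ) / Nat.totient k := by
  have hprime : ∀ p ∈ PS k z w, p.Prime := fun p hp => (mem_PS.1 hp).1
  have hprod0 : ∏ p ∈ PS k z w, p ≠ 0 := prod_ne_zero_iff.2 fun p hp => (hprime p hp).ne_zero
  have hpf : (kp k z w).primeFactors = k.primeFactors ∪ PS k z w := by
    unfold kp
    rw [Nat.primeFactors_mul (by omega) hprod0, Nat.primeFactors_prod hprime]
  have hdisj : Disjoint k.primeFactors (PS k z w) := by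
    rw [disjoint_left]
    intro p hp hp2
    exact (mem_PS.1 hp2).2.2.2 (Nat.dvd_of_mem_primeFactors hp)
  have hk0 : 0 < kp k z w := Nat.mul_pos hk (Nat.pos_of_ne_zero hprod0)
  have h1 : ∀ p : ℕ, p.Prime → (0 : ℝ) < 1 - 1 / (p : ℝ) := by
    intro p hp
    have hpR : (2 : ℝ) ≤ p := by exact_mod_cast hp.two_le
    have : 1 / (p : ℝ) ≤ 1 / 2 := one_div_le_one_div_of_le (by norm_num) hpR
    linarith
  have h2 : 0 < ∏ p ∈ k.primeFactors, (1 - 1 / (p : ℝ)) :=
    prod_pos fun p hp => h1 p (Nat.prime_of_mem_primeFactors hp)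
  have h3 : 0 < ∏ p ∈ PS k z w, (1 - 1 / (p : ℝ)) := prod_pos fun p hp => h1 p (hprime p hp)
  have hkR : (0 : ℝ) < k := by exact_mod_cast hk
  have hkpR : (0 : ℝ) < kp k z w := by exact_mod_cast hk0
  rw [tot_ratio (kp k z w), tot_ratio k, hpf, prod_union hdisj]
  field_simp

open Classical in
/-- the fundamental lemma of dimension `κ` with the constant `C0` (the body of `Pool.Agent.H410R2.EN.FLem`) -/
def FLC (C0 κ : ℕ) : Prop := ∀ (b J z0 : ℕ) (P : Finset ℕ) (g : ℕ → ℝ),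
  C0 ≤ b → C0 ≤ z0 → (∀ p ∈ P, p.Prime ∧ z0 < p ∧ p ≤ 2 ^ 2 ^ J) →
  (∀ p ∈ P, 0 ≤ g p ∧ g p ≤ κ / ((p : ℝ) - 1)) →
  ∀ (Ω : Finset ℕ) (w : ℕ → ℝ) (hit : ℕ → ℕ → Prop) (A : ℝ) (err : Finset ℕ → ℝ),
    (∀ m ∈ Ω, 0 ≤ w m) → 0 ≤ A →
    (∀ T ⊆ P, ∏ p ∈ T, p ≤ (2 ^ 2 ^ J) ^ (C0 * b) →
      |∑ m ∈ Ω.filter (fun m => ∀ p ∈ T, hit p m), w m - A * ∏ p ∈ T, g p| ≤ err T) →
    |∑ m ∈ Ω.filter (fun m => ∀ p ∈ P, ¬ hit p m), w m - A * ∏ p ∈ P, (1 - g p)| ≤
      (1 / 2 : ℝ) ^ b * (A * ∏ p ∈ P, (1 - g p)) +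
        ((J : ℝ) + 2) *
          ∑ T ∈ P.powerset.filter (fun T : Finset ℕ => ∏ p ∈ T, p ≤ (2 ^ 2 ^ J) ^ (C0 * b)), err T

lemma FLC_exists (κ : ℕ) : ∃ C0 : ℕ, 1 ≤ C0 ∧ FLC C0 κ := Pool.Agent.H20R2.fLem κ

/-- the one-window inequality -/
lemma one_window {C0 : ℕ} (hfl : FLC C0 1)
    {b J z0 k R H n : ℕ} {E τ : ℝ} {θ : ℕ → ℝ} {T : Finset (Finset ℕ)} {c : Finset ℕ → ℝ}
    (hb : C0 ≤ b) (hz0 : C0 ≤ z0) (hk : 1 ≤ k) (hwR : 2 ^ 2 ^ J ≤ R) (hn : 1 ≤ n)
    (hE0 : 0 ≤ E) (hE : E ≤ ((kp k z0 (2 ^ 2 ^ J) : ℝ) / Nat.totient (kp k z0 (2 ^ 2 ^ J))) / Real.log ((R : ℝ) + 1))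
    (hθ0 : ∀ n, 1 ≤ n → 0 ≤ θ n)
    (hθ1 : ∀ n, 1 ≤ n → (∀ p : ℕ, p.Prime → p ≤ R → p ∣ n → p ∣ kp k z0 (2 ^ 2 ^ J)) → θ n = 1)
    (hθ : ∀ n, θ n = E + ∑ t ∈ T, c t * Xi t n)
    (hτ : ∀ U ⊆ PS k z0 (2 ^ 2 ^ J), ∏ p ∈ U, p ≤ (2 ^ 2 ^ J) ^ (C0 * b) →
      |Wf k H (∏ p ∈ U, p) T c n| ≤ τ) :
    (wc k H R n : ℝ) ≤ ((k : ℝ) / Nat.totient k) / Real.log ((R : ℝ) + 1) *
      ((1 + (1 / 2) ^ b) * H + ((J : ℝ) + 2) * ((2 ^ 2 ^ J) ^ (C0 * b) : ℕ) * (2 ^ 2 ^ J : ℕ)) +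
      ((J : ℝ) + 2) * ((2 ^ 2 ^ J) ^ (C0 * b) : ℕ) * τ := by
  classical
  set w : ℕ := 2 ^ 2 ^ J with hw
  set P1 := PS k z0 w with hP1
  set D1 : ℕ := w ^ (C0 * b) with hD1
  have hw1 : 1 ≤ w := Nat.one_le_two_pow
  have hprime : ∀ p ∈ P1, p.Prime := fun p hp => (mem_PS.1 hp).1
  have hV1 : ∀ p ∈ P1, (0 : ℝ) < 1 - 1 / (p : ℝ) := by
    intro p hp
    have hpR : (2 : ℝ) ≤ p := by exact_mod_cast (hprime p hp).two_le
    have : 1 / (p : ℝ) ≤ 1 / 2 := one_div_le_one_div_of_le (by norm_num) hpR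
    linarith
  set V : ℝ := ∏ p ∈ P1, (1 - 1 / (p : ℝ)) with hV
  have hVpos : 0 < V := prod_pos hV1
  have hRR : (1 : ℝ) ≤ R := by exact_mod_cast hw1.trans hwR
  have hlog : 0 < Real.log ((R : ℝ) + 1) := Real.log_pos (by linarith)
  -- the fundamental lemma
  have hmain := hfl b J z0 P1 (fun p => 1 / (p : ℝ)) hb hz0
    (fun p hp => ⟨(mem_PS.1 hp).1, (mem_PS.1 hp).2.1, (mem_PS.1 hp).2.2.1⟩)
    (fun p hp => by
      have hpR : (2 : ℝ) ≤ p := by exact_mod_cast (hprime p hp).two_le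
      refine ⟨by positivity, ?_⟩
      push_cast
      apply one_div_le_one_div_of_le <;> linarith)
    (range H) (fun h => θ (n + k * h)) (fun p h => p ∣ n + k * h) (H * E)
    (fun U => |Wf k H (∏ p ∈ U, p) T c n| + E)
    (fun h _ => hθ0 _ (by omega)) (by positivity) (by
      intro U hU hUD
      have hUp : ∀ p ∈ U, p.Prime := fun p hp => hprime p (hU hp)
      set d := ∏ p ∈ U, p with hd
      have hd1 : 1 ≤ d := prod_pos fun p hp => (hUp p hp).pos
      have hdR : (0 : ℝ) < d := by exact_mod_cast hd1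
      have hkd : k.Coprime d := by
        apply Nat.Coprime.prod_right
        intro p hp
        exact ((Nat.Prime.coprime_iff_not_dvd (hUp p hp)).2 (mem_PS.1 (hU hp)).2.2.2).symm
      have e1 : ∑ h ∈ (range H).filter (fun h => ∀ p ∈ U, p ∣ n + k * h), θ (n + k * h) =
          E * Nc k H n d + Wf k H d T c n := by
        have e2 : (range H).filter (fun h => ∀ p ∈ U, p ∣ n + k * h) =
            (range H).filter (fun h => d ∣ n + k * h) := by
          ext h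
          rw [mem_filter, mem_filter]
          apply and_congr_right
          intro _
          constructor
          · intro h1
            exact Finset.prod_primes_dvd _ (fun a ha => (hUp a ha).prime) h1
          · intro h1 p hp
            exact (dvd_prod_of_mem (fun p => p) hp).trans h1
        rw [e2, sum_filter]
        unfold Nc Wf Zf
        rw [mul_sum, sum_congr rfl (fun t _ => mul_sum _ _ _), sum_comm, ← sum_add_distrib]
        apply sum_congr rfl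
        intro h _
        split_ifs
        · rw [hθ, mul_one]
        · simp
      have e3 : ∏ p ∈ U, 1 / (p : ℝ) = 1 / d := by
        rw [prod_div_distrib, prod_const_one, hd]
        push_cast
        rfl
      have e4 : ∀ F : Finset ℕ, F = (range H).filter (fun h => ∀ p ∈ U, p ∣ n + k * h) →
          ∑ h ∈ F, θ (n + k * h) = E * Nc k H n d + Wf k H d T c n := by
        intro F hF
        rw [hF, e1]
      rw [e4 _ (by ext h; simp only [mem_filter]), e3]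
      have h4 := Nc_near k d n H hd1 hkd
      have h5 : E * Nc k H n d + Wf k H d T c n - H * E * (1 / d) =
          Wf k H d T c n + E * (Nc k H n d - H / d) := by ring
      rw [h5]
      refine (abs_add_le _ _).trans ?_
      rw [abs_mul, abs_of_nonneg hE0]
      have h6 : E * |Nc k H n d - H / d| ≤ E * 1 := mul_le_mul_of_nonneg_left h4 hE0
      linarith)
  -- the primes are counted
  have hlow : (wc k H R n : ℝ) ≤
      ∑ h ∈ (range H).filter (fun h => ∀ p ∈ P1, ¬ p ∣ n + k * h), θ (n + k * h) := by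
    unfold wc
    have h1 : (((range H).filter (fun h => (n + k * h).Prime ∧ R < n + k * h)).card : ℝ) =
        ∑ h ∈ (range H).filter (fun h => (n + k * h).Prime ∧ R < n + k * h), θ (n + k * h) := by
      rw [card_eq_sum_ones]
      push_cast
      apply sum_congr rfl
      intro h hh
      rw [mem_filter] at hh
      symm
      apply hθ1 _ (by omega)
      intro p hp hpR hpd
      exfalso
      rcases (Nat.dvd_prime hh.2.1).1 hpd with h2 | h2
      · exact hp.one_lt.ne' h2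
      · omega
    rw [h1]
    apply sum_le_sum_of_subset_of_nonneg
    · intro h hh
      rw [mem_filter] at hh ⊢
      refine ⟨hh.1, ?_⟩
      intro p hp hpd
      have hp1 := mem_PS.1 hp
      rcases (Nat.dvd_prime hh.2.1).1 hpd with h2 | h2
      · exact hp1.1.one_lt.ne' h2
      · omega
    · intro h _ _
      exact hθ0 _ (by omega)
  have hcardT : ((P1.powerset.filter (fun U => ∏ p ∈ U, p ≤ D1)).card : ℝ) ≤ D1 := by
    have hinj : Set.InjOn (fun U : Finset ℕ => ∏ p ∈ U, p)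
        (P1.powerset.filter (fun U => ∏ p ∈ U, p ≤ D1) : Set (Finset ℕ)) := by
      intro s hs s' hs' h
      rw [mem_coe, mem_filter, mem_powerset] at hs hs'
      simp only at h
      rw [← Nat.primeFactors_prod (fun p hp => hprime p (hs.1 hp)),
        ← Nat.primeFactors_prod (fun p hp => hprime p (hs'.1 hp)), h]
    have h1 : (P1.powerset.filter (fun U => ∏ p ∈ U, p ≤ D1)).card ≤ (Icc 1 D1).card := by
      apply card_le_card_of_injOn _ _ hinj
      intro U hU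
      rw [mem_coe, mem_filter, mem_powerset] at hU
      rw [mem_coe, mem_Icc]
      exact ⟨prod_pos fun p hp => (hprime p (hU.1 hp)).pos, hU.2⟩
    rw [Nat.card_Icc] at h1
    have h2 : D1 + 1 - 1 = D1 := by omega
    rw [h2] at h1
    exact_mod_cast h1
  have herr : ∑ U ∈ P1.powerset.filter (fun U => ∏ p ∈ U, p ≤ D1),
      (|Wf k H (∏ p ∈ U, p) T c n| + E) ≤ D1 * (τ + E) := by
    have hτ0 : 0 ≤ τ := by
      refine (abs_nonneg _).trans (hτ ∅ (empty_subset _) ?_)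
      rw [prod_empty]
      exact Nat.one_le_pow _ _ hw1
    calc ∑ U ∈ P1.powerset.filter (fun U => ∏ p ∈ U, p ≤ D1), (|Wf k H (∏ p ∈ U, p) T c n| + E)
        ≤ ∑ U ∈ P1.powerset.filter (fun U => ∏ p ∈ U, p ≤ D1), (τ + E) := by
          apply sum_le_sum
          intro U hU
          rw [mem_filter, mem_powerset] at hU
          have := hτ U hU.1 hU.2
          linarith
      _ = ((P1.powerset.filter (fun U => ∏ p ∈ U, p ≤ D1)).card : ℝ) * (τ + E) := by
          rw [sum_const, nsmul_eq_mul]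
      _ ≤ D1 * (τ + E) := mul_le_mul_of_nonneg_right hcardT (by positivity)
  have hS := (abs_le.1 hmain).2
  rw [sub_le_iff_le_add] at hS
  set L : ℝ := ((k : ℝ) / Nat.totient k) / Real.log ((R : ℝ) + 1) with hL
  have hEV : E * V ≤ L := by
    calc E * V ≤ ((kp k z0 w : ℝ) / Nat.totient (kp k z0 w)) / Real.log ((R : ℝ) + 1) * V :=
          mul_le_mul_of_nonneg_right hE hVpos.le
      _ = ((kp k z0 w : ℝ) / Nat.totient (kp k z0 w) * V) / Real.log ((R : ℝ) + 1) := by ring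
      _ = L := by rw [hV, hP1, kp_ratio hk]
  have hL0 : 0 ≤ L := by positivity
  have hEw : E ≤ L * w := by
    have h1 : V⁻¹ ≤ w := by
      rw [hV, ← prod_inv_distrib]
      exact prod_inv_le k z0 w hw1
    calc E = (E * V) * V⁻¹ := by field_simp
      _ ≤ L * w := mul_le_mul hEV h1 (by positivity) hL0
  have hJ0 : (0 : ℝ) ≤ (J : ℝ) + 2 := by positivity
  have hH0 : (0 : ℝ) ≤ H := Nat.cast_nonneg H
  have h7 : (1 : ℝ) * (H * E * V) ≤ H * L := by
    have := mul_le_mul_of_nonneg_left hEV hH0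
    linarith
  have h8 : ((1 : ℝ) / 2) ^ b * (H * E * V) ≤ (1 / 2) ^ b * (H * L) :=
    mul_le_mul_of_nonneg_left (by linarith) (by positivity)
  have h9 : ((J : ℝ) + 2) * ∑ U ∈ P1.powerset.filter (fun U => ∏ p ∈ U, p ≤ D1),
      (|Wf k H (∏ p ∈ U, p) T c n| + E) ≤ ((J : ℝ) + 2) * (D1 * (τ + L * w)) := by
    apply mul_le_mul_of_nonneg_left _ hJ0
    refine herr.trans ?_
    apply mul_le_mul_of_nonneg_left _ (Nat.cast_nonneg _)
    linarith
  have h10 : (wc k H R n : ℝ) ≤ H * E * V + ((1 / 2) ^ b * (H * E * V) +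
      ((J : ℝ) + 2) * ∑ U ∈ P1.powerset.filter (fun U => ∏ p ∈ U, p ≤ D1),
      (|Wf k H (∏ p ∈ U, p) T c n| + E)) := by
    refine le_trans (le_trans hlow (le_of_eq ?_)) (hS.trans (le_of_eq ?_))
    · apply sum_congr _ (fun _ _ => rfl)
      ext h
      simp only [mem_filter]
    · rw [add_comm]
  calc (wc k H R n : ℝ) ≤ H * E * V + ((1 / 2) ^ b * (H * E * V) +
      ((J : ℝ) + 2) * ∑ U ∈ P1.powerset.filter (fun U => ∏ p ∈ U, p ≤ D1),
      (|Wf k H (∏ p ∈ U, p) T c n| + E)) := h10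
    _ ≤ H * L + ((1 / 2) ^ b * (H * L) + ((J : ℝ) + 2) * (D1 * (τ + L * w))) := by linarith
    _ = _ := by ring

end Pool.Agent.H537.EG
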