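import Pool.Agent.H537.EG.Eng1

/-! The engine: few windows of a progression contain many primes. -/

set_option autoImplicit false

namespace Pool.Agent.H537.EG
open Finset

/-- the bound in the good windows -/
noncomputable def gb (C0 b J k R H : ℕ) (τ : ℝ) : ℝ :=
  ((k : ℝ) / Nat.totient k) / Real.log ((R : ℝ) + 1) *
      ((1 + (1 / 2) ^ b) * H + ((J : ℝ) + 2) * ((2 ^ 2 ^ J) ^ (C0 * b) : ℕ) * (2 ^ 2 ^ J : ℕ)) +
      ((J : ℝ) + 2) * ((2 ^ 2 ^ J) ^ (C0 * b) : ℕ) * τ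

/-- the bound for the coefficients -/
noncomputable def Kc (CP : ℝ) (R r : ℕ) : ℝ :=
  (1 + Real.log R / Real.log 2) ^ 2 * 4 ^ r * (CP * Real.log R)

theorem eng2 {C0 : ℕ} (hfl : FLC C0 1) {CP : ℝ} (hCP1 : 1 ≤ CP)
    (hCP : ∀ k R : ℕ, 2 ≤ R → ∏ p ∈ PQ k R, (1 + 1 / (p : ℝ)) ≤ CP * Real.log R)
    {b J z0 k R r m H X N0 : ℕ} {τ : ℝ} (hb : C0 ≤ b) (hz0 : C0 ≤ z0) (hk : 1 ≤ k)
    (hkz : ∀ p : ℕ, p.Prime → p ≤ z0 → p ∣ k) (hwR : 2 ^ 2 ^ J ≤ R) (hr : R ^ 2 < (2 ^ 2 ^ J) ^ (r + 1))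
    (hτ : 0 < τ) :
    (((Icc 1 X).filter (fun n => gb C0 b J k R H τ < (wc k H R (N0 + n) : ℝ))).card : ℝ) ≤
      ((2 ^ 2 ^ J) ^ (C0 * b) : ℕ) * (6 * ((X : ℝ) + ((((2 ^ 2 ^ J) ^ (C0 * b)) * (R ^ 2) ^ m : ℕ) : ℝ) ^ 2) *
        ((Kc CP R r) ^ (2 * m) * (4 ^ r * H) ^ m *
          ((1 + (m : ℝ) * r) ^ (2 * m * r) * (CP * Real.log R)))) / τ ^ (2 * m) := by
  classical
  set w : ℕ := 2 ^ 2 ^ J with hw
  set D1 : ℕ := w ^ (C0 * b) with hD1
  have hw2 : 2 ≤ w := by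
    rw [hw]
    calc 2 = 2 ^ 1 := by norm_num
      _ ≤ 2 ^ 2 ^ J := Nat.pow_le_pow_right (by norm_num) Nat.one_le_two_pow
  have hw1 : 1 ≤ w := by omega
  have hR2 : 2 ≤ R := hw2.trans hwR
  set P1 := PS k z0 w with hP1
  have hprime : ∀ p ∈ P1, p.Prime := fun p hp => (mem_PS.1 hp).1
  have hk' : 1 ≤ kp k z0 w := Nat.mul_pos hk (prod_pos fun p hp => (hprime p hp).pos)
  have hkw : ∀ p : ℕ, p.Prime → p ≤ w → p ∣ kp k z0 w := by
    intro p hp hpw
    by_cases h1 : p ∣ k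
    · exact Dvd.dvd.mul_right h1 _
    · have h2 : z0 < p := by
        by_contra h3
        exact h1 (hkz p hp (by omega))
      exact Dvd.dvd.mul_left (dvd_prod_of_mem (fun p => p) (mem_PS.2 ⟨hp, h2, hpw, h1⟩)) k
  obtain ⟨E, θ, T, c, hE0, hE, hθ0, hθ1, hθ, hT, hc⟩ :=
    weights (kp k z0 w) R w r hk' (by omega) hw2 hkw hr
  have hlogR : 0 ≤ Real.log R := Real.log_nonneg (by exact_mod_cast (by omega : 1 ≤ R))
  have hl2 : 0 < Real.log 2 := Real.log_pos (by norm_num)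
  have hK0 : 0 ≤ Kc CP R r := by
    unfold Kc
    have : 0 ≤ CP := by linarith
    positivity
  have hcK : ∀ t ∈ T, |c t| ≤ Kc CP R r := by
    intro t ht
    refine (hc t ht).trans ?_
    unfold Kc
    exact mul_le_mul_of_nonneg_left (hCP _ R hR2) (by positivity)
  set TT := P1.powerset.filter (fun U => ∏ p ∈ U, p ≤ D1) with hTT
  have hsub : (Icc 1 X).filter (fun n => gb C0 b J k R H τ < (wc k H R (N0 + n) : ℝ)) ⊆
      TT.biUnion (fun U => (Icc 1 X).filter (fun n => τ < |Wf k H (∏ p ∈ U, p) T c (N0 + n)|)) := by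
    intro n hn
    rw [mem_filter, mem_Icc] at hn
    by_contra hcon
    have h1 : ∀ U ⊆ P1, ∏ p ∈ U, p ≤ D1 → |Wf k H (∏ p ∈ U, p) T c (N0 + n)| ≤ τ := by
      intro U hU hUD
      by_contra h2
      push Not at h2
      apply hcon
      rw [mem_biUnion]
      refine ⟨U, ?_, ?_⟩
      · rw [hTT, mem_filter, mem_powerset]
        exact ⟨hU, hUD⟩
      · rw [mem_filter, mem_Icc]
        exact ⟨hn.1, h2⟩
    have h3 := one_window hfl (n := N0 + n) hb hz0 hk hwR (by omega) hE0 hE hθ0 hθ1 hθ h1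
    have h4 : gb C0 b J k R H τ < (wc k H R (N0 + n) : ℝ) := hn.2
    unfold gb at h4
    rw [← hw, ← hD1] at h4
    exact absurd h3 (not_le.2 h4)
  have hcardT : (TT.card : ℝ) ≤ D1 := by
    have hinj : Set.InjOn (fun U : Finset ℕ => ∏ p ∈ U, p) (TT : Set (Finset ℕ)) := by
      intro s hs s' hs' h
      rw [mem_coe, hTT, mem_filter, mem_powerset] at hs hs'
      simp only at h
      rw [← Nat.primeFactors_prod (fun p hp => hprime p (hs.1 hp)),
        ← Nat.primeFactors_prod (fun p hp => hprime p (hs'.1 hp)), h]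
    have h1 : TT.card ≤ (Icc 1 D1).card := by
      apply card_le_card_of_injOn _ _ hinj
      intro U hU
      rw [mem_coe, hTT, mem_filter, mem_powerset] at hU
      rw [mem_coe, mem_Icc]
      exact ⟨prod_pos fun p hp => (hprime p (hU.1 hp)).pos, hU.2⟩
    rw [Nat.card_Icc] at h1
    have h2 : D1 + 1 - 1 = D1 := by omega
    rw [h2] at h1
    exact_mod_cast h1
  set MB : ℝ := 6 * ((X : ℝ) + ((D1 * (R ^ 2) ^ m : ℕ) : ℝ) ^ 2) *
        ((Kc CP R r) ^ (2 * m) * (4 ^ r * H) ^ m *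
          ((1 + (m : ℝ) * r) ^ (2 * m * r) * (CP * Real.log R))) with hMB
  have hone : ∀ U ∈ TT, (((Icc 1 X).filter (fun n => τ < |Wf k H (∏ p ∈ U, p) T c (N0 + n)|)).card : ℝ) ≤
      MB / τ ^ (2 * m) := by
    intro U hU
    rw [hTT, mem_filter, mem_powerset] at hU
    have hUp : ∀ p ∈ U, p.Prime := fun p hp => hprime p (hU.1 hp)
    have hd1 : 1 ≤ ∏ p ∈ U, p := prod_pos fun p hp => (hUp p hp).pos
    have hkd : k.Coprime (∏ p ∈ U, p) := by
      apply Nat.Coprime.prod_right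
      intro p hp
      exact ((Nat.Prime.coprime_iff_not_dvd (hUp p hp)).2 (mem_PS.1 (hU.1 hp)).2.2.2).symm
    have hdP : ∀ p ∈ PQ (kp k z0 w) R, (∏ p ∈ U, p).Coprime p := by
      intro p hp
      have hp1 := mem_PQ.1 hp
      apply Nat.Coprime.prod_left
      intro q hq
      apply (Nat.coprime_primes (hUp q hq) hp1.1).2
      intro h
      apply hp1.2.2
      rw [← h]
      exact Dvd.dvd.mul_left (dvd_prod_of_mem (fun p => p) (hU.1 hq)) k
    have hkP : ∀ p ∈ PQ (kp k z0 w) R, k.Coprime p := by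
      intro p hp
      have hp1 := mem_PQ.1 hp
      apply ((Nat.Prime.coprime_iff_not_dvd hp1.1).2 _).symm
      intro h
      exact hp1.2.2 (Dvd.dvd.mul_right h _)
    have hmom := window_moment (P := PQ (kp k z0 w) R) (fun p hp => (mem_PQ.1 hp).1) (d := ∏ p ∈ U, p)
      (k := k) (H := H) (r := r) (m := m) hd1 hdP hkd hkP T
      (fun t ht => ⟨(hT t ht).1, (hT t ht).2.1, (hT t ht).2.2.1⟩) (R ^ 2) (Nat.one_le_pow _ _ (by omega))
      (fun t ht => (hT t ht).2.2.2) c (Kc CP R r) hK0 hcK X N0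
    have hmom2 : ∑ n ∈ Icc 1 X, (Wf k H (∏ p ∈ U, p) T c (N0 + n)) ^ (2 * m) ≤ MB := by
      refine hmom.trans ?_
      rw [hMB]
      have h1 : (((∏ p ∈ U, p) * (R ^ 2) ^ m : ℕ) : ℝ) ≤ ((D1 * (R ^ 2) ^ m : ℕ) : ℝ) := by
        exact_mod_cast Nat.mul_le_mul_right _ hU.2
      have h2 := hCP (kp k z0 w) R hR2
      have h3 : (0 : ℝ) ≤ ∏ p ∈ PQ (kp k z0 w) R, (1 + 1 / (p : ℝ)) := prod_nonneg fun p _ => by positivity
      gcongr
    rw [le_div_iff₀ (by positivity)]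
    refine le_trans ?_ hmom2
    rw [← nsmul_eq_mul, ← sum_const]
    calc ∑ n ∈ (Icc 1 X).filter (fun n => τ < |Wf k H (∏ p ∈ U, p) T c (N0 + n)|), τ ^ (2 * m)
        ≤ ∑ n ∈ (Icc 1 X).filter (fun n => τ < |Wf k H (∏ p ∈ U, p) T c (N0 + n)|),
          (Wf k H (∏ p ∈ U, p) T c (N0 + n)) ^ (2 * m) := by
          apply sum_le_sum
          intro n hn
          rw [mem_filter] at hn
          rw [← (even_two_mul m).pow_abs (Wf k H (∏ p ∈ U, p) T c (N0 + n))]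
          exact pow_le_pow_left₀ hτ.le hn.2.le _
      _ ≤ _ := by
          apply sum_le_sum_of_subset_of_nonneg (filter_subset _ _)
          intro n _ _
          exact (even_two_mul m).pow_nonneg _
  have hMB0 : 0 ≤ MB := by
    rw [hMB]
    have : 0 ≤ CP := by linarith
    positivity
  calc (((Icc 1 X).filter (fun n => gb C0 b J k R H τ < (wc k H R (N0 + n) : ℝ))).card : ℝ)
      ≤ ((TT.biUnion (fun U => (Icc 1 X).filter
          (fun n => τ < |Wf k H (∏ p ∈ U, p) T c (N0 + n)|))).card : ℝ) := by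
        exact_mod_cast card_le_card hsub
    _ ≤ ∑ U ∈ TT, (((Icc 1 X).filter (fun n => τ < |Wf k H (∏ p ∈ U, p) T c (N0 + n)|)).card : ℝ) := by
        exact_mod_cast card_biUnion_le
    _ ≤ ∑ U ∈ TT, MB / τ ^ (2 * m) := sum_le_sum hone
    _ = (TT.card : ℝ) * (MB / τ ^ (2 * m)) := by rw [sum_const, nsmul_eq_mul]
    _ ≤ D1 * (MB / τ ^ (2 * m)) := mul_le_mul_of_nonneg_right hcardT (by positivity)
    _ = D1 * MB / τ ^ (2 * m) := by ring

end Pool.Agent.H537.EG
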