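import Pool.Agent.H537.EG.Eng2

/-! The choice of the parameters in the engine. -/

set_option autoImplicit false
set_option maxHeartbeats 4000000

namespace Pool.Agent.H537.EG
open Finset Filter

lemma ev_log (K η : ℝ) (a : ℕ) (hη : 0 < η) : ∀ᶠ x : ℝ in atTop, K * (Real.log x) ^ a ≤ x ^ η := by
  have h := isLittleO_log_rpow_rpow_atTop (a : ℝ) hη
  have hc : 0 < 1 / (|K| + 1) := by positivity
  filter_upwards [h.def hc, eventually_ge_atTop 1] with x hx hx1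
  have hlog : 0 ≤ Real.log x := Real.log_nonneg hx1
  rw [Real.rpow_natCast, Real.norm_of_nonneg (by positivity), Real.norm_of_nonneg (by positivity)] at hx
  have h1 : |K| * (Real.log x) ^ a ≤ |K| * (1 / (|K| + 1) * x ^ η) :=
    mul_le_mul_of_nonneg_left hx (abs_nonneg _)
  have h2 : K * (Real.log x) ^ a ≤ |K| * (Real.log x) ^ a :=
    mul_le_mul_of_nonneg_right (le_abs_self K) (by positivity)
  have h3 : |K| * (1 / (|K| + 1) * x ^ η) = (|K| / (|K| + 1)) * x ^ η := by ring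
  have h4 : |K| / (|K| + 1) ≤ 1 := by
    rw [div_le_one (by positivity)]
    linarith
  have h5 : (|K| / (|K| + 1)) * x ^ η ≤ 1 * x ^ η := mul_le_mul_of_nonneg_right h4 (by positivity)
  linarith

/-- the final computation -/
lemma final_count {X H R r m D1 : ℕ} {A η CP c τ : ℝ} (hH : 1 < (H : ℝ)) (hX : 1 ≤ X) (hA : 0 < A)
    (hη : 0 < η) (hη8 : 8 * η < 1) (hCP : 1 ≤ CP) (hR1 : 1 ≤ R)
    (hD : (D1 : ℝ) ≤ (H : ℝ) ^ η) (hR : ((R : ℝ)) ^ 2 ≤ (H : ℝ) ^ A)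
    (hm : 2 * A * m * Real.log H ≤ Real.log X) (hm2 : Real.log X < 2 * A * (m + 1) * Real.log H)
    (hK : (Kc CP R r) ^ 2 * 4 ^ r * (1 + (m : ℝ) * r) ^ (2 * r) ≤ (H : ℝ) ^ (4 * η))
    (hC : 12 * (CP * Real.log R) ≤ (H : ℝ) ^ η) (hτ : τ = (H : ℝ) ^ (1 - 2 * η))
    (hHX : Real.log H ≤ c * Real.log X) :
    (D1 : ℝ) * (6 * ((X : ℝ) + ((D1 * (R ^ 2) ^ m : ℕ) : ℝ) ^ 2) *
        ((Kc CP R r) ^ (2 * m) * (4 ^ r * H) ^ m *
          ((1 + (m : ℝ) * r) ^ (2 * m * r) * (CP * Real.log R)))) / τ ^ (2 * m) ≤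
      (X : ℝ) ^ (1 - 1 / (2 * A) + (4 * η / A + 2 * c)) := by
  have hH0 : (0 : ℝ) < H := by linarith
  have hXR : (1 : ℝ) ≤ X := by exact_mod_cast hX
  have hX0 : (0 : ℝ) < X := by linarith
  have hL : 0 < Real.log H := Real.log_pos hH
  have hτ0 : 0 < τ := by rw [hτ]; positivity
  have hlogR : 0 ≤ Real.log R := Real.log_nonneg (by exact_mod_cast hR1)
  have hK0 : 0 ≤ Kc CP R r := by
    unfold Kc
    have : 0 < Real.log 2 := Real.log_pos (by norm_num)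
    positivity
  -- powers
  have e1 : (H : ℝ) ^ (2 * A * m) ≤ X := by
    rw [← Real.exp_log hH0, ← Real.exp_mul, ← Real.exp_log hX0]
    apply Real.exp_le_exp.2
    linarith
  have e2 : (((D1 * (R ^ 2) ^ m : ℕ) : ℝ)) ^ 2 ≤ (H : ℝ) ^ (2 * η) * X := by
    push_cast
    have h1 : ((R : ℝ) ^ 2) ^ m ≤ ((H : ℝ) ^ A) ^ m := pow_le_pow_left₀ (by positivity) hR m
    have h2 : (D1 : ℝ) * ((R : ℝ) ^ 2) ^ m ≤ (H : ℝ) ^ η * ((H : ℝ) ^ A) ^ m :=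
      mul_le_mul hD h1 (by positivity) (by positivity)
    calc ((D1 : ℝ) * ((R : ℝ) ^ 2) ^ m) ^ 2 ≤ ((H : ℝ) ^ η * ((H : ℝ) ^ A) ^ m) ^ 2 :=
          pow_le_pow_left₀ (by positivity) h2 2
      _ = (H : ℝ) ^ (2 * η) * (H : ℝ) ^ (2 * A * m) := by
          rw [mul_pow, ← Real.rpow_natCast ((H : ℝ) ^ η) 2, ← Real.rpow_mul hH0.le,
            ← Real.rpow_natCast ((H : ℝ) ^ A) m, ← Real.rpow_mul hH0.le,
            ← Real.rpow_natCast ((H : ℝ) ^ (A * m)) 2, ← Real.rpow_mul hH0.le]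
          push_cast
          congr 2 <;> ring
      _ ≤ (H : ℝ) ^ (2 * η) * X := mul_le_mul_of_nonneg_left e1 (by positivity)
  have e3 : 6 * ((X : ℝ) + ((D1 * (R ^ 2) ^ m : ℕ) : ℝ) ^ 2) ≤ 12 * (H : ℝ) ^ (2 * η) * X := by
    have h1 : (1 : ℝ) ≤ (H : ℝ) ^ (2 * η) := Real.one_le_rpow hH.le (by linarith)
    have h2 : (X : ℝ) ≤ (H : ℝ) ^ (2 * η) * X := by nlinarith
    linarith
  have e4 : (Kc CP R r) ^ (2 * m) * (4 ^ r * H) ^ m * (1 + (m : ℝ) * r) ^ (2 * m * r) / τ ^ (2 * m) ≤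
      (H : ℝ) ^ ((8 * η - 1) * m) := by
    have h1 : (Kc CP R r) ^ (2 * m) * (4 ^ r * H) ^ m * (1 + (m : ℝ) * r) ^ (2 * m * r) / τ ^ (2 * m) =
        (((Kc CP R r) ^ 2 * 4 ^ r * (1 + (m : ℝ) * r) ^ (2 * r)) * H / τ ^ 2) ^ m := by
      rw [div_pow, mul_pow, mul_pow, mul_pow, mul_pow, ← pow_mul, ← pow_mul, ← pow_mul, ← pow_mul]
      have : 2 * m * r = 2 * r * m := by ring
      rw [this]
      ring
    rw [h1]
    have h2 : ((Kc CP R r) ^ 2 * 4 ^ r * (1 + (m : ℝ) * r) ^ (2 * r)) * H / τ ^ 2 ≤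
        (H : ℝ) ^ (8 * η - 1) := by
      rw [div_le_iff₀ (by positivity)]
      have h3 : (H : ℝ) ^ (8 * η - 1) * τ ^ 2 = (H : ℝ) ^ (4 * η) * H := by
        rw [hτ, ← Real.rpow_natCast, ← Real.rpow_mul hH0.le, ← Real.rpow_add hH0]
        nth_rewrite 3 [← Real.rpow_one (H : ℝ)]
        rw [← Real.rpow_add hH0]
        congr 1
        push_cast
        ring
      rw [h3]
      exact mul_le_mul_of_nonneg_right hK hH0.le
    calc (((Kc CP R r) ^ 2 * 4 ^ r * (1 + (m : ℝ) * r) ^ (2 * r)) * H / τ ^ 2) ^ m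
        ≤ ((H : ℝ) ^ (8 * η - 1)) ^ m := pow_le_pow_left₀ (by positivity) h2 m
      _ = (H : ℝ) ^ ((8 * η - 1) * m) := by
          rw [← Real.rpow_natCast, ← Real.rpow_mul hH0.le]
  have e5 : (D1 : ℝ) * (6 * ((X : ℝ) + ((D1 * (R ^ 2) ^ m : ℕ) : ℝ) ^ 2) *
        ((Kc CP R r) ^ (2 * m) * (4 ^ r * H) ^ m *
          ((1 + (m : ℝ) * r) ^ (2 * m * r) * (CP * Real.log R)))) / τ ^ (2 * m) =
      (D1 : ℝ) * (6 * ((X : ℝ) + ((D1 * (R ^ 2) ^ m : ℕ) : ℝ) ^ 2)) * (CP * Real.log R) *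
      ((Kc CP R r) ^ (2 * m) * (4 ^ r * H) ^ m * (1 + (m : ℝ) * r) ^ (2 * m * r) / τ ^ (2 * m)) := by
    ring
  rw [e5]
  have hCR : 0 ≤ CP * Real.log R := by positivity
  have e6 : (D1 : ℝ) * (6 * ((X : ℝ) + ((D1 * (R ^ 2) ^ m : ℕ) : ℝ) ^ 2)) * (CP * Real.log R) ≤
      X * (H : ℝ) ^ (4 * η) := by
    calc (D1 : ℝ) * (6 * ((X : ℝ) + ((D1 * (R ^ 2) ^ m : ℕ) : ℝ) ^ 2)) * (CP * Real.log R)
        ≤ (H : ℝ) ^ η * (12 * (H : ℝ) ^ (2 * η) * X) * (CP * Real.log R) := by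
          apply mul_le_mul_of_nonneg_right _ hCR
          exact mul_le_mul hD e3 (by positivity) (by positivity)
      _ = (H : ℝ) ^ η * (H : ℝ) ^ (2 * η) * X * (12 * (CP * Real.log R)) := by ring
      _ ≤ (H : ℝ) ^ η * (H : ℝ) ^ (2 * η) * X * (H : ℝ) ^ η :=
          mul_le_mul_of_nonneg_left hC (by positivity)
      _ = X * ((H : ℝ) ^ η * (H : ℝ) ^ (2 * η) * (H : ℝ) ^ η) := by ring
      _ = X * (H : ℝ) ^ (4 * η) := by
          rw [← Real.rpow_add hH0, ← Real.rpow_add hH0]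
          congr 2
          ring
  calc (D1 : ℝ) * (6 * ((X : ℝ) + ((D1 * (R ^ 2) ^ m : ℕ) : ℝ) ^ 2)) * (CP * Real.log R) *
      ((Kc CP R r) ^ (2 * m) * (4 ^ r * H) ^ m * (1 + (m : ℝ) * r) ^ (2 * m * r) / τ ^ (2 * m))
      ≤ (X * (H : ℝ) ^ (4 * η)) * (H : ℝ) ^ ((8 * η - 1) * m) :=
        mul_le_mul e6 e4 (by positivity) (by positivity)
    _ = Real.exp (Real.log X + 4 * η * Real.log H + (8 * η - 1) * m * Real.log H) := by
        rw [Real.exp_add, Real.exp_add, Real.exp_log hX0, Real.rpow_def_of_pos hH0, Real.rpow_def_of_pos hH0]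
        congr 2
        · congr 1; ring
        · ring
    _ ≤ Real.exp (Real.log X * (1 - 1 / (2 * A) + (4 * η / A + 2 * c))) := by
        apply Real.exp_le_exp.2
        have h1 : (Real.log X) / (2 * A) ≤ (m + 1) * Real.log H := by
          rw [div_le_iff₀ (by linarith)]
          linarith
        have h2 : (8 * η - 1) * ((m + 1) * Real.log H) ≤ (8 * η - 1) * (Real.log X / (2 * A)) :=
          mul_le_mul_of_nonpos_left h1 (by linarith)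
        have h3 : Real.log X * (1 - 1 / (2 * A) + (4 * η / A + 2 * c)) =
            Real.log X + (8 * η - 1) * (Real.log X / (2 * A)) + 2 * (c * Real.log X) := by
          field_simp
          ring
        rw [h3]
        nlinarith
    _ = (X : ℝ) ^ (1 - 1 / (2 * A) + (4 * η / A + 2 * c)) := by
        rw [Real.rpow_def_of_pos hX0]

/-- the choice of `J` -/
lemma exists_J {L η : ℝ} {q : ℕ} (hq : 1 ≤ q) (hL : q * Real.log 2 ≤ η * L) : ∃ J : ℕ,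
    (q : ℝ) * (2 ^ J * Real.log 2) ≤ η * L ∧ η * L < q * (2 ^ (J + 1) * Real.log 2) := by
  have hl2 : 0 < Real.log 2 := Real.log_pos (by norm_num)
  have hq0 : (0 : ℝ) < q := by exact_mod_cast hq
  set y : ℝ := η * L / (q * Real.log 2) with hy
  have hy1 : 1 ≤ y := by
    rw [hy, le_div_iff₀ (by positivity)]
    linarith
  have hf : ⌊y⌋₊ ≠ 0 := by
    have : 1 ≤ ⌊y⌋₊ := Nat.le_floor (by exact_mod_cast hy1)
    omega
  refine ⟨Nat.log 2 ⌊y⌋₊, ?_, ?_⟩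
  · have h1 : 2 ^ Nat.log 2 ⌊y⌋₊ ≤ ⌊y⌋₊ := Nat.pow_log_le_self 2 hf
    have h2 : ((2 ^ Nat.log 2 ⌊y⌋₊ : ℕ) : ℝ) ≤ y := (Nat.cast_le.2 h1).trans (Nat.floor_le (by linarith))
    push_cast at h2
    rw [hy, le_div_iff₀ (by positivity)] at h2
    linarith
  · have h1 : ⌊y⌋₊ < 2 ^ (Nat.log 2 ⌊y⌋₊ + 1) := Nat.lt_pow_succ_log_self (by norm_num) _
    have h2 : y < ((2 ^ (Nat.log 2 ⌊y⌋₊ + 1) : ℕ) : ℝ) := by
      have h3 : y < ⌊y⌋₊ + 1 := Nat.lt_floor_add_one y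
      have h4 : ((⌊y⌋₊ + 1 : ℕ) : ℝ) ≤ ((2 ^ (Nat.log 2 ⌊y⌋₊ + 1) : ℕ) : ℝ) := by exact_mod_cast h1
      push_cast at h4 ⊢
      linarith
    push_cast at h2
    rw [hy, div_lt_iff₀ (by positivity)] at h2
    linarith

/-- conditions on the length of the windows -/
def Cond (A ε η CP : ℝ) (q r : ℕ) (h : ℝ) : Prop :=
  2 ≤ Real.log h ∧ 1 ≤ 2 * A * Real.log h ∧ q * Real.log 2 ≤ η * Real.log h ∧
      16 * Real.log h ≤ ε * h ^ (1 - η) ∧ 8 * A * (Real.log h) ^ 2 ≤ ε * h ^ η ∧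
      h ^ η ≤ h ^ (A / 2) - 1 ∧
      ((1 + (A / 2 * Real.log h) / Real.log 2) ^ 2 * 4 ^ r * (CP * (A / 2 * Real.log h))) ^ 2 * 4 ^ r ≤ h ^ η ∧
      (2 * (1 + (r : ℝ))) ^ (2 * r) ≤ h ^ η ∧ 12 * (CP * (A / 2 * Real.log h)) ≤ h ^ η

lemma Cond_ev {A ε η CP : ℝ} (q r : ℕ) (hA : 0 < A) (hε : 0 < ε) (hCP1 : 1 ≤ CP) (hη : 0 < η) (hη8 : 8 * η < 1)
    (hηA2 : η < A / 2) : ∀ᶠ h : ℝ in atTop, Cond A ε η CP q r h := by
  have hl2 : 0 < Real.log 2 := Real.log_pos (by norm_num)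
  have t1 := (Real.tendsto_log_atTop.eventually_ge_atTop 2)
  have t2 := (Real.tendsto_log_atTop.eventually_ge_atTop (1 / (2 * A)))
  have t3 := (Real.tendsto_log_atTop.eventually_ge_atTop (q * Real.log 2 / η))
  have t4 := ev_log (16 / ε) (1 - η) 1 (by linarith)
  have t5 := ev_log (8 * A / ε) η 2 hη
  have t6 : ∀ᶠ h : ℝ in atTop, h ^ η ≤ h ^ (A / 2) - 1 := by
    have h1 := ev_log 2 (A / 2 - η) 0 (by linarith)
    filter_upwards [h1, eventually_ge_atTop 1] with h hh h1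
    have h2 : h ^ (A / 2) = h ^ η * h ^ (A / 2 - η) := by
      rw [← Real.rpow_add (by linarith)]; congr 1; ring
    rw [h2]
    have h3 : (1 : ℝ) ≤ h ^ η := Real.one_le_rpow h1 hη.le
    simp only [pow_zero, mul_one] at hh
    nlinarith
  have t7 := ev_log (((1 + (A / 2) / Real.log 2) ^ 2 * 4 ^ r * (CP * (A / 2))) ^ 2 * 4 ^ r) η 6 hη
  have t8 := ev_log ((2 * (1 + (r : ℝ))) ^ (2 * r)) η 0 hη
  have t9 := ev_log (12 * (CP * (A / 2))) η 1 hη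
  filter_upwards [t1, t2, t3, t4, t5, t6, t7, t8, t9] with h t1 t2 t3 t4 t5 t6 t7 t8 t9
  refine ⟨t1, ?_, ?_, ?_, ?_, t6, ?_, ?_, ?_⟩
  · rw [div_le_iff₀ (by positivity)] at t2; linarith
  · rw [div_le_iff₀ hη] at t3; linarith
  · rw [pow_one, div_mul_eq_mul_div, div_le_iff₀ hε] at t4; linarith
  · rw [div_mul_eq_mul_div, div_le_iff₀ hε] at t5; linarith
  · refine le_trans ?_ t7
    have hlog1 : 1 ≤ Real.log h := by linarith
    have h1 : 1 + (A / 2 * Real.log h) / Real.log 2 ≤ (1 + (A / 2) / Real.log 2) * Real.log h := by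
      have : (A / 2 * Real.log h) / Real.log 2 = (A / 2) / Real.log 2 * Real.log h := by ring
      rw [this]
      nlinarith
    have h2 : (1 + (A / 2 * Real.log h) / Real.log 2) ^ 2 ≤ ((1 + (A / 2) / Real.log 2) * Real.log h) ^ 2 :=
      pow_le_pow_left₀ (by positivity) h1 2
    calc ((1 + (A / 2 * Real.log h) / Real.log 2) ^ 2 * 4 ^ r * (CP * (A / 2 * Real.log h))) ^ 2 * 4 ^ r
        ≤ (((1 + (A / 2) / Real.log 2) * Real.log h) ^ 2 * 4 ^ r * (CP * (A / 2 * Real.log h))) ^ 2 * 4 ^ r := by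
          gcongr
      _ = _ := by ring
  · simpa using t8
  · rw [pow_one] at t9; linarith

lemma Cond_evN {A ε η CP : ℝ} (q r : ℕ) (hA : 0 < A) (hε : 0 < ε) (hCP1 : 1 ≤ CP) (hη : 0 < η) (hη8 : 8 * η < 1)
    (hηA2 : η < A / 2) : ∀ᶠ X : ℕ in atTop, ∀ h : ℝ, (Real.log X) ^ (1 : ℝ) ≤ h → Cond A ε η CP q r h := by
  obtain ⟨h0, hh0⟩ := eventually_atTop.1 (Cond_ev q r hA hε hCP1 hη hη8 hηA2)
  have h1 := (Real.tendsto_log_atTop.comp tendsto_natCast_atTop_atTop).eventually_ge_atTop h0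
  filter_upwards [h1] with X hX h hh
  rw [Real.rpow_one] at hh
  exact hh0 h (le_trans hX hh)

/-- the bound in the good windows is small -/
lemma gb_le {A ε η : ℝ} {C0 b J k H R q : ℕ} (hA : 0 < A) (hε : 0 < ε) (hη : 0 < η) (hη8 : 8 * η < 1) (hk : 1 ≤ k)
    (hb : ((1 : ℝ) / 2) ^ b ≤ ε / 4) (hq1 : 1 ≤ q) (hH0 : (0 : ℝ) < H) (c1 : 2 ≤ Real.log H)
    (c4 : 16 * Real.log H ≤ ε * (H : ℝ) ^ (1 - η)) (c5 : 8 * A * (Real.log H) ^ 2 ≤ ε * (H : ℝ) ^ η)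
    (hJ1 : (q : ℝ) * (2 ^ J * Real.log 2) ≤ η * Real.log H)
    (hD1w : (((2 ^ 2 ^ J) ^ (C0 * b) : ℕ) : ℝ) * ((2 ^ 2 ^ J : ℕ) : ℝ) ≤ (H : ℝ) ^ η)
    (hD1H : (((2 ^ 2 ^ J) ^ (C0 * b) : ℕ) : ℝ) ≤ (H : ℝ) ^ η)
    (hlogR1 : A / 2 * Real.log H ≤ Real.log ((R : ℝ) + 1)) :
    gb C0 b J k R H ((H : ℝ) ^ (1 - 2 * η)) ≤
      (2 + ε) / A * ((k : ℝ) / Nat.totient k) * (H / Real.log H) := by
  have hl2 : 0 < Real.log 2 := Real.log_pos (by norm_num)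
  set w : ℕ := 2 ^ 2 ^ J with hw
  set D1 : ℕ := w ^ (C0 * b) with hD1
  set L : ℝ := Real.log H with hL
  have hL0 : 0 < L := by linarith
  unfold gb
  rw [← hw, ← hD1]
  have hkφ : 1 ≤ (k : ℝ) / Nat.totient k := by
    rw [one_le_div (by exact_mod_cast Nat.totient_pos.2 hk)]
    exact_mod_cast Nat.totient_le k
  set κ : ℝ := (k : ℝ) / Nat.totient k with hκ
  have hκ0 : 0 < κ := by linarith
  -- J + 2 ≤ 2 L
  have hJL : (J : ℝ) + 2 ≤ 2 * L := by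
    have h1 : (J : ℝ) ≤ L := by
      have h2 : (J : ℝ) ≤ 2 ^ J := by exact_mod_cast (Nat.lt_two_pow_self).le
      have h3 : (2 : ℝ) ^ J * Real.log 2 ≤ η * L := by
        have h4 : (1 : ℝ) * (2 ^ J * Real.log 2) ≤ q * (2 ^ J * Real.log 2) :=
          mul_le_mul_of_nonneg_right (by exact_mod_cast hq1) (by positivity)
        linarith
      have h5 := Real.log_two_gt_d9
      have h6 : (2 : ℝ) ^ J * (1 / 2) ≤ 2 ^ J * Real.log 2 :=
        mul_le_mul_of_nonneg_left (by linarith) (by positivity)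
      nlinarith
    linarith
  have hJ0 : (0 : ℝ) ≤ (J : ℝ) + 2 := by positivity
  have hHsplit : (H : ℝ) ^ (1 - η) * (H : ℝ) ^ η = H := by
    rw [← Real.rpow_add hH0]; simp
  -- first error
  have t1 : ((J : ℝ) + 2) * D1 * w ≤ ε / 8 * H := by
    calc ((J : ℝ) + 2) * D1 * w = ((J : ℝ) + 2) * (D1 * w) := by ring
      _ ≤ (2 * L) * (H : ℝ) ^ η := mul_le_mul hJL hD1w (by positivity) (by linarith)
      _ = (16 * L) * (H : ℝ) ^ η / 8 := by ring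
      _ ≤ (ε * (H : ℝ) ^ (1 - η)) * (H : ℝ) ^ η / 8 := by gcongr
      _ = ε / 8 * H := by rw [mul_assoc, hHsplit]; ring
  -- second error
  have t2 : ((J : ℝ) + 2) * D1 * (H : ℝ) ^ (1 - 2 * η) ≤ ε / (4 * A) * (H / L) := by
    have h1 : ((J : ℝ) + 2) * D1 * (H : ℝ) ^ (1 - 2 * η) ≤ (2 * L) * ((H : ℝ) ^ η * (H : ℝ) ^ (1 - 2 * η)) := by
      rw [mul_assoc]
      apply mul_le_mul hJL _ (by positivity) (by linarith)
      exact mul_le_mul_of_nonneg_right hD1H (by positivity)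
    have h2 : (H : ℝ) ^ η * (H : ℝ) ^ (1 - 2 * η) = (H : ℝ) ^ (1 - η) := by
      rw [← Real.rpow_add hH0]; congr 1; ring
    rw [h2] at h1
    refine h1.trans ?_
    have h3 : ε / (4 * A) * (H / L) = ε * H / (4 * A * L) := by field_simp
    rw [h3, le_div_iff₀ (by positivity)]
    have h4 : 2 * L * (H : ℝ) ^ (1 - η) * (4 * A * L) = (8 * A * L ^ 2) * (H : ℝ) ^ (1 - η) := by ring
    rw [h4]
    calc (8 * A * L ^ 2) * (H : ℝ) ^ (1 - η) ≤ (ε * (H : ℝ) ^ η) * (H : ℝ) ^ (1 - η) := by gcongr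
      _ = ε * H := by rw [mul_assoc, mul_comm ((H : ℝ) ^ η), hHsplit]
  have hlogR1' : 0 < A / 2 * L := by positivity
  have t3 : κ / Real.log ((R : ℝ) + 1) ≤ κ / (A / 2 * L) := by gcongr
  have t4 : (1 + (1 / 2) ^ b) * (H : ℝ) + ((J : ℝ) + 2) * (D1 : ℝ) * (w : ℝ) ≤ (1 + ε / 4 + ε / 8) * H := by
    have : ((1 : ℝ) / 2) ^ b * H ≤ ε / 4 * H := mul_le_mul_of_nonneg_right hb hH0.le
    linarith
  have t5 : κ / Real.log ((R : ℝ) + 1) * ((1 + (1 / 2) ^ b) * (H : ℝ) + ((J : ℝ) + 2) * (D1 : ℝ) * (w : ℝ)) ≤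
      κ / (A / 2 * L) * ((1 + ε / 4 + ε / 8) * H) :=
    mul_le_mul t3 t4 (by positivity) (by positivity)
  have t6 : ε / (4 * A) * (H / L) ≤ κ * (ε / (4 * A) * (H / L)) := by
    have : 0 ≤ ε / (4 * A) * (H / L) := by positivity
    nlinarith
  calc κ / Real.log ((R : ℝ) + 1) * ((1 + (1 / 2) ^ b) * (H : ℝ) + ((J : ℝ) + 2) * (D1 : ℝ) * (w : ℝ)) +
      ((J : ℝ) + 2) * (D1 : ℝ) * (H : ℝ) ^ (1 - 2 * η)
      ≤ κ / (A / 2 * L) * ((1 + ε / 4 + ε / 8) * H) + κ * (ε / (4 * A) * (H / L)) := by linarith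
    _ = (2 + ε) / A * κ * (H / L) := by field_simp; ring

/-- the parameters of a window -/
lemma exists_par {A η : ℝ} {C0 b r H : ℕ} (hA : 0 < A) (hη : 0 < η)
    (hrq : 2 * A * ((C0 * b + 1 : ℕ) : ℝ) ≤ r * η) (hH1 : (1 : ℝ) ≤ H)
    (c1 : 2 ≤ Real.log H) (c3 : ((C0 * b + 1 : ℕ) : ℝ) * Real.log 2 ≤ η * Real.log H)
    (c6 : (H : ℝ) ^ η ≤ (H : ℝ) ^ (A / 2) - 1) : ∃ J : ℕ,
      2 ^ 2 ^ J ≤ ⌊(H : ℝ) ^ (A / 2)⌋₊ ∧ ⌊(H : ℝ) ^ (A / 2)⌋₊ ^ 2 < (2 ^ 2 ^ J) ^ (r + 1) ∧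
      (((2 ^ 2 ^ J) ^ (C0 * b) : ℕ) : ℝ) * ((2 ^ 2 ^ J : ℕ) : ℝ) ≤ (H : ℝ) ^ η ∧
      (((2 ^ 2 ^ J) ^ (C0 * b) : ℕ) : ℝ) ≤ (H : ℝ) ^ η ∧
      ((C0 * b + 1 : ℕ) : ℝ) * (2 ^ J * Real.log 2) ≤ η * Real.log H := by
  have hl2 : 0 < Real.log 2 := Real.log_pos (by norm_num)
  have hH0 : (0 : ℝ) < H := lt_of_lt_of_le one_pos hH1
  set q : ℕ := C0 * b + 1 with hq
  have hq1 : 1 ≤ q := by omega
  have hq0 : (0 : ℝ) < q := by exact_mod_cast hq1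
  set L : ℝ := Real.log H with hL
  have hL0 : 0 < L := lt_of_lt_of_le (by norm_num) c1
  set R : ℕ := ⌊(H : ℝ) ^ (A / 2)⌋₊ with hR
  have hRle : (R : ℝ) ≤ (H : ℝ) ^ (A / 2) := Nat.floor_le (by positivity)
  have hRlt : (H : ℝ) ^ (A / 2) < R + 1 := Nat.lt_floor_add_one _
  have hRη : (H : ℝ) ^ η ≤ R := by linarith only [hRlt, c6]
  obtain ⟨J, hJ1, hJ2⟩ := exists_J (L := L) hq1 c3
  set w : ℕ := 2 ^ 2 ^ J with hw
  have hwlog : Real.log w = 2 ^ J * Real.log 2 := by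
    rw [hw]; push_cast; rw [Real.log_pow]; push_cast; ring
  have hw0 : (0 : ℝ) < w := by rw [hw]; positivity
  have hw1 : 1 ≤ w := Nat.one_le_two_pow
  have hw1R : (1 : ℝ) ≤ w := by exact_mod_cast hw1
  have hwq : (w : ℝ) ^ q ≤ (H : ℝ) ^ η := by
    rw [← Real.exp_log hw0, ← Real.exp_nat_mul, Real.rpow_def_of_pos hH0]
    apply Real.exp_le_exp.2
    rw [hwlog]
    linarith only [hJ1]
  have hD1w : (((w ^ (C0 * b) : ℕ)) : ℝ) * w ≤ (H : ℝ) ^ η := by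
    refine le_trans (le_of_eq ?_) hwq
    rw [hq, pow_succ]
    push_cast
    ring
  refine ⟨J, ?_, ?_, hD1w, ?_, hJ1⟩
  · have h1 : (w : ℝ) ≤ (w : ℝ) ^ q := by
      calc (w : ℝ) = (w : ℝ) ^ 1 := (pow_one _).symm
        _ ≤ (w : ℝ) ^ q := pow_le_pow_right₀ hw1R hq1
    exact_mod_cast (h1.trans hwq).trans hRη
  · have hR2 : ((R : ℝ)) ^ 2 ≤ (H : ℝ) ^ A := by
      calc ((R : ℝ)) ^ 2 ≤ ((H : ℝ) ^ (A / 2)) ^ 2 := pow_le_pow_left₀ (by positivity) hRle 2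
        _ = (H : ℝ) ^ A := by
          rw [← Real.rpow_natCast, ← Real.rpow_mul hH0.le]
          congr 1; push_cast; ring
    have h1 : ((R : ℝ)) ^ 2 < (w : ℝ) ^ (r + 1) := by
      refine hR2.trans_lt ?_
      rw [← Real.exp_log hw0, ← Real.exp_nat_mul, Real.rpow_def_of_pos hH0]
      apply Real.exp_lt_exp.2
      rw [hwlog]
      have h2 : η * L < q * (2 * (2 ^ J * Real.log 2)) := by
        refine hJ2.trans_le (le_of_eq ?_)
        rw [pow_succ]; ring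
      have h3 : 0 < 2 ^ J * Real.log 2 := by positivity
      have h4 : 2 * A * q * L ≤ r * (η * L) := by
        have := mul_le_mul_of_nonneg_right hrq hL0.le
        linarith only [this]
      have h5 : (r : ℝ) * (η * L) ≤ r * (q * (2 * (2 ^ J * Real.log 2))) :=
        mul_le_mul_of_nonneg_left h2.le (Nat.cast_nonneg r)
      have h6 : 2 * q * (A * L) ≤ 2 * q * (r * (2 ^ J * Real.log 2)) := by linarith only [h4, h5]
      have h7 : A * L ≤ r * (2 ^ J * Real.log 2) := le_of_mul_le_mul_left h6 (by positivity)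
      push_cast
      linarith only [h7, h3]
    exact_mod_cast h1
  · have h2 : (0 : ℝ) ≤ ((w ^ (C0 * b) : ℕ) : ℝ) := Nat.cast_nonneg _
    nlinarith only [h2, hw1R, hD1w]

/-- the logarithms -/
lemma log_bd {A CP η X : ℝ} {r m H R : ℕ} (hA : 0 < A) (hη : 0 < η) (hCP1 : 1 ≤ CP) (hH1 : (1 : ℝ) ≤ H)
    (hR1 : 1 ≤ R) (hlogR : Real.log R ≤ A / 2 * Real.log H) (hlX : 1 ≤ Real.log X) (hmX : (m : ℝ) ≤ Real.log X)
    (hCr : (Real.log X) ^ (2 * r / η : ℝ) ≤ H)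
    (c7 : ((1 + (A / 2 * Real.log H) / Real.log 2) ^ 2 * 4 ^ r * (CP * (A / 2 * Real.log H))) ^ 2 * 4 ^ r ≤
      (H : ℝ) ^ η)
    (c8 : (2 * (1 + (r : ℝ))) ^ (2 * r) ≤ (H : ℝ) ^ η) (c9 : 12 * (CP * (A / 2 * Real.log H)) ≤ (H : ℝ) ^ η) :
    (Kc CP R r) ^ 2 * 4 ^ r * (1 + (m : ℝ) * r) ^ (2 * r) ≤ (H : ℝ) ^ (4 * η) ∧
      12 * (CP * Real.log R) ≤ (H : ℝ) ^ η := by
  have hl2 : 0 < Real.log 2 := Real.log_pos (by norm_num)
  have hH0 : (0 : ℝ) < H := lt_of_lt_of_le one_pos hH1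
  have hlogR0 : 0 ≤ Real.log R := Real.log_nonneg (by exact_mod_cast hR1)
  have hCP0 : 0 ≤ CP := le_trans zero_le_one hCP1
  have hL0 : 0 ≤ Real.log H := Real.log_nonneg hH1
  have hmr : (1 + (m : ℝ) * r) ^ (2 * r) ≤ (H : ℝ) ^ (2 * η) := by
    have h1 : 1 + (m : ℝ) * r ≤ (2 * (1 + (r : ℝ))) * Real.log X := by
      have h2 : (m : ℝ) * r ≤ Real.log X * r := mul_le_mul_of_nonneg_right hmX (Nat.cast_nonneg r)
      have h3 : 0 ≤ (r : ℝ) * Real.log X := mul_nonneg (Nat.cast_nonneg r) (le_trans zero_le_one hlX)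
      linarith only [h2, h3, hlX]
    have h2 : (1 + (m : ℝ) * r) ^ (2 * r) ≤ ((2 * (1 + (r : ℝ))) * Real.log X) ^ (2 * r) :=
      pow_le_pow_left₀ (by positivity) h1 _
    rw [mul_pow] at h2
    have hlX0 : 0 ≤ Real.log X := le_trans zero_le_one hlX
    have h3 : (Real.log X) ^ (2 * r) ≤ (H : ℝ) ^ η := by
      calc (Real.log X) ^ (2 * r) = ((Real.log X) ^ (2 * r / η : ℝ)) ^ η := by
            rw [← Real.rpow_mul hlX0, ← Real.rpow_natCast]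
            congr 1
            push_cast
            field_simp
        _ ≤ (H : ℝ) ^ η := Real.rpow_le_rpow (Real.rpow_nonneg hlX0 _) hCr hη.le
    have h5 : (0 : ℝ) ≤ (Real.log X) ^ (2 * r) := pow_nonneg hlX0 _
    calc (1 + (m : ℝ) * r) ^ (2 * r) ≤ (2 * (1 + (r : ℝ))) ^ (2 * r) * Real.log X ^ (2 * r) := h2
      _ ≤ (H : ℝ) ^ η * (H : ℝ) ^ η := mul_le_mul c8 h3 h5 (by positivity)
      _ = (H : ℝ) ^ (2 * η) := by rw [← Real.rpow_add hH0]; congr 1; ring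
  have hKc : (Kc CP R r) ^ 2 * 4 ^ r ≤ (H : ℝ) ^ η := by
    refine le_trans ?_ c7
    unfold Kc
    have h1 : Real.log R / Real.log 2 ≤ A / 2 * Real.log H / Real.log 2 := by gcongr
    gcongr
  refine ⟨?_, ?_⟩
  · calc (Kc CP R r) ^ 2 * 4 ^ r * (1 + (m : ℝ) * r) ^ (2 * r) ≤ (H : ℝ) ^ η * (H : ℝ) ^ (2 * η) :=
          mul_le_mul hKc hmr (by positivity) (by positivity)
      _ = (H : ℝ) ^ (3 * η) := by rw [← Real.rpow_add hH0]; congr 1; ring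
      _ ≤ (H : ℝ) ^ (4 * η) := Real.rpow_le_rpow_of_exponent_le hH1 (by linarith only [hη])
  · refine le_trans ?_ c9
    gcongr

/-- **the engine**, for moduli divisible by the small primes -/
theorem eng3 (A ε : ℝ) (hA : 0 < A) (hε : 0 < ε) : ∃ (z0 : ℕ) (C c : ℝ), 1 ≤ C ∧ 0 < c ∧
    ∀ᶠ X : ℕ in atTop, ∀ (H k N0 : ℕ), (Real.log X) ^ C ≤ H → (H : ℝ) ≤ (X : ℝ) ^ c → 1 ≤ k →
      (∀ p : ℕ, p.Prime → p ≤ z0 → p ∣ k) →
      (((Icc 1 X).filter (fun n => (2 + ε) / A * ((k : ℝ) / Nat.totient k) * (H / Real.log H) <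
        (wc k H ⌊(H : ℝ) ^ (A / 2)⌋₊ (N0 + n) : ℝ))).card : ℝ) ≤ (X : ℝ) ^ (1 - 1 / (2 * A) + ε) := by
  obtain ⟨C0, hC01, hfl⟩ := FLC_exists 1
  obtain ⟨CP, hCP1, hCP⟩ := PI_le
  -- `b`
  obtain ⟨b, hbC, hb⟩ : ∃ b : ℕ, C0 ≤ b ∧ ((1 : ℝ) / 2) ^ b ≤ ε / 4 := by
    obtain ⟨b, hb⟩ := exists_pow_lt_of_lt_one (show (0 : ℝ) < ε / 4 by linarith) (show (1 / 2 : ℝ) < 1 by norm_num)
    refine ⟨max b C0, le_max_right _ _, ?_⟩
    refine le_trans ?_ hb.le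
    exact pow_le_pow_of_le_one (by norm_num) (by norm_num) (le_max_left _ _)
  -- `η`
  obtain ⟨η, hη, hη8, hηA, hηA2⟩ : ∃ η : ℝ, 0 < η ∧ 8 * η < 1 ∧ 4 * η / A ≤ ε / 2 ∧ η < A / 2 := by
    refine ⟨min (1 / 16) (min (ε * A / 8) (A / 4)), by positivity, ?_, ?_, ?_⟩
    · have := min_le_left (1 / 16 : ℝ) (min (ε * A / 8) (A / 4))
      linarith
    · have h1 := (min_le_right (1 / 16 : ℝ) (min (ε * A / 8) (A / 4))).trans (min_le_left _ _)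
      rw [div_le_iff₀ hA]
      linarith
    · have h1 := (min_le_right (1 / 16 : ℝ) (min (ε * A / 8) (A / 4))).trans (min_le_right _ _)
      linarith
  set q : ℕ := C0 * b + 1 with hq
  have hq1 : 1 ≤ q := by omega
  set r : ℕ := ⌈2 * A * q / η⌉₊ with hr
  have hrq : 2 * A * q ≤ r * η := by
    have h1 : 2 * A * q / η ≤ r := Nat.le_ceil _
    rwa [div_le_iff₀ hη] at h1
  have hevN := Cond_evN (A := A) (ε := ε) (η := η) (CP := CP) q r hA hε hCP1 hη hη8 hηA2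
  -- the constants
  have hC1 : 1 ≤ max 1 (2 * r / η) := le_max_left _ _
  have hCr : 2 * r / η ≤ max 1 (2 * r / η) := le_max_right _ _
  refine ⟨C0, max 1 (2 * r / η), ε / 4, hC1, by linarith only [hε], ?_⟩
  generalize max 1 (2 * r / η) = C at hC1 hCr
  have hX1 := (Real.tendsto_log_atTop.comp tendsto_natCast_atTop_atTop).eventually_ge_atTop (1 : ℝ)
  filter_upwards [hevN, hX1, eventually_ge_atTop 1] with X hX hlX hX1 H k N0 hHC hHc hk hkz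
  have hlX : 1 ≤ Real.log X := hlX
  have hXR : (1 : ℝ) ≤ X := by exact_mod_cast hX1
  have hX0 : (0 : ℝ) < X := lt_of_lt_of_le one_pos hXR
  have hHlog : (Real.log X) ^ (1 : ℝ) ≤ H :=
    (Real.rpow_le_rpow_of_exponent_le hlX hC1).trans hHC
  obtain ⟨c1, c2, c3, c4, c5, c6, c7, c8, c9⟩ := hX H hHlog
  have hH1 : (1 : ℝ) ≤ H := by rw [Real.rpow_one] at hHlog; exact hlX.trans hHlog
  have hH0 : (0 : ℝ) < H := lt_of_lt_of_le one_pos hH1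
  have hH1' : (1 : ℝ) < H := by
    by_contra h
    have h2 : (H : ℝ) = 1 := le_antisymm (not_lt.1 h) hH1
    rw [h2, Real.log_one] at c1
    norm_num at c1
  have hL0 : 0 < Real.log H := lt_of_lt_of_le (by norm_num) c1
  obtain ⟨J, hwR, hRw, hD1w, hD1H, hJ1⟩ := exists_par (C0 := C0) (b := b) (r := r) hA hη hrq hH1 c1 c3 c6
  have hRle : ((⌊(H : ℝ) ^ (A / 2)⌋₊ : ℕ) : ℝ) ≤ (H : ℝ) ^ (A / 2) := Nat.floor_le (by positivity)
  have hRlt : (H : ℝ) ^ (A / 2) < ((⌊(H : ℝ) ^ (A / 2)⌋₊ : ℕ) : ℝ) + 1 := Nat.lt_floor_add_one _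
  generalize ⌊(H : ℝ) ^ (A / 2)⌋₊ = R at hwR hRw hRle hRlt
  have hR1 : 1 ≤ R := le_trans Nat.one_le_two_pow hwR
  have hR0 : (0 : ℝ) < R := by exact_mod_cast hR1
  have hR2 : ((R : ℝ)) ^ 2 ≤ (H : ℝ) ^ A := by
    calc ((R : ℝ)) ^ 2 ≤ ((H : ℝ) ^ (A / 2)) ^ 2 := pow_le_pow_left₀ (by positivity) hRle 2
      _ = (H : ℝ) ^ A := by
        rw [← Real.rpow_natCast, ← Real.rpow_mul hH0.le]
        congr 1; push_cast; ring
  have hlogR : Real.log R ≤ A / 2 * Real.log H := by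
    have h1 := Real.log_le_log hR0 hRle
    rwa [Real.log_rpow hH0] at h1
  have hlogR1 : A / 2 * Real.log H ≤ Real.log ((R : ℝ) + 1) := by
    have h1 := Real.log_le_log (by positivity) hRlt.le
    rwa [Real.log_rpow hH0] at h1
  -- `m`
  have h2AL : 0 < 2 * A * Real.log H := by positivity
  obtain ⟨m, hmle, hmlt⟩ : ∃ m : ℕ, 2 * A * m * Real.log H ≤ Real.log X ∧
      Real.log X < 2 * A * (m + 1) * Real.log H := by
    refine ⟨⌊Real.log X / (2 * A * Real.log H)⌋₊, ?_, ?_⟩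
    · have h1 : ((⌊Real.log X / (2 * A * Real.log H)⌋₊ : ℕ) : ℝ) ≤ Real.log X / (2 * A * Real.log H) :=
        Nat.floor_le (by positivity)
      rw [le_div_iff₀ h2AL] at h1
      linarith only [h1]
    · have h1 : Real.log X / (2 * A * Real.log H) < ((⌊Real.log X / (2 * A * Real.log H)⌋₊ : ℕ) : ℝ) + 1 :=
        Nat.lt_floor_add_one _
      rw [div_lt_iff₀ h2AL] at h1
      linarith only [h1]
  have hmX : (m : ℝ) ≤ Real.log X := by
    have h1 : (m : ℝ) * 1 ≤ m * (2 * A * Real.log H) := mul_le_mul_of_nonneg_left c2 (Nat.cast_nonneg m)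
    linarith only [h1, hmle]
  have hCr2 : (Real.log X) ^ (2 * r / η : ℝ) ≤ H :=
    (Real.rpow_le_rpow_of_exponent_le hlX hCr).trans hHC
  obtain ⟨hKm, hCPR⟩ := log_bd (R := R) hA hη hCP1 hH1 hR1 hlogR hlX hmX hCr2 c7 c8 c9
  have hHX : Real.log H ≤ ε / 4 * Real.log X := by
    have h1 := Real.log_le_log hH0 hHc
    rwa [Real.log_rpow hX0] at h1
  -- the count
  have hcount := eng2 (C0 := C0) hfl hCP1 hCP (b := b) (J := J) (z0 := C0) (k := k) (R := R) (r := r) (m := m)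
    (H := H) (X := X) (N0 := N0) (τ := (H : ℝ) ^ (1 - 2 * η)) hbC le_rfl hk hkz hwR hRw (by positivity)
  have hfin := final_count (X := X) (H := H) (R := R) (r := r) (m := m) (D1 := (2 ^ 2 ^ J) ^ (C0 * b))
    (A := A) (η := η) (CP := CP) (c := ε / 4) (τ := (H : ℝ) ^ (1 - 2 * η)) hH1' hX1 hA hη hη8 hCP1 hR1 hD1H
    hR2 hmle hmlt hKm hCPR rfl hHX
  have hexp : (X : ℝ) ^ (1 - 1 / (2 * A) + (4 * η / A + 2 * (ε / 4))) ≤ (X : ℝ) ^ (1 - 1 / (2 * A) + ε) := by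
    apply Real.rpow_le_rpow_of_exponent_le hXR
    linarith only [hηA]
  refine le_trans ?_ ((hcount.trans hfin).trans hexp)
  have hgb := gb_le (C0 := C0) (b := b) (J := J) (k := k) (R := R) (q := q) hA hε hη hη8 hk hb hq1 hH0 c1 c4 c5 hJ1
    hD1w hD1H hlogR1
  have hcard : ((Icc 1 X).filter (fun n => (2 + ε) / A * ((k : ℝ) / Nat.totient k) * (H / Real.log H) <
        (wc k H R (N0 + n) : ℝ))).card ≤
      ((Icc 1 X).filter (fun n => gb C0 b J k R H ((H : ℝ) ^ (1 - 2 * η)) < (wc k H R (N0 + n) : ℝ))).card := by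
    apply card_le_card
    intro n hn
    rw [mem_filter] at hn ⊢
    exact ⟨hn.1, hgb.trans_lt hn.2⟩
  exact_mod_cast hcard

end Pool.Agent.H537.EG
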