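import Pool.Agent.H537.EG.Eng3

/-! The engine for all moduli. -/

set_option autoImplicit false
set_option maxHeartbeats 4000000

namespace Pool.Agent.H537.EG
open Finset Filter

/-- the product of the primes `≤ z` not dividing `k` -/
def Q0 (k z : ℕ) : ℕ := ∏ p ∈ PS k 0 z, p

lemma Q0_pos (k z : ℕ) : 0 < Q0 k z := prod_pos fun p hp => (mem_PS.1 hp).1.pos

lemma Q0_le (k z : ℕ) : Q0 k z ≤ Q0 1 z := by
  unfold Q0
  apply Nat.le_of_dvd (prod_pos fun p hp => (mem_PS.1 hp).1.pos)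
  apply prod_dvd_prod_of_subset
  intro p hp
  rw [mem_PS] at hp ⊢
  refine ⟨hp.1, hp.2.1, hp.2.2.1, ?_⟩
  intro h
  exact hp.1.one_lt.ne' (Nat.dvd_one.1 h)

lemma Q0_cop (k z : ℕ) : k.Coprime (Q0 k z) := by
  apply Nat.Coprime.prod_right
  intro p hp
  rw [mem_PS] at hp
  exact ((Nat.Prime.coprime_iff_not_dvd hp.1).2 hp.2.2.2).symm

lemma Q0_dvd {k z p : ℕ} (hp : p.Prime) (hpz : p ≤ z) : p ∣ k * Q0 k z := by
  by_cases h : p ∣ k
  · exact Dvd.dvd.mul_right h _
  · exact Dvd.dvd.mul_left (dvd_prod_of_mem (fun p => p) (mem_PS.2 ⟨hp, hp.pos, hpz, h⟩)) k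

lemma card_cop_le (k Q n : ℕ) (hQ : 0 < Q) (hk : k.Coprime Q) :
    ((range Q).filter (fun a => (n + k * a).Coprime Q)).card ≤ Nat.totient Q := by
  rw [Nat.totient_eq_card_coprime]
  apply card_le_card_of_injOn (fun a => (n + k * a) % Q)
  · intro a ha
    rw [mem_coe, mem_filter, mem_range] at ha
    rw [mem_coe, mem_filter, mem_range]
    refine ⟨Nat.mod_lt _ hQ, ?_⟩
    rw [Nat.Coprime, Nat.gcd_comm, ← Nat.gcd_rec, Nat.gcd_comm]
    exact ha.2
  · intro a ha b hb hab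
    rw [mem_coe, mem_filter, mem_range] at ha hb
    have h1 : n + k * a ≡ n + k * b [MOD Q] := hab
    have h2 : k * a ≡ k * b [MOD Q] := Nat.ModEq.add_left_cancel' n h1
    have h3 : a ≡ b [MOD Q] := Nat.ModEq.cancel_left_of_coprime hk.symm h2
    rw [Nat.ModEq, Nat.mod_eq_of_lt ha.1, Nat.mod_eq_of_lt hb.1] at h3
    exact h3

/-- splitting a window into windows of a multiple of the modulus -/
lemma wc_split {k Q H R R' n z : ℕ} (hQ : 0 < Q) (hH : 1 ≤ H) (hRR : R' ≤ R) (hzR : z ≤ R)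
    (hQz : ∀ p : ℕ, p.Prime → p ∣ Q → p ≤ z) :
    wc k H R n ≤ ∑ a ∈ (range Q).filter (fun a => (n + k * a).Coprime Q),
      wc (k * Q) ((H - 1) / Q + 1) R' (n + k * a) := by
  unfold wc
  rw [← card_sigma]
  apply card_le_card_of_injOn (fun h => (⟨h % Q, h / Q⟩ : Σ _ : ℕ, ℕ))
  · intro h hh
    rw [mem_coe, mem_filter, mem_range] at hh
    rw [mem_coe, mem_sigma, mem_filter, mem_range, mem_filter, mem_range]
    have e1 : n + k * (h % Q) + k * Q * (h / Q) = n + k * h := by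
      have := Nat.mod_add_div h Q
      calc n + k * (h % Q) + k * Q * (h / Q) = n + k * (h % Q + Q * (h / Q)) := by ring
        _ = n + k * h := by rw [this]
    have hcop : (n + k * h).Coprime Q := by
      rw [Nat.Prime.coprime_iff_not_dvd hh.2.1]
      intro hd
      have := hQz _ hh.2.1 hd
      omega
    refine ⟨⟨Nat.mod_lt _ hQ, ?_⟩, ?_, ?_⟩
    · rw [← e1] at hcop
      have h2 : (n + k * (h % Q) + k * (h / Q) * Q).Coprime Q := by
        convert hcop using 2; ring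
      exact (Nat.coprime_add_mul_right_left _ _ _).1 h2
    · have : h / Q ≤ (H - 1) / Q := Nat.div_le_div_right (by omega)
      simp only
      omega
    · simp only
      rw [e1]
      exact ⟨hh.2.1, by omega⟩
  · intro h _ h' _ heq
    simp only [Sigma.mk.injEq, heq_eq_eq] at heq
    rw [← Nat.mod_add_div h Q, ← Nat.mod_add_div h' Q, heq.1, heq.2]

/-- an elementary inequality -/
lemma ev_fin (ε Qm : ℝ) (hε : 0 < ε) : ∀ᶠ h : ℝ in atTop,
    ∀ Q : ℝ, 1 ≤ Q → Q ≤ Qm → 0 < Real.log (h / Q) ∧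
      (2 + ε / 2) * ((h + Q) / Real.log (h / Q)) ≤ (2 + ε) * (h / Real.log h) := by
  set δ : ℝ := ε / (8 + 3 * ε) with hδ
  have hδ0 : 0 < δ := by positivity
  have hδ1 : δ < 1 := by rw [hδ, div_lt_one (by positivity)]; linarith
  have hδ2 : (2 + ε / 2) * (1 + δ) ≤ (2 + ε) * (1 - δ) := by
    have : δ * (4 + 3 * ε / 2) = ε / 2 := by rw [hδ]; field_simp; ring
    linarith
  have t1 := eventually_ge_atTop (Qm / δ)
  have t2 := Real.tendsto_log_atTop.eventually_ge_atTop (Real.log Qm / δ)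
  have t3 := Real.tendsto_log_atTop.eventually_ge_atTop 1
  filter_upwards [t1, t2, t3, eventually_ge_atTop 1] with h t1 t2 t3 h1 Q hQ1 hQm
  rw [div_le_iff₀ hδ0] at t1 t2
  have hh0 : 0 < h := by linarith
  have hlQ : Real.log Q ≤ Real.log Qm := Real.log_le_log (by linarith) hQm
  have e1 : Real.log (h / Q) = Real.log h - Real.log Q := Real.log_div (by linarith) (by linarith)
  have e2 : (1 - δ) * Real.log h ≤ Real.log (h / Q) := by rw [e1]; linarith
  have e3 : 0 < (1 - δ) * Real.log h := by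
    apply mul_pos <;> linarith
  refine ⟨by linarith, ?_⟩
  have e4 : h + Q ≤ (1 + δ) * h := by linarith
  have hlog : 0 < Real.log h := by linarith
  calc (2 + ε / 2) * ((h + Q) / Real.log (h / Q)) ≤ (2 + ε / 2) * ((1 + δ) * h / ((1 - δ) * Real.log h)) := by
        gcongr
    _ = ((2 + ε / 2) * (1 + δ)) / (1 - δ) * (h / Real.log h) := by
        have : (1 - δ) ≠ 0 := by linarith
        field_simp
    _ ≤ (2 + ε) * (h / Real.log h) := by
        apply mul_le_mul_of_nonneg_right _ (by positivity)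
        rw [div_le_iff₀ (by linarith)]
        exact hδ2

/-- **the engine** -/
theorem eng4 (A ε : ℝ) (hA : 0 < A) (hε : 0 < ε) : ∃ (C c : ℝ), 1 ≤ C ∧ 0 < c ∧
    ∀ᶠ X : ℕ in atTop, ∀ (H k N0 : ℕ), (Real.log X) ^ C ≤ H → (H : ℝ) ≤ (X : ℝ) ^ c → 1 ≤ k →
      (((Icc 1 X).filter (fun n => (2 + ε) / A * ((k : ℝ) / Nat.totient k) * (H / Real.log H) <
        (wc k H ⌊(H : ℝ) ^ (A / 2)⌋₊ (N0 + n) : ℝ))).card : ℝ) ≤ (X : ℝ) ^ (1 - 1 / (2 * A) + ε) := by
  obtain ⟨z0, C, c, hC, hc, hev⟩ := eng3 A (ε / 2) hA (by linarith)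
  set Qm : ℕ := Q0 1 z0 with hQm
  have hQm1 : 1 ≤ Qm := Q0_pos 1 z0
  have hQmR : (1 : ℝ) ≤ Qm := by exact_mod_cast hQm1
  refine ⟨C + 1, c, by linarith, hc, ?_⟩
  have hlogX : ∀ x : ℝ, ∀ᶠ X : ℕ in atTop, x ≤ Real.log X := fun x =>
    (Real.tendsto_log_atTop.comp tendsto_natCast_atTop_atTop).eventually_ge_atTop x
  obtain ⟨h1, hh1⟩ := eventually_atTop.1 (ev_fin ε Qm hε)
  -- `z0 ≤ ⌊H ^ (A / 2)⌋`
  have hz : ∀ᶠ h : ℝ in atTop, (z0 : ℝ) ≤ h ^ (A / 2) :=
    (tendsto_rpow_atTop (by linarith : 0 < A / 2)).eventually_ge_atTop _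
  obtain ⟨h2, hh2⟩ := eventually_atTop.1 hz
  have hXε : ∀ᶠ X : ℕ in atTop, (Qm : ℝ) ≤ (X : ℝ) ^ (ε / 2) :=
    ((tendsto_rpow_atTop (by linarith : 0 < ε / 2)).comp tendsto_natCast_atTop_atTop).eventually_ge_atTop _
  filter_upwards [hev, hlogX 1, hlogX Qm, hlogX h1, hlogX h2, hXε, eventually_ge_atTop 1] with X hX l1 lQ lh1 lh2
    hXε hX1 H k N0 hHC hHc hk
  have hXR : (1 : ℝ) ≤ X := by exact_mod_cast hX1
  have hHlog : Real.log X ≤ H := by
    have h3 : (Real.log X) ^ (1 : ℝ) ≤ H :=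
      (Real.rpow_le_rpow_of_exponent_le l1 (by linarith : (1 : ℝ) ≤ C + 1)).trans hHC
    rwa [Real.rpow_one] at h3
  have hH1R : (1 : ℝ) ≤ H := l1.trans hHlog
  have hH1 : 1 ≤ H := by exact_mod_cast hH1R
  have hH0 : (0 : ℝ) < H := by linarith
  set Q : ℕ := Q0 k z0 with hQ
  have hQpos : 0 < Q := Q0_pos k z0
  have hQ1R : (1 : ℝ) ≤ Q := by exact_mod_cast hQpos
  have hQle : Q ≤ Qm := Q0_le k z0
  have hQleR : (Q : ℝ) ≤ Qm := by exact_mod_cast hQle
  have hkQ : k.Coprime Q := Q0_cop k z0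
  set H' : ℕ := (H - 1) / Q + 1 with hH'
  have hQH : Q * H' ≤ H + Q := by
    have h3 : Q * ((H - 1) / Q) ≤ H - 1 := Nat.mul_div_le (H - 1) Q
    have h4 : Q * H' = Q * ((H - 1) / Q) + Q := by rw [hH']; ring
    rw [h4]
    have h5 : Q * ((H - 1) / Q) ≤ H := h3.trans (Nat.sub_le _ _)
    exact Nat.add_le_add_right h5 Q
  have hH'ge : H ≤ Q * H' := by
    have h3 : H - 1 < Q * H' := Nat.lt_mul_div_succ (H - 1) hQpos
    generalize Q * H' = t at h3 ⊢
    omega
  have hH'le : H' ≤ H := by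
    have h3 : (H - 1) / Q ≤ H - 1 := Nat.div_le_self _ _
    omega
  have hH'R : (H : ℝ) / Q ≤ H' := by
    rw [div_le_iff₀ (by linarith)]
    have : (H : ℝ) ≤ Q * H' := by exact_mod_cast hH'ge
    linarith
  have hH'1 : (1 : ℝ) ≤ H' := by
    have : 1 ≤ H' := Nat.succ_pos _
    exact_mod_cast this
  have hH'C : (Real.log X) ^ C ≤ H' := by
    refine le_trans ?_ hH'R
    rw [le_div_iff₀ (by linarith)]
    calc (Real.log X) ^ C * Q ≤ (Real.log X) ^ C * Real.log X := by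
          apply mul_le_mul_of_nonneg_left (hQleR.trans lQ)
          exact Real.rpow_nonneg (by linarith) _
      _ = (Real.log X) ^ (C + 1) := by
          rw [Real.rpow_add (by linarith), Real.rpow_one]
      _ ≤ H := hHC
  have hH'c : (H' : ℝ) ≤ (X : ℝ) ^ c := le_trans (by exact_mod_cast hH'le) hHc
  have hK1 : 1 ≤ k * Q := Nat.mul_pos hk hQpos
  have hKz : ∀ p : ℕ, p.Prime → p ≤ z0 → p ∣ k * Q := fun p hp hpz => Q0_dvd hp hpz
  set R : ℕ := ⌊(H : ℝ) ^ (A / 2)⌋₊ with hR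
  set R' : ℕ := ⌊(H' : ℝ) ^ (A / 2)⌋₊ with hR'
  have hRR : R' ≤ R := by
    apply Nat.floor_le_floor
    apply Real.rpow_le_rpow (by positivity) (by exact_mod_cast hH'le) (by linarith)
  have hzR : z0 ≤ R := Nat.le_floor (hh2 H (lh2.trans hHlog))
  have hQz : ∀ p : ℕ, p.Prime → p ∣ Q → p ≤ z0 := by
    intro p hp hpd
    obtain ⟨q, hq, hpq⟩ := (Prime.dvd_finsetProd_iff hp.prime _).1 hpd
    have hq1 := mem_PS.1 hq
    rw [(Nat.prime_dvd_prime_iff_eq hp hq1.1).1 hpq]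
    exact hq1.2.2.1
  set κ : ℝ := (k : ℝ) / Nat.totient k with hκ
  have hκ0 : 0 ≤ κ := by positivity
  -- the exceptional sets
  have hsub : (Icc 1 X).filter (fun n => (2 + ε) / A * κ * (H / Real.log H) < (wc k H R (N0 + n) : ℝ)) ⊆
      (range Q).biUnion (fun a => (Icc 1 X).filter (fun n =>
        (2 + ε / 2) / A * (((k * Q : ℕ) : ℝ) / Nat.totient (k * Q)) * (H' / Real.log H') <
          (wc (k * Q) H' R' ((N0 + k * a) + n) : ℝ))) := by
    intro n hn
    rw [mem_filter] at hn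
    by_contra hcon
    have hgood : ∀ a ∈ range Q, (wc (k * Q) H' R' (N0 + n + k * a) : ℝ) ≤
        (2 + ε / 2) / A * (((k * Q : ℕ) : ℝ) / Nat.totient (k * Q)) * (H' / Real.log H') := by
      intro a ha
      by_contra h3
      push Not at h3
      apply hcon
      rw [mem_biUnion]
      refine ⟨a, ha, ?_⟩
      rw [mem_filter]
      refine ⟨hn.1, ?_⟩
      have e : N0 + k * a + n = N0 + n + k * a := by ring
      rw [e]
      exact h3
    have h4 := wc_split (k := k) (Q := Q) (H := H) (R := R) (R' := R') (n := N0 + n) (z := z0) hQpos hH1 hRR hzR hQz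
    have h5 : (wc k H R (N0 + n) : ℝ) ≤ (Nat.totient Q : ℝ) *
        ((2 + ε / 2) / A * (((k * Q : ℕ) : ℝ) / Nat.totient (k * Q)) * (H' / Real.log H')) := by
      have hlogH' : 0 ≤ Real.log H' := Real.log_nonneg hH'1
      calc (wc k H R (N0 + n) : ℝ) ≤ ((∑ a ∈ (range Q).filter (fun a => (N0 + n + k * a).Coprime Q),
            wc (k * Q) ((H - 1) / Q + 1) R' (N0 + n + k * a) : ℕ) : ℝ) := by exact_mod_cast h4
        _ = ∑ a ∈ (range Q).filter (fun a => (N0 + n + k * a).Coprime Q),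
            (wc (k * Q) H' R' (N0 + n + k * a) : ℝ) := by push_cast; rfl
        _ ≤ ∑ a ∈ (range Q).filter (fun a => (N0 + n + k * a).Coprime Q),
            ((2 + ε / 2) / A * (((k * Q : ℕ) : ℝ) / Nat.totient (k * Q)) * (H' / Real.log H')) := by
            apply sum_le_sum
            intro a ha
            exact hgood a (mem_filter.1 ha).1
        _ = (((range Q).filter (fun a => (N0 + n + k * a).Coprime Q)).card : ℝ) *
            ((2 + ε / 2) / A * (((k * Q : ℕ) : ℝ) / Nat.totient (k * Q)) * (H' / Real.log H')) := by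
            rw [sum_const, nsmul_eq_mul]
        _ ≤ (Nat.totient Q : ℝ) *
            ((2 + ε / 2) / A * (((k * Q : ℕ) : ℝ) / Nat.totient (k * Q)) * (H' / Real.log H')) := by
            apply mul_le_mul_of_nonneg_right _ (by positivity)
            exact_mod_cast card_cop_le k Q (N0 + n) hQpos hkQ
    have hφQ : (0 : ℝ) < Nat.totient Q := by exact_mod_cast Nat.totient_pos.2 hQpos
    have hφk : (0 : ℝ) < Nat.totient k := by exact_mod_cast Nat.totient_pos.2 hk
    have h6 : (Nat.totient Q : ℝ) *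
        ((2 + ε / 2) / A * (((k * Q : ℕ) : ℝ) / Nat.totient (k * Q)) * (H' / Real.log H')) =
        κ / A * ((2 + ε / 2) * ((Q * H') / Real.log H')) := by
      rw [Nat.totient_mul hkQ, hκ]
      push_cast
      field_simp
    rw [h6] at h5
    obtain ⟨g1, g2⟩ := hh1 H (lh1.trans hHlog) Q hQ1R hQleR
    have h7 : (2 + ε / 2) * ((Q * H') / Real.log H') ≤ (2 + ε) * (H / Real.log H) := by
      refine le_trans ?_ g2
      have h8 : Real.log (H / Q) ≤ Real.log H' := Real.log_le_log (by positivity) hH'R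
      have h9 : (Q : ℝ) * H' ≤ H + Q := by exact_mod_cast hQH
      gcongr
    have h10 : κ / A * ((2 + ε / 2) * ((Q * H') / Real.log H')) ≤ (2 + ε) / A * κ * (H / Real.log H) := by
      calc κ / A * ((2 + ε / 2) * ((Q * H') / Real.log H')) ≤ κ / A * ((2 + ε) * (H / Real.log H)) :=
            mul_le_mul_of_nonneg_left h7 (by positivity)
        _ = _ := by ring
    linarith [hn.2]
  have hcount : (((Icc 1 X).filter (fun n => (2 + ε) / A * κ * (H / Real.log H) <
      (wc k H R (N0 + n) : ℝ))).card : ℝ) ≤ Q * (X : ℝ) ^ (1 - 1 / (2 * A) + ε / 2) := by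
    calc (((Icc 1 X).filter (fun n => (2 + ε) / A * κ * (H / Real.log H) < (wc k H R (N0 + n) : ℝ))).card : ℝ)
        ≤ (((range Q).biUnion (fun a => (Icc 1 X).filter (fun n =>
        (2 + ε / 2) / A * (((k * Q : ℕ) : ℝ) / Nat.totient (k * Q)) * (H' / Real.log H') <
          (wc (k * Q) H' R' ((N0 + k * a) + n) : ℝ)))).card : ℝ) := by
          exact_mod_cast card_le_card hsub
      _ ≤ ∑ a ∈ range Q, (((Icc 1 X).filter (fun n =>
        (2 + ε / 2) / A * (((k * Q : ℕ) : ℝ) / Nat.totient (k * Q)) * (H' / Real.log H') <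
          (wc (k * Q) H' R' ((N0 + k * a) + n) : ℝ))).card : ℝ) := by
          exact_mod_cast card_biUnion_le
      _ ≤ ∑ a ∈ range Q, (X : ℝ) ^ (1 - 1 / (2 * A) + ε / 2) :=
          sum_le_sum fun a _ => hX H' (k * Q) (N0 + k * a) hH'C hH'c hK1 hKz
      _ = Q * (X : ℝ) ^ (1 - 1 / (2 * A) + ε / 2) := by
          rw [sum_const, card_range, nsmul_eq_mul]
  refine hcount.trans ?_
  calc (Q : ℝ) * (X : ℝ) ^ (1 - 1 / (2 * A) + ε / 2) ≤ (X : ℝ) ^ (ε / 2) * (X : ℝ) ^ (1 - 1 / (2 * A) + ε / 2) :=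
        mul_le_mul_of_nonneg_right (hQleR.trans hXε) (by positivity)
    _ = (X : ℝ) ^ (1 - 1 / (2 * A) + ε) := by
        rw [← Real.rpow_add (by linarith)]
        congr 1
        ring

end Pool.Agent.H537.EG
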