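import Mathlib
import Pool.Graph.R_pool_sql_team_seeded_b0a926ef.R502.BL.Fou
import Pool.Graph.R_seed8.Helper112.LS

/-! The dual large sieve for sums of periodic functions with small periods. -/

set_option autoImplicit false

namespace Pool.Agent.H537.EG
open Finset
open Pool.Agent.H807R2.Dav (ee norm_ee ee_add ee_zero ee_int ee_add_int ee_pow)
open Pool.Agent.R502.BL (orth parsevalF star_ee ee_ne_one)

lemma ee_conv (x : ℝ) : Pool.Agent.Helper112.ee x = ee x := by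
  unfold Pool.Agent.Helper112.ee ee; congr 1; ring

/-- shift of a sum over a period -/
lemma sum_shift {β : Type*} [AddCommMonoid β] (M : ℕ) (g : ℕ → β) (hg : ∀ x, g (x + M) = g x)
    (t : ℕ) : ∑ x ∈ range M, g (x + t) = ∑ x ∈ range M, g x := by
  induction t with
  | zero => simp
  | succ t ih =>
    rw [← ih]
    rcases Nat.eq_zero_or_pos M with h0 | h0
    · subst h0; simp
    obtain ⟨M', rfl⟩ : ∃ M', M = M' + 1 := ⟨M - 1, by omega⟩
    rw [sum_range_succ, sum_range_succ' (fun x => g (x + t))]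
    congr 1
    · apply sum_congr rfl
      intro x _
      congr 1; ring
    · have := hg (0 + t)
      rw [← this]; congr 1; ring

/-- Fourier coefficient (unnormalised) modulo `M` -/
noncomputable def hat (M : ℕ) (F : ℕ → ℝ) (r : ℕ) : ℂ :=
  ∑ n ∈ range M, (F n : ℂ) * ee ((n : ℝ) * ((r : ℝ) / M))

lemma hat_inv {M : ℕ} (hM : 1 ≤ M) (F : ℕ → ℝ) (hF : ∀ x, F (x + M) = F x) (n : ℕ) :
    ∑ r ∈ range M, hat M F r * ee ((n : ℝ) * (-((r : ℝ) / M))) = (M : ℂ) * F n := by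
  unfold hat
  have e1 : ∀ r ∈ range M, (∑ x ∈ range M, (F x : ℂ) * ee ((x : ℝ) * ((r : ℝ) / M))) *
      ee ((n : ℝ) * (-((r : ℝ) / M))) =
      ∑ x ∈ range M, (F x : ℂ) * ee ((((x : ℤ) - (n : ℤ) : ℤ) : ℝ) * ((r : ℝ) / M)) := by
    intro r _
    rw [sum_mul]
    apply sum_congr rfl
    intro x _
    rw [mul_assoc, ← ee_add]
    congr 2
    push_cast; ring
  rw [sum_congr rfl e1, sum_comm]
  have e2 : ∀ x ∈ range M, ∑ r ∈ range M, (F x : ℂ) *
      ee ((((x : ℤ) - (n : ℤ) : ℤ) : ℝ) * ((r : ℝ) / M)) =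
      if x = n % M then (M : ℂ) * F n else 0 := by
    intro x hx
    rw [mem_range] at hx
    rw [← mul_sum, orth hM]
    by_cases hxn : x = n % M
    · rw [if_pos hxn, if_pos, mul_comm]
      · congr 2
        have : Function.Periodic F M := hF
        rw [hxn, this.map_mod_nat]
      · rw [hxn]
        have : (M : ℤ) ∣ (n : ℤ) - ((n % M : ℕ) : ℤ) := by
          rw [Int.natCast_mod]
          exact Int.dvd_self_sub_emod
        exact (dvd_sub_comm).1 this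
    · rw [if_neg hxn, if_neg, mul_zero]
      intro h
      apply hxn
      have h1 : (x : ℤ) ≡ n [ZMOD M] := (Int.modEq_iff_dvd.2 ((dvd_sub_comm).1 h))
      have h2 : x ≡ n [MOD M] := (Int.natCast_modEq_iff).1 h1
      rw [← h2]
      exact (Nat.mod_eq_of_lt hx).symm
  rw [sum_congr rfl e2, sum_ite_eq' , if_pos]
  rw [mem_range]
  exact Nat.mod_lt _ (by omega)

lemma hat_zero {M q : ℕ} (hM : 1 ≤ M) (F : ℕ → ℝ) (hqM : q ∣ M) (hF : ∀ x, F (x + q) = F x)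
    (r : ℕ) (hr : ¬ M ∣ q * r) : hat M F r = 0 := by
  have hM0 : (M : ℝ) ≠ 0 := by positivity
  have hFM : ∀ x, F (x + M) = F x := by
    intro x
    obtain ⟨c, rfl⟩ := hqM
    have h : Function.Periodic F q := hF
    have := h.nat_mul c x
    rw [← this]; congr 1; push_cast; ring
  have hper : ∀ x : ℕ, (fun n : ℕ => (F n : ℂ) * ee ((n : ℝ) * ((r : ℝ) / M))) (x + M) =
      (fun n : ℕ => (F n : ℂ) * ee ((n : ℝ) * ((r : ℝ) / M))) x := by
    intro x
    simp only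
    rw [hFM]
    congr 1
    rw [← ee_add_int ((x : ℝ) * ((r : ℝ) / M)) (r : ℤ)]
    congr 1
    push_cast
    field_simp
  have h1 := sum_shift M (fun n : ℕ => (F n : ℂ) * ee ((n : ℝ) * ((r : ℝ) / M))) hper q
  have h2 : ∑ x ∈ range M, (fun n : ℕ => (F n : ℂ) * ee ((n : ℝ) * ((r : ℝ) / M))) (x + q) =
      ee (((q * r : ℕ) : ℤ) / M) * hat M F r := by
    unfold hat
    rw [mul_sum]
    apply sum_congr rfl
    intro x _
    simp only
    rw [hF, mul_left_comm, ← ee_add]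
    congr 2
    push_cast; ring
  rw [h2] at h1
  have h3 : ee (((q * r : ℕ) : ℤ) / M) ≠ 1 := by
    apply ee_ne_one hM
    intro h
    exact hr (by exact_mod_cast h)
  have h4 : (ee (((q * r : ℕ) : ℤ) / M) - 1) * hat M F r = 0 := by
    rw [sub_mul, one_mul, h1]
    unfold hat
    exact sub_self _
  rcases mul_eq_zero.1 h4 with h5 | h5
  · exact absurd (sub_eq_zero.1 h5) h3
  · exact h5

lemma sep_aux {M Q r s q q' : ℕ} (hM : 1 ≤ M) (hr : r < M) (hs : s < M) (hrs : r ≠ s)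
    (hq : 1 ≤ q ∧ q ≤ Q) (hq' : 1 ≤ q' ∧ q' ≤ Q) (h : M ∣ q * r) (h' : M ∣ q' * s) :
    Pool.Agent.Helper112.lsSep (Q ^ 2) (-((s : ℝ) / M) - -((r : ℝ) / M)) := by
  have hMR : (0 : ℝ) < M := by exact_mod_cast hM
  have hQ1 : 1 ≤ Q := hq.1.trans hq.2
  have hQR : (0 : ℝ) < ((Q ^ 2 : ℕ) : ℝ) := by exact_mod_cast (by positivity : 0 < Q ^ 2)
  set m : ℤ := (r : ℤ) - s with hm
  have e1 : (-((s : ℝ) / M) - -((r : ℝ) / M)) = (m : ℝ) / ((M : ℤ) : ℝ) := by
    rw [hm]; push_cast; field_simp; ring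
  set e := m % (M : ℤ) with he
  have he0 : 0 ≤ e := Int.emod_nonneg _ (by omega)
  have heM : e < M := Int.emod_lt_of_pos _ (by omega)
  have hene : e ≠ 0 := by
    intro h0
    have h1 : (M : ℤ) ∣ m := Int.dvd_of_emod_eq_zero h0
    have h2 := Int.eq_zero_of_abs_lt_dvd h1 (by rw [abs_lt]; constructor <;> omega)
    omega
  have hdm : (M : ℤ) ∣ (q * q' : ℤ) * m := by
    have a1 : (M : ℤ) ∣ (q : ℤ) * r := by exact_mod_cast h
    have a2 : (M : ℤ) ∣ (q' : ℤ) * s := by exact_mod_cast h'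
    have : (q * q' : ℤ) * m = q' * (q * r) - q * (q' * s) := by rw [hm]; ring
    rw [this]
    exact dvd_sub (Dvd.dvd.mul_left a1 _) (Dvd.dvd.mul_left a2 _)
  have hde : (M : ℤ) ∣ (q * q' : ℤ) * e := by
    have : (q * q' : ℤ) * e = (q * q' : ℤ) * m - M * ((q * q' : ℤ) * (m / M)) := by
      rw [he, Int.emod_def]; ring
    rw [this]
    exact dvd_sub hdm (Dvd.intro _ rfl)
  have hde' : (M : ℤ) ∣ (q * q' : ℤ) * (M - e) := by
    have : (q * q' : ℤ) * (M - e) = M * (q * q') - (q * q' : ℤ) * e := by ring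
    rw [this]
    exact dvd_sub (Dvd.intro _ rfl) hde
  have hqq : (q * q' : ℤ) ≤ ((Q ^ 2 : ℕ) : ℤ) := by
    have : q * q' ≤ Q ^ 2 := by rw [pow_two]; exact Nat.mul_le_mul hq.2 hq'.2
    exact_mod_cast this
  have hqq0 : (0 : ℤ) < q * q' := by
    have : 0 < q * q' := Nat.mul_pos hq.1 hq'.1
    exact_mod_cast this
  have l1 : (M : ℤ) ≤ ((Q ^ 2 : ℕ) : ℤ) * e := by
    have h1 : (M : ℤ) ≤ (q * q' : ℤ) * e := Int.le_of_dvd (by
      have : 0 < e := lt_of_le_of_ne he0 (Ne.symm hene)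
      positivity) hde
    exact h1.trans (mul_le_mul_of_nonneg_right hqq he0)
  have l2 : (M : ℤ) ≤ ((Q ^ 2 : ℕ) : ℤ) * (M - e) := by
    have h1 : (M : ℤ) ≤ (q * q' : ℤ) * (M - e) := Int.le_of_dvd (by
      have : 0 < (M : ℤ) - e := by omega
      positivity) hde'
    exact h1.trans (mul_le_mul_of_nonneg_right hqq (by omega))
  have e2 : Int.fract (-((s : ℝ) / M) - -((r : ℝ) / M)) = (e : ℝ) / M := by
    rw [e1]
    have := @Int.fract_div_intCast_eq_div_intCast_mod ℝ _ _ _ _ m M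
    rw [Int.cast_natCast]
    exact this
  unfold Pool.Agent.Helper112.lsSep
  rw [e2]
  have l1R : (M : ℝ) ≤ ((Q ^ 2 : ℕ) : ℝ) * e := by exact_mod_cast l1
  have l2R : (M : ℝ) ≤ ((Q ^ 2 : ℕ) : ℝ) * (M - e) := by exact_mod_cast l2
  constructor
  · rw [div_le_div_iff₀ hQR hMR]
    linarith
  · have : (e : ℝ) / M = 1 - (M - e) / M := by field_simp; ring
    rw [this]
    have : 1 / ((Q ^ 2 : ℕ) : ℝ) ≤ ((M : ℝ) - e) / M := by
      rw [div_le_div_iff₀ hQR hMR]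
      linarith
    linarith

/-- **large sieve for sums of periodic functions** -/
theorem lsp {ι : Type*} (S : Finset ι) (F : ι → ℕ → ℝ) (q : ι → ℕ) (M Q N N0 : ℕ) (hM : 1 ≤ M)
    (hQ : 1 ≤ Q) (hq : ∀ i ∈ S, 1 ≤ q i ∧ q i ≤ Q ∧ q i ∣ M)
    (hper : ∀ i ∈ S, ∀ x, F i (x + q i) = F i x) :
    ∑ n ∈ Icc 1 N, (∑ i ∈ S, F i (N0 + n)) ^ 2 ≤
      6 * ((N : ℝ) + (Q : ℝ) ^ 2) * ((∑ x ∈ range M, (∑ i ∈ S, F i x) ^ 2) / M) := by
  classical
  have hMR : (0 : ℝ) < M := by exact_mod_cast hM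
  have hM0 : (M : ℝ) ≠ 0 := hMR.ne'
  set G : ι → ℕ → ℝ := fun i n => F i (N0 + n) with hG
  have hGper : ∀ i ∈ S, ∀ x, G i (x + q i) = G i x := by
    intro i hi x
    simp only [hG]
    rw [← hper i hi (N0 + x)]
    congr 1
    ring
  have hGM : ∀ i ∈ S, ∀ x, G i (x + M) = G i x := by
    intro i hi x
    obtain ⟨c, hc⟩ := (hq i hi).2.2
    have h : Function.Periodic (G i) (q i) := hGper i hi
    have := h.nat_mul c x
    rw [← this, hc]; congr 1; push_cast; ring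
  have hFM : ∀ i ∈ S, ∀ x, F i (x + M) = F i x := by
    intro i hi x
    obtain ⟨c, hc⟩ := (hq i hi).2.2
    have h : Function.Periodic (F i) (q i) := hper i hi
    have := h.nat_mul c x
    rw [← this, hc]; congr 1; push_cast; ring
  set W : ℕ → ℝ := fun n => ∑ i ∈ S, G i n with hW
  have hWM : ∀ x, W (x + M) = W x := fun x => sum_congr rfl fun i hi => hGM i hi x
  have hsum : ∑ x ∈ range M, (∑ i ∈ S, F i x) ^ 2 = ∑ x ∈ range M, (W x) ^ 2 := by
    rw [← sum_shift M (fun x => (∑ i ∈ S, F i x) ^ 2) (by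
      intro x
      congr 1
      exact sum_congr rfl fun i hi => hFM i hi x) N0]
    apply sum_congr rfl
    intro x _
    simp only [hW, hG]
    congr 1
    apply sum_congr rfl
    intro i _
    rw [add_comm]
  rw [hsum]
  set R := (range M).filter (fun r => ∃ u : ℕ, 1 ≤ u ∧ u ≤ Q ∧ M ∣ u * r) with hR
  have hhat : ∀ r, r ∉ R → r ∈ range M → hat M W r = 0 := by
    intro r hr hrM
    have h1 : hat M W r = ∑ i ∈ S, hat M (G i) r := by
      unfold hat
      rw [sum_comm]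
      apply sum_congr rfl
      intro n _
      simp only [hW]
      rw [Complex.ofReal_sum, sum_mul]
    rw [h1]
    apply sum_eq_zero
    intro i hi
    apply hat_zero hM (G i) (hq i hi).2.2 (hGper i hi)
    intro h
    apply hr
    rw [hR, mem_filter]
    exact ⟨hrM, q i, (hq i hi).1, (hq i hi).2.1, h⟩
  have hrep : ∀ n : ℕ, (M : ℂ) * W n =
      ∑ r ∈ R, hat M W r * Pool.Agent.Helper112.ee ((n : ℝ) * (-((r : ℝ) / M))) := by
    intro n
    rw [← hat_inv hM W hWM n]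
    symm
    rw [sum_congr rfl (fun r _ => by rw [ee_conv])]
    apply sum_subset (filter_subset _ _)
    intro r h1 h2
    rw [hhat r h2 h1, zero_mul]
  have hsep : ∀ r ∈ R, ∀ s ∈ R, r ≠ s →
      Pool.Agent.Helper112.lsSep (Q ^ 2) (-((s : ℝ) / M) - -((r : ℝ) / M)) := by
    intro r hr s hs hrs
    rw [hR, mem_filter, mem_range] at hr hs
    obtain ⟨hr1, u, hu1, hu2, hu3⟩ := hr
    obtain ⟨hs1, v, hv1, hv2, hv3⟩ := hs
    exact sep_aux hM hr1 hs1 hrs ⟨hu1, hu2⟩ ⟨hv1, hv2⟩ hu3 hv3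
  have hls := Pool.Agent.Helper112.ls_dual R (fun r : ℕ => -((r : ℝ) / M)) (Q ^ 2) N
    (Nat.one_le_pow _ _ hQ) hsep (hat M W)
  have h2 : ∑ n ∈ Icc 1 N, ‖∑ r ∈ R, hat M W r *
      Pool.Agent.Helper112.ee ((n : ℝ) * (-((r : ℝ) / M)))‖ ^ 2 =
      (M : ℝ) ^ 2 * ∑ n ∈ Icc 1 N, (W n) ^ 2 := by
    rw [mul_sum]
    apply sum_congr rfl
    intro n _
    rw [← hrep n, norm_mul, mul_pow, Complex.norm_natCast, Complex.norm_real, Real.norm_eq_abs,
      sq_abs]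
  have h3 : ∑ r ∈ R, ‖hat M W r‖ ^ 2 ≤ M * ∑ n ∈ range M, (W n) ^ 2 := by
    calc ∑ r ∈ R, ‖hat M W r‖ ^ 2 ≤ ∑ r ∈ range M, ‖hat M W r‖ ^ 2 :=
          sum_le_sum_of_subset_of_nonneg (filter_subset _ _) (fun _ _ _ => by positivity)
      _ = M * ∑ n ∈ range M, ‖((W n : ℝ) : ℂ)‖ ^ 2 := parsevalF hM (fun n => ((W n : ℝ) : ℂ))
      _ = M * ∑ n ∈ range M, (W n) ^ 2 := by
          congr 1
          apply sum_congr rfl
          intro n _
          rw [Complex.norm_real, Real.norm_eq_abs, sq_abs]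
  rw [h2] at hls
  have h4 : (M : ℝ) ^ 2 * ∑ n ∈ Icc 1 N, (W n) ^ 2 ≤
      6 * ((N : ℝ) + (Q : ℝ) ^ 2) * (M * ∑ n ∈ range M, (W n) ^ 2) := by
    refine hls.trans ?_
    push_cast
    exact mul_le_mul_of_nonneg_left h3 (by positivity)
  have h5 : ∑ n ∈ Icc 1 N, (∑ i ∈ S, F i (N0 + n)) ^ 2 = ∑ n ∈ Icc 1 N, (W n) ^ 2 := rfl
  rw [h5]
  have h6 : 6 * ((N : ℝ) + (Q : ℝ) ^ 2) * ((∑ x ∈ range M, (W x) ^ 2) / M) =
      (6 * ((N : ℝ) + (Q : ℝ) ^ 2) * (M * ∑ n ∈ range M, (W n) ^ 2)) / (M : ℝ) ^ 2 := by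
    field_simp
  rw [h6, le_div_iff₀ (by positivity)]
  linarith

end Pool.Agent.H537.EG
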