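import Pool.Agent.H537.EG.Zf

/-! High moments of divisor sums in windows of arithmetic progressions. -/

set_option autoImplicit false

namespace Pool.Agent.H537.EG
open Finset

/-- the step for the prime `p` -/
def sg (P : Finset ℕ) (d p : ℕ) : ℕ := d * ∏ q ∈ P.erase p, q

lemma sg_dvd_left (P : Finset ℕ) (d p : ℕ) : d ∣ sg P d p := Dvd.intro _ rfl

lemma sg_dvd {P : Finset ℕ} {d p q : ℕ} (hq : q ∈ P) (hqp : q ≠ p) : q ∣ sg P d p := by
  unfold sg
  exact Dvd.dvd.mul_left (dvd_prod_of_mem (fun q => q) (mem_erase.2 ⟨hqp, hq⟩)) d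

lemma sg_cop {P : Finset ℕ} {d p : ℕ} (hP : ∀ p ∈ P, p.Prime) (hp : p ∈ P) (hdP : ∀ p ∈ P, d.Coprime p) :
    (sg P d p).Coprime p := by
  unfold sg
  apply Nat.Coprime.mul_left (hdP p hp)
  apply Nat.Coprime.prod_left
  intro q hq
  rw [mem_erase] at hq
  exact (Nat.coprime_primes (hP q hq.2) (hP p hp)).2 hq.1

lemma card_small (U : Finset ℕ) (r : ℕ) :
    (U.powerset.filter (fun s => s.card ≤ r)).card ≤ (1 + U.card) ^ r := by
  induction r with
  | zero =>
    rw [pow_zero]
    apply card_le_one.2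
    intro a ha b hb
    rw [mem_filter, Nat.le_zero, card_eq_zero] at ha hb
    rw [ha.2, hb.2]
  | succ r ih =>
    have hsub : U.powerset.filter (fun s => s.card ≤ r + 1) ⊆
        (U.powerset.filter (fun s => s.card ≤ r)) ∪
        ((U.powerset.filter (fun s => s.card ≤ r)) ×ˢ U).image (fun x => insert x.2 x.1) := by
      intro s hs
      rw [mem_filter, mem_powerset] at hs
      rw [mem_union]
      by_cases h : s.card ≤ r
      · left
        rw [mem_filter, mem_powerset]
        exact ⟨hs.1, h⟩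
      · right
        have hne : s.Nonempty := by
          rw [nonempty_iff_ne_empty]
          intro h0
          rw [h0] at h
          simp at h
        obtain ⟨a, ha⟩ := hne
        rw [mem_image]
        refine ⟨(s.erase a, a), ?_, insert_erase ha⟩
        rw [mem_product, mem_filter, mem_powerset]
        refine ⟨⟨(erase_subset _ _).trans hs.1, ?_⟩, hs.1 ha⟩
        simp only [card_erase_of_mem ha]
        omega
    calc (U.powerset.filter (fun s => s.card ≤ r + 1)).card
        ≤ _ := card_le_card hsub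
      _ ≤ (U.powerset.filter (fun s => s.card ≤ r)).card +
          (((U.powerset.filter (fun s => s.card ≤ r)) ×ˢ U).image (fun x => insert x.2 x.1)).card :=
          card_union_le _ _
      _ ≤ (U.powerset.filter (fun s => s.card ≤ r)).card +
          (U.powerset.filter (fun s => s.card ≤ r)).card * U.card := by
          gcongr
          refine card_image_le.trans ?_
          rw [card_product]
      _ = (U.powerset.filter (fun s => s.card ≤ r)).card * (1 + U.card) := by ring
      _ ≤ (1 + U.card) ^ r * (1 + U.card) := Nat.mul_le_mul_right _ ih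
      _ = (1 + U.card) ^ (r + 1) := by rw [pow_succ]

lemma Zf_per {P : Finset ℕ} {k H d : ℕ} {t : Finset ℕ} (ht : t ⊆ P) (n : ℕ) :
    Zf k H d t (n + d * ∏ p ∈ P, p) = Zf k H d t n := by
  apply Zf_inv (Dvd.intro _ rfl)
  intro p hp
  exact Dvd.dvd.mul_left (dvd_prod_of_mem (fun p => p) (ht hp)) d

lemma prod_mean {P : Finset ℕ} (hP : ∀ p ∈ P, p.Prime) {d k H r m : ℕ} (hd1 : 1 ≤ d)
    (hdP : ∀ p ∈ P, d.Coprime p) (hkd : k.Coprime d) (hkP : ∀ p ∈ P, k.Coprime p)
    (φ : Fin (2 * m) → Finset ℕ) (hφ : ∀ i, φ i ⊆ P ∧ (φ i).Nonempty ∧ (φ i).card ≤ r) :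
    |∑ x ∈ range (d * ∏ p ∈ P, p), ∏ i, Zf k H d (φ i) x| ≤
      if (∀ p ∈ P, (univ.filter (fun i => p ∈ φ i)).card ≠ 1) then
        ((d * ∏ p ∈ P, p : ℕ) : ℝ) * ((4 ^ r * H) ^ m / ∏ p ∈ univ.biUnion φ, (p : ℝ)) else 0 := by
  set M := d * ∏ p ∈ P, p with hM
  set G : ℕ → ℝ := fun x => ∏ i, Zf k H d (φ i) x with hG
  have hGper : ∀ x, G (x + M) = G x := by
    intro x
    simp only [hG]
    apply prod_congr rfl
    intro i _
    exact Zf_per (hφ i).1 x
  have hpR : ∀ p ∈ P, (0 : ℝ) < p := fun p hp => by exact_mod_cast (hP p hp).pos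
  split_ifs with hgood
  · -- every coordinate occurs at least twice
    have h1 := sum_SL (σ := sg P d) M P.toList G hGper
    have hprodP : (P.toList.map (fun p : ℕ => (p : ℝ))).prod = ∏ p ∈ P, (p : ℝ) :=
      Finset.prod_map_toList P (fun p : ℕ => (p : ℝ))
    rw [hprodP] at h1
    have hPpos : 0 < ∏ p ∈ P, (p : ℝ) := prod_pos hpR
    have hbd : ∀ x, |SL (sg P d) P.toList G x| ≤
        (∏ p ∈ P, (if (univ.filter (fun i => p ∈ φ i)).card = 0 then (p : ℝ) else 1)) *
          (4 ^ r * H) ^ m := by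
      intro x
      refine (SL_abs _ G x).trans ?_
      have e1 : (fun n => |G n|) = fun n => ∏ i ∈ (univ : Finset (Fin (2 * m))), |Zf k H d (φ i) n| := by
        funext n
        simp only [hG]
        rw [abs_prod]
      rw [e1]
      refine (mv (sg P d) univ φ P.toList (fun i n => |Zf k H d (φ i) n|) (fun _ _ _ => abs_nonneg _)
        ?_ ?_ x).trans ?_
      · intro i _ p hp hpi n
        rw [Zf_inv (sg_dvd_left P d p)]
        intro q hq
        exact sg_dvd ((hφ i).1 hq) (fun h => hpi (h ▸ hq))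
      · intro p hp
        exact hgood p (mem_toList.1 hp)
      · rw [Finset.prod_map_toList P]
        apply mul_le_mul_of_nonneg_left
        · have hnn : (0 : ℝ) ≤ 4 ^ r * H := by positivity
          have e2 : ((4 : ℝ) ^ r * H) ^ m = ∏ i ∈ (univ : Finset (Fin (2 * m))), √((4 : ℝ) ^ r * H) := by
            rw [prod_const, card_univ, Fintype.card_fin, pow_mul, Real.sq_sqrt hnn]
          rw [e2]
          apply prod_le_prod (fun _ _ => Real.sqrt_nonneg _)
          intro i _
          apply Real.sqrt_le_sqrt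
          simp only [sq_abs]
          have h3 := SL_Zf_sq (H := H) (σ := sg P d) (t := φ i) hd1 hkd (fun p hp => hP p ((hφ i).1 hp))
            (fun p hp => hkP p ((hφ i).1 hp)) (fun p hp => hdP p ((hφ i).1 hp)) (hφ i).2.1
            (P.toList.filter (fun p => decide (p ∈ φ i))) ((P.nodup_toList).filter _)
            (fun p hp => by simpa using (List.mem_filter.1 hp).2)
            (fun p hp => by
              have hpP : p ∈ P := mem_toList.1 (List.mem_filter.1 hp).1
              exact ⟨sg_cop hP hpP hdP, fun q hq hqp => sg_dvd ((hφ i).1 hq) hqp⟩) x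
          refine h3.trans ?_
          have : (4 : ℝ) ^ (φ i).card ≤ 4 ^ r := pow_le_pow_right₀ (by norm_num) (hφ i).2.2
          gcongr
        · apply prod_nonneg
          intro p _
          split_ifs
          · exact Nat.cast_nonneg p
          · exact zero_le_one
    have hU : univ.biUnion φ ⊆ P := by
      intro p hp
      rw [mem_biUnion] at hp
      obtain ⟨i, _, hi⟩ := hp
      exact (hφ i).1 hi
    have hUpos : 0 < ∏ p ∈ univ.biUnion φ, (p : ℝ) := prod_pos fun p hp => hpR p (hU hp)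
    have hsplit : (∏ p ∈ P, (if (univ.filter (fun i => p ∈ φ i)).card = 0 then (p : ℝ) else 1)) *
        ∏ p ∈ univ.biUnion φ, (p : ℝ) = ∏ p ∈ P, (p : ℝ) := by
      have e3 : ∏ p ∈ univ.biUnion φ, (p : ℝ) =
          ∏ p ∈ P, (if (univ.filter (fun i => p ∈ φ i)).card = 0 then (1 : ℝ) else p) := by
        rw [← prod_subset hU (f := fun p : ℕ =>
          (if (univ.filter (fun i => p ∈ φ i)).card = 0 then (1 : ℝ) else p))]
        · apply prod_congr rfl
          intro p hp
          rw [if_neg]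
          rw [mem_biUnion] at hp
          obtain ⟨i, _, hi⟩ := hp
          rw [card_eq_zero]
          intro h
          have : i ∈ univ.filter (fun i => p ∈ φ i) := mem_filter.2 ⟨mem_univ _, hi⟩
          rw [h] at this
          exact absurd this (notMem_empty _)
        · intro p _ hp
          rw [if_pos]
          rw [card_eq_zero, filter_eq_empty_iff]
          intro i _ hi
          exact hp (mem_biUnion.2 ⟨i, mem_univ _, hi⟩)
      rw [e3, ← prod_mul_distrib]
      apply prod_congr rfl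
      intro p _
      split_ifs
      · rw [mul_one]
      · rw [one_mul]
    have h2 : (∏ p ∈ P, (p : ℝ)) * |∑ x ∈ range M, G x| ≤
        M * ((∏ p ∈ P, (if (univ.filter (fun i => p ∈ φ i)).card = 0 then (p : ℝ) else 1)) *
          (4 ^ r * H) ^ m) := by
      rw [← abs_of_pos hPpos, ← abs_mul, ← h1]
      refine (abs_sum_le_sum_abs _ _).trans ((sum_le_sum fun x _ => hbd x).trans ?_)
      rw [sum_const, card_range, nsmul_eq_mul]
    have h3 : (∏ p ∈ P, (if (univ.filter (fun i => p ∈ φ i)).card = 0 then (p : ℝ) else 1)) =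
        (∏ p ∈ P, (p : ℝ)) / ∏ p ∈ univ.biUnion φ, (p : ℝ) := by
      rw [eq_div_iff hUpos.ne']
      exact hsplit
    rw [h3] at h2
    have h4 : (M : ℝ) * ((∏ p ∈ P, (p : ℝ)) / (∏ p ∈ univ.biUnion φ, (p : ℝ)) * (4 ^ r * H) ^ m) =
        (∏ p ∈ P, (p : ℝ)) * (M * ((4 ^ r * H) ^ m / ∏ p ∈ univ.biUnion φ, (p : ℝ))) := by
      field_simp
    rw [h4] at h2
    exact le_of_mul_le_mul_left h2 hPpos
  · -- some coordinate occurs exactly once
    push Not at hgood
    obtain ⟨p, hp, hcard⟩ := hgood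
    have h1 := sum_SL (σ := sg P d) M [p] G hGper
    simp only [SL, List.map_cons, List.map_nil, List.prod_cons, List.prod_nil, mul_one] at h1
    obtain ⟨i, hi⟩ := card_eq_one.1 hcard
    have hip : p ∈ φ i := by
      have : i ∈ univ.filter (fun i => p ∈ φ i) := by rw [hi]; exact mem_singleton_self i
      exact (mem_filter.1 this).2
    have hjp : ∀ j, j ≠ i → p ∉ φ j := by
      intro j hj hpj
      have : j ∈ univ.filter (fun i => p ∈ φ i) := mem_filter.2 ⟨mem_univ _, hpj⟩
      rw [hi, mem_singleton] at this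
      exact hj this
    have h2 : ∀ x, Sg (sg P d p) p G x = 0 := by
      intro x
      have e1 : Sg (sg P d p) p G x = (∏ j ∈ univ.erase i, Zf k H d (φ j) x) *
          Sg (sg P d p) p (Zf k H d (φ i)) x := by
        unfold Sg
        rw [mul_sum]
        apply sum_congr rfl
        intro y _
        simp only [hG]
        rw [← mul_prod_erase univ _ (mem_univ i), mul_comm]
        congr 1
        apply prod_congr rfl
        intro j hj
        rw [mem_erase] at hj
        apply inv_mul_of_inv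
        intro n
        apply Zf_inv (sg_dvd_left P d p)
        intro q hq
        exact sg_dvd ((hφ j).1 hq) (fun h => hjp j hj.1 (h ▸ hq))
      rw [e1, Zf_sum_zero hip (hP p hp).one_le (sg_cop hP hp hdP) (sg_dvd_left P d p)
        (fun q hq hqp => sg_dvd ((hφ i).1 hq) hqp), mul_zero]
    rw [sum_congr rfl (fun x _ => h2 x), sum_const_zero] at h1
    have h3 : ∑ x ∈ range M, G x = 0 := by
      rcases mul_eq_zero.1 h1.symm with h | h
      · exact absurd h (hpR p hp).ne'
      · exact h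
    rw [h3, abs_zero]

/-- the divisor sum in the windows -/
noncomputable def Wf (k H d : ℕ) (T : Finset (Finset ℕ)) (c : Finset ℕ → ℝ) (n : ℕ) : ℝ :=
  ∑ t ∈ T, c t * Zf k H d t n

lemma comb {P : Finset ℕ} (hP : ∀ p ∈ P, p.Prime) {r m : ℕ} (T : Finset (Finset ℕ))
    (hT : ∀ t ∈ T, t ⊆ P ∧ t.Nonempty ∧ t.card ≤ r) :
    ∑ φ ∈ (Fintype.piFinset (fun _ : Fin (2 * m) => T)).filter
      (fun φ => ∀ p ∈ P, (univ.filter (fun i => p ∈ φ i)).card ≠ 1),
      1 / ∏ p ∈ univ.biUnion φ, (p : ℝ) ≤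
    (1 + (m : ℝ) * r) ^ (2 * m * r) * ∏ p ∈ P, (1 + 1 / (p : ℝ)) := by
  have hpR : ∀ p ∈ P, (0 : ℝ) < p := fun p hp => by exact_mod_cast (hP p hp).pos
  set 𝒢 := (Fintype.piFinset (fun _ : Fin (2 * m) => T)).filter
      (fun φ => ∀ p ∈ P, (univ.filter (fun i => p ∈ φ i)).card ≠ 1) with h𝒢
  have hmaps : ∀ φ ∈ 𝒢, univ.biUnion φ ∈ P.powerset := by
    intro φ hφ
    rw [h𝒢, mem_filter, Fintype.mem_piFinset] at hφ
    rw [mem_powerset]
    intro p hp
    rw [mem_biUnion] at hp
    obtain ⟨i, _, hi⟩ := hp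
    exact (hT _ (hφ.1 i)).1 hi
  rw [← sum_fiberwise_of_maps_to hmaps, Finset.prod_one_add, mul_sum]
  apply sum_le_sum
  intro U hU
  rw [mem_powerset] at hU
  have hUpos : 0 < ∏ p ∈ U, (p : ℝ) := prod_pos fun p hp => hpR p (hU hp)
  have e1 : ∑ φ ∈ 𝒢.filter (fun φ => univ.biUnion φ = U), 1 / ∏ p ∈ univ.biUnion φ, (p : ℝ) =
      ((𝒢.filter (fun φ => univ.biUnion φ = U)).card : ℝ) * (1 / ∏ p ∈ U, (p : ℝ)) := by
    rw [← nsmul_eq_mul, ← sum_const]
    apply sum_congr rfl
    intro φ hφ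
    rw [(mem_filter.1 hφ).2]
  rw [e1, prod_div_distrib, prod_const_one]
  apply mul_le_mul_of_nonneg_right _ (by positivity)
  by_cases hne : (𝒢.filter (fun φ => univ.biUnion φ = U)).Nonempty
  · obtain ⟨φ0, hφ0⟩ := hne
    rw [mem_filter, h𝒢, mem_filter, Fintype.mem_piFinset] at hφ0
    obtain ⟨⟨hφT, hφg⟩, hφU⟩ := hφ0
    have hcardU : U.card ≤ m * r := by
      have h1 : ∑ p ∈ U, 2 ≤ ∑ p ∈ U, (univ.filter (fun i => p ∈ φ0 i)).card := by
        apply sum_le_sum
        intro p hp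
        have h2 := hφg p (hU hp)
        have h3 : (univ.filter (fun i => p ∈ φ0 i)).card ≠ 0 := by
          rw [← hφU, mem_biUnion] at hp
          obtain ⟨i, _, hi⟩ := hp
          rw [card_ne_zero]
          exact ⟨i, mem_filter.2 ⟨mem_univ _, hi⟩⟩
        omega
      have h2 : ∑ p ∈ U, (univ.filter (fun i => p ∈ φ0 i)).card ≤ ∑ i : Fin (2 * m), r := by
        simp only [card_filter]
        rw [sum_comm]
        apply sum_le_sum
        intro i _
        rw [← card_filter]
        refine (card_le_card ?_).trans (hT _ (hφT i)).2.2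
        intro p hp
        exact (mem_filter.1 hp).2
      rw [sum_const, smul_eq_mul] at h1
      rw [sum_const, card_univ, Fintype.card_fin, smul_eq_mul] at h2
      have h4 := h1.trans h2
      have : U.card * 2 ≤ (m * r) * 2 := by
        calc U.card * 2 ≤ 2 * m * r := h4
          _ = (m * r) * 2 := by ring
      omega
    have hsub : 𝒢.filter (fun φ => univ.biUnion φ = U) ⊆
        Fintype.piFinset (fun _ : Fin (2 * m) => U.powerset.filter (fun s => s.card ≤ r)) := by
      intro φ hφ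
      rw [mem_filter, h𝒢, mem_filter, Fintype.mem_piFinset] at hφ
      rw [Fintype.mem_piFinset]
      intro i
      rw [mem_filter, mem_powerset]
      refine ⟨?_, (hT _ (hφ.1.1 i)).2.2⟩
      rw [← hφ.2]
      exact subset_biUnion_of_mem φ (mem_univ i)
    have h5 := card_le_card hsub
    rw [Fintype.card_piFinset_const] at h5
    have h6 : (U.powerset.filter (fun s => s.card ≤ r)).card ^ (2 * m) ≤ (1 + m * r) ^ (2 * m * r) := by
      calc (U.powerset.filter (fun s => s.card ≤ r)).card ^ (2 * m)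
          ≤ ((1 + U.card) ^ r) ^ (2 * m) := Nat.pow_le_pow_left (card_small U r) _
        _ ≤ ((1 + m * r) ^ r) ^ (2 * m) := by gcongr
        _ = (1 + m * r) ^ (2 * m * r) := by rw [← pow_mul]; congr 1; ring
    have h7 := h5.trans h6
    exact_mod_cast h7
  · rw [not_nonempty_iff_eq_empty] at hne
    rw [hne, card_empty]
    push_cast
    positivity

/-- the moment over a full period -/
theorem full_moment {P : Finset ℕ} (hP : ∀ p ∈ P, p.Prime) {d k H r m : ℕ} (hd1 : 1 ≤ d)
    (hdP : ∀ p ∈ P, d.Coprime p) (hkd : k.Coprime d) (hkP : ∀ p ∈ P, k.Coprime p)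
    (T : Finset (Finset ℕ)) (hT : ∀ t ∈ T, t ⊆ P ∧ t.Nonempty ∧ t.card ≤ r)
    (c : Finset ℕ → ℝ) (K : ℝ) (hK : 0 ≤ K) (hc : ∀ t ∈ T, |c t| ≤ K) :
    (∑ x ∈ range (d * ∏ p ∈ P, p), (Wf k H d T c x) ^ (2 * m)) / ((d * ∏ p ∈ P, p : ℕ) : ℝ) ≤
      K ^ (2 * m) * (4 ^ r * H) ^ m * ((1 + (m : ℝ) * r) ^ (2 * m * r) * ∏ p ∈ P, (1 + 1 / (p : ℝ))) := by
  set M := d * ∏ p ∈ P, p with hM
  have hMpos : 0 < M := Nat.mul_pos hd1 (prod_pos fun p hp => (hP p hp).pos)
  have hMR : (0 : ℝ) < M := by exact_mod_cast hMpos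
  rw [div_le_iff₀ hMR]
  have e1 : ∀ x, (Wf k H d T c x) ^ (2 * m) =
      ∑ φ ∈ Fintype.piFinset (fun _ : Fin (2 * m) => T), (∏ i, c (φ i)) * ∏ i, Zf k H d (φ i) x := by
    intro x
    have h1 : (Wf k H d T c x) ^ (2 * m) = ∏ i : Fin (2 * m), ∑ t ∈ T, c t * Zf k H d t x := by
      rw [prod_const, card_univ, Fintype.card_fin]
      rfl
    rw [h1, prod_univ_sum]
    apply sum_congr rfl
    intro φ _
    rw [prod_mul_distrib]
  rw [sum_congr rfl (fun x _ => e1 x), sum_comm]
  have e2 : ∀ φ ∈ Fintype.piFinset (fun _ : Fin (2 * m) => T),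
      ∑ x ∈ range M, (∏ i, c (φ i)) * ∏ i, Zf k H d (φ i) x ≤
      if (∀ p ∈ P, (univ.filter (fun i => p ∈ φ i)).card ≠ 1) then
        (K ^ (2 * m) * (4 ^ r * H) ^ m * M) * (1 / ∏ p ∈ univ.biUnion φ, (p : ℝ)) else 0 := by
    intro φ hφ
    rw [Fintype.mem_piFinset] at hφ
    rw [← mul_sum]
    have h1 := prod_mean (H := H) (m := m) hP hd1 hdP hkd hkP φ (fun i => hT _ (hφ i))
    have h2 : |∏ i, c (φ i)| ≤ K ^ (2 * m) := by
      rw [abs_prod]
      calc ∏ i : Fin (2 * m), |c (φ i)| ≤ ∏ i : Fin (2 * m), K :=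
            prod_le_prod (fun _ _ => abs_nonneg _) (fun i _ => hc _ (hφ i))
        _ = K ^ (2 * m) := by rw [prod_const, card_univ, Fintype.card_fin]
    refine (le_abs_self _).trans ?_
    rw [abs_mul]
    split_ifs at h1 ⊢ with hg
    · calc |(∏ i, c (φ i))| * |(∑ x ∈ range M, ∏ i, Zf k H d (φ i) x)|
          ≤ K ^ (2 * m) * ((M : ℝ) * (((4 : ℝ) ^ r * H) ^ m / (∏ p ∈ univ.biUnion φ, (p : ℝ)))) :=
            mul_le_mul h2 h1 (abs_nonneg _) (by positivity)
        _ = _ := by ring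
    · have h3 : |∑ x ∈ range M, ∏ i, Zf k H d (φ i) x| = 0 := le_antisymm h1 (abs_nonneg _)
      rw [h3, mul_zero]
  refine (sum_le_sum e2).trans ?_
  rw [← sum_filter, ← mul_sum]
  have h5 := comb (m := m) hP T hT
  refine (mul_le_mul_of_nonneg_left h5 (by positivity)).trans (le_of_eq ?_)
  ring

/-- **the moment over an interval** -/
theorem window_moment {P : Finset ℕ} (hP : ∀ p ∈ P, p.Prime) {d k H r m : ℕ} (hd1 : 1 ≤ d)
    (hdP : ∀ p ∈ P, d.Coprime p) (hkd : k.Coprime d) (hkP : ∀ p ∈ P, k.Coprime p)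
    (T : Finset (Finset ℕ)) (hT : ∀ t ∈ T, t ⊆ P ∧ t.Nonempty ∧ t.card ≤ r)
    (R2 : ℕ) (hR2 : 1 ≤ R2) (hTR : ∀ t ∈ T, ∏ p ∈ t, p ≤ R2)
    (c : Finset ℕ → ℝ) (K : ℝ) (hK : 0 ≤ K) (hc : ∀ t ∈ T, |c t| ≤ K) (N N0 : ℕ) :
    ∑ n ∈ Icc 1 N, (Wf k H d T c (N0 + n)) ^ (2 * m) ≤
      6 * ((N : ℝ) + ((d * R2 ^ m : ℕ) : ℝ) ^ 2) *
      (K ^ (2 * m) * (4 ^ r * H) ^ m *
        ((1 + (m : ℝ) * r) ^ (2 * m * r) * ∏ p ∈ P, (1 + 1 / (p : ℝ)))) := by
  set M := d * ∏ p ∈ P, p with hM
  have hMpos : 0 < M := Nat.mul_pos hd1 (prod_pos fun p hp => (hP p hp).pos)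
  have e1 : ∀ x, (Wf k H d T c x) ^ m =
      ∑ φ ∈ Fintype.piFinset (fun _ : Fin m => T), ∏ i, (c (φ i) * Zf k H d (φ i) x) := by
    intro x
    have h1 : (Wf k H d T c x) ^ m = ∏ i : Fin m, ∑ t ∈ T, c t * Zf k H d t x := by
      rw [prod_const, card_univ, Fintype.card_fin]
      rfl
    rw [h1, prod_univ_sum]
  have hbi : ∀ φ : Fin m → Finset ℕ, (∀ i, φ i ∈ T) → univ.biUnion φ ⊆ P := by
    intro φ hφ p hp
    rw [mem_biUnion] at hp
    obtain ⟨i, _, hi⟩ := hp
    exact (hT _ (hφ i)).1 hi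
  have h1 := lsp (Fintype.piFinset (fun _ : Fin m => T))
    (fun φ x => ∏ i, (c (φ i) * Zf k H d (φ i) x)) (fun φ => d * ∏ p ∈ univ.biUnion φ, p) M
    (d * R2 ^ m) N N0 hMpos (Nat.mul_pos hd1 (by positivity)) (by
      intro φ hφ
      rw [Fintype.mem_piFinset] at hφ
      have hsub := hbi φ hφ
      refine ⟨Nat.mul_pos hd1 (prod_pos fun p hp => (hP p (hsub hp)).pos), ?_, ?_⟩
      · apply Nat.mul_le_mul_left
        have h2 : ∀ s : Finset (Fin m), ∏ p ∈ s.biUnion φ, p ≤ ∏ i ∈ s, ∏ p ∈ φ i, p := by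
          intro s
          induction s using Finset.induction_on with
          | empty => simp
          | insert a s ha ih =>
            rw [biUnion_insert, prod_insert ha]
            have h3 : ∏ p ∈ φ a ∪ s.biUnion φ, p ≤ (∏ p ∈ φ a, p) * ∏ p ∈ s.biUnion φ, p := by
              rw [← prod_union_inter]
              apply Nat.le_mul_of_pos_right
              apply prod_pos
              intro p hp
              rw [mem_inter] at hp
              exact (hP p ((hT _ (hφ a)).1 hp.1)).pos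
            exact h3.trans (Nat.mul_le_mul_left _ ih)
        refine (h2 univ).trans ?_
        calc ∏ i : Fin m, ∏ p ∈ φ i, p ≤ ∏ i : Fin m, R2 := prod_le_prod' fun i _ => hTR _ (hφ i)
          _ = R2 ^ m := by rw [prod_const, card_univ, Fintype.card_fin]
      · exact Nat.mul_dvd_mul_left d (prod_dvd_prod_of_subset _ _ _ hsub)) (by
      intro φ hφ x
      rw [Fintype.mem_piFinset] at hφ
      apply prod_congr rfl
      intro i _
      rw [Zf_inv (Dvd.intro _ rfl)]
      intro p hp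
      apply Dvd.dvd.mul_left
      exact dvd_prod_of_mem (fun p => p) (mem_biUnion.2 ⟨i, mem_univ _, hp⟩))
  simp only [← e1] at h1
  have e3 : ∀ x, ((Wf k H d T c x) ^ m) ^ 2 = (Wf k H d T c x) ^ (2 * m) := by
    intro x
    rw [← pow_mul, mul_comm]
  simp only [e3] at h1
  refine h1.trans ?_
  apply mul_le_mul_of_nonneg_left _ (by positivity)
  exact full_moment hP hd1 hdP hkd hkP T hT c K hK hc

end Pool.Agent.H537.EG
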