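import Pool.Agent.H537.EG.Cls

/-! From windows to positions. -/

set_option autoImplicit false
set_option maxHeartbeats 4000000

namespace Pool.Agent.H537.EG
open Finset Filter
open Pool.Agent.R502.BL (pc)

lemma pc_le_wc2 {k u v l H R : ℕ} (hk : 1 ≤ k) (hR : R ≤ u) (hH : v < fst k u l + k * H) :
    pc k u v l ≤ wc k H R (fst k u l) := by
  unfold pc wc
  apply card_le_card_of_injOn (fun p => (p - fst k u l) / k)
  · intro p hp
    simp only [mem_coe, mem_filter, mem_Ioc] at hp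
    obtain ⟨⟨hp1, hp2⟩, hp3, hp4⟩ := hp
    have h2 := fst_min hk hp1 hp4
    simp only [mem_coe, mem_filter, mem_range]
    rw [h2]
    refine ⟨?_, hp3, by omega⟩
    have h3 : k * ((p - fst k u l) / k) < k * H := by omega
    exact Nat.lt_of_mul_lt_mul_left h3
  · intro p hp p' hp' h
    simp only [mem_coe, mem_filter, mem_Ioc] at hp hp'
    simp only at h
    have h2 := fst_min hk hp.1.1 hp.2.2
    have h3 := fst_min hk hp'.1.1 hp'.2.2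
    rw [← h2, ← h3, h]

/-- the inequality fails at the position `n` for some modulus, class and interval -/
def Bad (A ε κ C c : ℝ) (X n : ℕ) : Prop := ∃ k l : ℕ, 1 ≤ k ∧ (k : ℝ) ≤ (X : ℝ) ^ κ ∧ ∃ x y : ℝ, x - y < n ∧ n ≤ x ∧
  k * (Real.log X) ^ C ≤ y ∧ y ≤ k * (X : ℝ) ^ c ∧
  (2 + ε) / A * y / (Nat.totient k * Real.log (y / k)) < (pc k ⌊x - y⌋₊ ⌊x⌋₊ l : ℝ)

/-- one bad position gives a bad window nearby -/
lemma bad_window {A ε κ C C0 c c' : ℝ} {X n : ℕ} (hA : 0 < A) (hε : 0 < ε) (hX1 : (1 : ℝ) ≤ X) (hcc : c ≤ c')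
    (hY0 : ∀ Y : ℝ, (Real.log X) ^ C ≤ Y → 1 < Y ∧ 0 < Real.log (Y - 1) ∧
      (2 + ε / 2) * ((Y + 2) / Real.log (Y - 1)) + A ≤ (2 + ε) * (Y / Real.log Y))
    (hC : (Real.log (2 * X : ℕ)) ^ C0 ≤ (Real.log X) ^ C - 1)
    (hR : ∀ h : ℝ, 0 ≤ h → h ≤ (X : ℝ) ^ c + 2 → h ^ (A / 2) + 1 ≤ (X : ℝ) ^ (κ + c'))
    (hκ : (X : ℝ) ^ κ ≤ X)
    (hn : 2 * (X : ℝ) ^ (κ + c') < n) (hnX : n ≤ X) (hbad : Bad A ε κ C c X n) :
    ∃ k ∈ Icc 1 ⌊(X : ℝ) ^ κ⌋₊, ∃ H ∈ Icc ⌈(Real.log (2 * X : ℕ)) ^ C0⌉₊ ⌊(X : ℝ) ^ c + 2⌋₊,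
      ∃ n0 ∈ (Icc 1 (2 * X)).filter (fun n => (2 + ε / 2) / A * ((k : ℝ) / Nat.totient k) * (H / Real.log H) <
        (wc k H ⌊(H : ℝ) ^ (A / 2)⌋₊ (0 + n) : ℝ)), n ∈ Ioo (n0 - k) (n0 + k * H) := by
  obtain ⟨k, l, hk, hkX, x, y, hxn, hnx, hy1, hy2, hb⟩ := hbad
  have hX0 : (0 : ℝ) < X := lt_of_lt_of_le one_pos hX1
  have hkR : (1 : ℝ) ≤ k := by exact_mod_cast hk
  have hk0 : (0 : ℝ) < k := lt_of_lt_of_le one_pos hkR
  set Y : ℝ := y / k with hY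
  have hykY : y = k * Y := by rw [hY]; field_simp
  have hYC : (Real.log X) ^ C ≤ Y := by
    rw [hY, le_div_iff₀ hk0]
    linarith only [hy1]
  obtain ⟨hY1, g1, g2⟩ := hY0 Y hYC
  have hYc : Y ≤ (X : ℝ) ^ c := by
    rw [hY, div_le_iff₀ hk0]
    linarith only [hy2]
  have hy0 : 0 < y := by rw [hykY]; exact mul_pos hk0 (by linarith only [hY1])
  have hykX : y ≤ (X : ℝ) ^ (κ + c') := by
    refine le_trans ?_ (Real.rpow_le_rpow_of_exponent_le hX1 (by linarith only [hcc] : κ + c ≤ κ + c'))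
    rw [Real.rpow_add hX0]
    exact hy2.trans (mul_le_mul_of_nonneg_right hkX (by positivity))
  have hxy : (X : ℝ) ^ (κ + c') < x - y := by linarith only [hn, hnx, hykX]
  have hxy0 : 0 ≤ x - y := le_trans (by positivity) hxy.le
  set u : ℕ := ⌊x - y⌋₊ with hu
  set v : ℕ := ⌊x⌋₊ with hv
  have hu1 : (u : ℝ) ≤ x - y := Nat.floor_le hxy0
  have hu2 : x - y < u + 1 := Nat.lt_floor_add_one _
  have hv1 : (v : ℝ) ≤ x := Nat.floor_le (by linarith only [hxy0, hy0])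
  have hv2 : x < v + 1 := Nat.lt_floor_add_one _
  have huv : u ≤ v := Nat.floor_le_floor (by linarith only [hy0])
  have hvu : ((v - u : ℕ) : ℝ) = v - u := by rw [Nat.cast_sub huv]
  set H : ℕ := (v - u) / k + 1 with hH
  have hHk1N : v - u < k * H := Nat.lt_mul_div_succ (v - u) (show 0 < k by omega)
  have hHk1 : ((v - u : ℕ) : ℝ) < k * H := by exact_mod_cast hHk1N
  have hHk2 : (k : ℝ) * H ≤ (v - u : ℕ) + k := by
    have h1 : k * ((v - u) / k) ≤ v - u := Nat.mul_div_le _ _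
    have h2 : k * H = k * ((v - u) / k) + k := by rw [hH]; ring
    have h3 : k * H ≤ (v - u) + k := by rw [h2]; exact Nat.add_le_add_right h1 k
    exact_mod_cast h3
  have hHlow : Y - 1 ≤ H := by
    have h1 : y - 1 ≤ k * H := by linarith only [hHk1, hvu, hu1, hv2]
    have h2 : (k : ℝ) * (Y - 1) ≤ k * H := by rw [hykY] at h1; linarith only [h1, hkR]
    exact le_of_mul_le_mul_left h2 hk0
  have hHup : (H : ℝ) ≤ Y + 2 := by
    have h1 : (k : ℝ) * H ≤ y + 1 + k := by linarith only [hHk2, hvu, hv1, hu2]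
    have h2 : (k : ℝ) * H ≤ k * (Y + 2) := by rw [hykY] at h1; linarith only [h1, hkR]
    exact le_of_mul_le_mul_left h2 hk0
  set κ' : ℝ := (k : ℝ) / Nat.totient k with hκ'
  have hφ : (0 : ℝ) < Nat.totient k := by exact_mod_cast Nat.totient_pos.2 hk
  have hκ1 : 1 ≤ κ' := by
    rw [hκ', one_le_div hφ]
    exact_mod_cast Nat.totient_le k
  have hbc := bound_conv hA hε hκ1 g1 g2 hHlow hHup hY1
  have hconv : (2 + ε) / A * y / (Nat.totient k * Real.log Y) = (2 + ε) / A * κ' * (Y / Real.log Y) := by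
    rw [hykY, hκ']
    have : 0 < Real.log Y := Real.log_pos hY1
    field_simp
  rw [hconv] at hb
  have hRu : ⌊(H : ℝ) ^ (A / 2)⌋₊ ≤ u := by
    have h1 := hR H (Nat.cast_nonneg H) (by linarith only [hHup, hYc])
    have h2 : ((⌊(H : ℝ) ^ (A / 2)⌋₊ : ℕ) : ℝ) ≤ (H : ℝ) ^ (A / 2) := Nat.floor_le (by positivity)
    have h3 : ((⌊(H : ℝ) ^ (A / 2)⌋₊ : ℕ) : ℝ) < u + 1 - 1 := by linarith only [h1, h2, hxy, hu2]
    have h4 : ((⌊(H : ℝ) ^ (A / 2)⌋₊ : ℕ) : ℝ) < u := by linarith only [h3]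
    exact_mod_cast h4.le
  have f1 := fst_gt k u l
  have f2 := fst_le u l hk
  have f3 : v < fst k u l + k * H := by omega
  have hpc : (pc k u v l : ℝ) ≤ (wc k H ⌊(H : ℝ) ^ (A / 2)⌋₊ (fst k u l) : ℝ) := by
    exact_mod_cast pc_le_wc2 hk hRu f3
  have hun : u < n := by exact_mod_cast lt_of_le_of_lt hu1 hxn
  have hnv : n ≤ v := Nat.le_floor hnx
  have hkXN : k ≤ X := by exact_mod_cast hkX.trans hκ
  refine ⟨k, ?_, H, ?_, fst k u l, ?_, ?_⟩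
  · rw [mem_Icc]
    exact ⟨hk, Nat.le_floor hkX⟩
  · rw [mem_Icc]
    refine ⟨Nat.ceil_le.2 (by linarith only [hC, hYC, hHlow]), Nat.le_floor (by linarith only [hHup, hYc])⟩
  · rw [mem_filter, mem_Icc, zero_add]
    refine ⟨⟨by omega, by omega⟩, ?_⟩
    linarith only [hbc, hb, hpc]
  · rw [mem_Ioo]
    constructor
    · omega
    · omega

/-- **positions**: the inequality holds around almost all integers, for all moduli and all classes -/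
theorem positions (A κ ε : ℝ) (hA : 1 / 2 ≤ A) (hκ : 0 ≤ κ) (hε : 0 < ε) : ∃ (C c : ℝ), 1 ≤ C ∧ 0 < c ∧
    ∀ᶠ X : ℕ in atTop, ∀ F : Finset ℕ, (∀ n ∈ F, 1 ≤ n ∧ n ≤ X ∧ Bad A ε κ C c X n) →
      (F.card : ℝ) ≤ (X : ℝ) ^ (2 * κ + 1 - 1 / (2 * A) + ε) := by
  classical
  have hA0 : 0 < A := by linarith
  have hA1 : 0 ≤ 1 - 1 / (2 * A) := by
    have : 1 / (2 * A) ≤ 1 := by rw [div_le_one (by linarith)]; linarith
    linarith
  obtain ⟨C0, c0, hC0, hc0, hev⟩ := eng4 A (ε / 2) hA0 (by linarith)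
  obtain ⟨Y0, hY0⟩ := eventually_atTop.1 (ev_fin2 A ε hε)
  -- the exponent `c`
  obtain ⟨c, hc, hcc0, hcε, hcA⟩ : ∃ c : ℝ, 0 < c ∧ c ≤ c0 / 2 ∧ c ≤ ε / 8 ∧ c * (A / 2) ≤ ε / 8 := by
    refine ⟨min (c0 / 2) (min (ε / 8) (ε / (4 * A))), by positivity, min_le_left _ _,
      (min_le_right _ _).trans (min_le_left _ _), ?_⟩
    have h1 : min (c0 / 2) (min (ε / 8) (ε / (4 * A))) ≤ ε / (4 * A) := (min_le_right _ _).trans (min_le_right _ _)
    calc min (c0 / 2) (min (ε / 8) (ε / (4 * A))) * (A / 2) ≤ ε / (4 * A) * (A / 2) :=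
          mul_le_mul_of_nonneg_right h1 (by linarith)
      _ = ε / 8 := by field_simp; norm_num
  refine ⟨C0 + 1, c, by linarith, hc, ?_⟩
  by_cases hκA : 1 / (2 * A) ≤ 2 * κ
  · -- trivial case
    filter_upwards [eventually_ge_atTop 1] with X hX F hF
    have hXR : (1 : ℝ) ≤ X := by exact_mod_cast hX
    have h1 : F.card ≤ X := by
      have h2 : F ⊆ Icc 1 X := fun n hn => mem_Icc.2 ⟨(hF n hn).1, (hF n hn).2.1⟩
      have h3 := card_le_card h2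
      rw [Nat.card_Icc] at h3
      omega
    calc (F.card : ℝ) ≤ X := by exact_mod_cast h1
      _ = (X : ℝ) ^ (1 : ℝ) := (Real.rpow_one _).symm
      _ ≤ (X : ℝ) ^ (2 * κ + 1 - 1 / (2 * A) + ε) :=
          Real.rpow_le_rpow_of_exponent_le hXR (by linarith)
  push Not at hκA
  have hκ1 : κ ≤ 1 := by linarith
  have hlogX : ∀ x : ℝ, ∀ᶠ X : ℕ in atTop, x ≤ Real.log X := fun x =>
    (Real.tendsto_log_atTop.comp tendsto_natCast_atTop_atTop).eventually_ge_atTop x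
  have hpow : ∀ (a K : ℝ), 0 < a → ∀ᶠ X : ℕ in atTop, K ≤ (X : ℝ) ^ a := fun a K ha =>
    ((tendsto_rpow_atTop ha).comp tendsto_natCast_atTop_atTop).eventually_ge_atTop _
  have hev2 : ∀ᶠ X : ℕ in atTop, ∀ (H k N0 : ℕ), (Real.log (2 * X : ℕ)) ^ C0 ≤ H →
      (H : ℝ) ≤ ((2 * X : ℕ) : ℝ) ^ c0 → 1 ≤ k →
      (((Icc 1 (2 * X)).filter (fun n => (2 + ε / 2) / A * ((k : ℝ) / Nat.totient k) * (H / Real.log H) <
        (wc k H ⌊(H : ℝ) ^ (A / 2)⌋₊ (N0 + n) : ℝ))).card : ℝ) ≤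
        ((2 * X : ℕ) : ℝ) ^ (1 - 1 / (2 * A) + ε / 2) := by
    have h1 : Tendsto (fun X : ℕ => 2 * X) atTop atTop :=
      tendsto_atTop_mono (fun X => by omega : ∀ X : ℕ, X ≤ 2 * X) tendsto_id
    exact h1.eventually hev
  have hA30 : (0 : ℝ) < 3 ^ (A / 2) + 1 := by positivity
  filter_upwards [hev2, hlogX 2, hlogX Y0, hlogX (2 ^ C0 + 2), hpow (c0 / 2) 3 (by linarith),
    hpow (ε / 8) (3 ^ (A / 2) + 1) (by linarith), hpow (ε / 4) (12 * 2 ^ (1 + ε / 2) + 2) (by linarith),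
    eventually_ge_atTop 1] with X hX l2 lY lC p3 pA pF hX1 F hF
  have hXR : (1 : ℝ) ≤ X := by exact_mod_cast hX1
  have hX0 : (0 : ℝ) < X := lt_of_lt_of_le one_pos hXR
  have hl0 : 0 < Real.log X := by linarith only [l2]
  -- facts for `bad_window`
  have hpow1 : Real.log X ≤ (Real.log X) ^ (C0 + 1) := by
    calc Real.log X = (Real.log X) ^ (1 : ℝ) := (Real.rpow_one _).symm
      _ ≤ (Real.log X) ^ (C0 + 1) := Real.rpow_le_rpow_of_exponent_le (by linarith only [l2]) (by linarith only [hC0])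
  have b1 : ∀ Y : ℝ, (Real.log X) ^ (C0 + 1) ≤ Y → 1 < Y ∧ 0 < Real.log (Y - 1) ∧
      (2 + ε / 2) * ((Y + 2) / Real.log (Y - 1)) + A ≤ (2 + ε) * (Y / Real.log Y) := by
    intro Y hY
    have h1 : Real.log X ≤ Y := hpow1.trans hY
    exact ⟨by linarith only [h1, l2], hY0 Y (lY.trans h1)⟩
  have b2 : (Real.log (2 * X : ℕ)) ^ C0 ≤ (Real.log X) ^ (C0 + 1) - 1 := by
    have h1 : Real.log (2 * X : ℕ) ≤ 2 * Real.log X := by
      push_cast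
      rw [Real.log_mul (by norm_num) hX0.ne']
      have := Real.log_two_lt_d9
      linarith only [this, l2]
    have h0 : 0 ≤ Real.log (2 * X : ℕ) := Real.log_natCast_nonneg _
    have h2 : (Real.log (2 * X : ℕ)) ^ C0 ≤ (2 * Real.log X) ^ C0 :=
      Real.rpow_le_rpow h0 h1 (by linarith only [hC0])
    rw [Real.mul_rpow (by norm_num) hl0.le] at h2
    have h3 : (Real.log X) ^ (C0 + 1) = (Real.log X) ^ C0 * Real.log X := by
      rw [Real.rpow_add hl0, Real.rpow_one]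
    have h4 : 1 ≤ (Real.log X) ^ C0 := Real.one_le_rpow (by linarith only [l2]) (by linarith only [hC0])
    rw [h3]
    have h5 : (Real.log X) ^ C0 * (2 ^ C0 + 2) ≤ (Real.log X) ^ C0 * Real.log X :=
      mul_le_mul_of_nonneg_left lC (by linarith only [h4])
    have h6 : 1 ≤ 2 * (Real.log X) ^ C0 := by linarith only [h4]
    linarith only [h2, h5, h6]
  have hXc1 : 1 ≤ (X : ℝ) ^ c := Real.one_le_rpow hXR hc.le
  have b3 : ∀ h : ℝ, 0 ≤ h → h ≤ (X : ℝ) ^ c + 2 → h ^ (A / 2) + 1 ≤ (X : ℝ) ^ (κ + ε / 4) := by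
    intro h h0 hh
    have h1 : h ≤ 3 * (X : ℝ) ^ c := by linarith only [hh, hXc1]
    have h2 : h ^ (A / 2) ≤ 3 ^ (A / 2) * (X : ℝ) ^ (c * (A / 2)) := by
      calc h ^ (A / 2) ≤ (3 * (X : ℝ) ^ c) ^ (A / 2) := Real.rpow_le_rpow h0 h1 (by linarith only [hA0])
        _ = 3 ^ (A / 2) * (X : ℝ) ^ (c * (A / 2)) := by
            rw [Real.mul_rpow (by norm_num) (by positivity), ← Real.rpow_mul hX0.le]
    have h3 : (X : ℝ) ^ (c * (A / 2)) ≤ (X : ℝ) ^ (ε / 8) := Real.rpow_le_rpow_of_exponent_le hXR hcA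
    have h4 : (1 : ℝ) ≤ (X : ℝ) ^ (ε / 8) := Real.one_le_rpow hXR (by linarith only [hε])
    have h5 : (3 : ℝ) ^ (A / 2) * (X : ℝ) ^ (c * (A / 2)) ≤ 3 ^ (A / 2) * (X : ℝ) ^ (ε / 8) :=
      mul_le_mul_of_nonneg_left h3 (by positivity)
    have h6 : (3 ^ (A / 2) + 1) * (X : ℝ) ^ (ε / 8) ≤ (X : ℝ) ^ (ε / 8) * (X : ℝ) ^ (ε / 8) :=
      mul_le_mul_of_nonneg_right pA (by positivity)
    have h7 : (X : ℝ) ^ (ε / 8) * (X : ℝ) ^ (ε / 8) ≤ (X : ℝ) ^ (κ + ε / 4) := by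
      rw [← Real.rpow_add hX0]
      exact Real.rpow_le_rpow_of_exponent_le hXR (by linarith only [hκ])
    linarith only [h2, h5, h6, h7, h4]
  have b4 : (X : ℝ) ^ κ ≤ X := by
    calc (X : ℝ) ^ κ ≤ (X : ℝ) ^ (1 : ℝ) := Real.rpow_le_rpow_of_exponent_le hXR hκ1
      _ = X := Real.rpow_one _
  -- the covering
  set K1 : ℕ := ⌊(X : ℝ) ^ κ⌋₊ with hK1
  set Hl : ℕ := ⌈(Real.log (2 * X : ℕ)) ^ C0⌉₊ with hHl
  set Hu : ℕ := ⌊(X : ℝ) ^ c + 2⌋₊ with hHu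
  set M0 : ℕ := ⌊2 * (X : ℝ) ^ (κ + ε / 4)⌋₊ with hM0
  set B : ℕ → ℕ → Finset ℕ := fun k H => (Icc 1 (2 * X)).filter (fun n =>
    (2 + ε / 2) / A * ((k : ℝ) / Nat.totient k) * (H / Real.log H) <
        (wc k H ⌊(H : ℝ) ^ (A / 2)⌋₊ (0 + n) : ℝ)) with hB
  have hcover : F ⊆ Icc 1 M0 ∪ (Icc 1 K1).biUnion (fun k => (Icc Hl Hu).biUnion (fun H =>
      (B k H).biUnion (fun n0 => Ioo (n0 - k) (n0 + k * H)))) := by
    intro n hn
    obtain ⟨h1, h2, h3⟩ := hF n hn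
    rw [mem_union]
    by_cases hnM : n ≤ M0
    · left
      exact mem_Icc.2 ⟨h1, hnM⟩
    · right
      push Not at hnM
      have hn2 : 2 * (X : ℝ) ^ (κ + ε / 4) < n := (Nat.floor_lt (by positivity)).1 hnM
      obtain ⟨k, hk, H, hH, n0, hn0, hmem⟩ := bad_window (C0 := C0) (c' := ε / 4) hA0 hε hXR
        (by linarith only [hcε, hε]) b1 b2 b3 b4 hn2 h2 h3
      simp only [mem_biUnion]
      exact ⟨k, hk, H, hH, n0, hn0, hmem⟩
  have hHc : ((Hu : ℕ) : ℝ) ≤ ((2 * X : ℕ) : ℝ) ^ c0 := by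
    have h1 : ((Hu : ℕ) : ℝ) ≤ (X : ℝ) ^ c + 2 := Nat.floor_le (by positivity)
    have h2 : (X : ℝ) ^ c ≤ (X : ℝ) ^ (c0 / 2) := Real.rpow_le_rpow_of_exponent_le hXR hcc0
    have h3 : (X : ℝ) ^ c0 = (X : ℝ) ^ (c0 / 2) * (X : ℝ) ^ (c0 / 2) := by
      rw [← Real.rpow_add hX0]; congr 1; ring
    have h4 : (X : ℝ) ^ c0 ≤ ((2 * X : ℕ) : ℝ) ^ c0 := by
      apply Real.rpow_le_rpow hX0.le _ hc0.le
      push_cast
      linarith only [hX0]
    have h5 : 3 * (X : ℝ) ^ (c0 / 2) ≤ (X : ℝ) ^ (c0 / 2) * (X : ℝ) ^ (c0 / 2) :=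
      mul_le_mul_of_nonneg_right p3 (by positivity)
    have h6 : 1 ≤ (X : ℝ) ^ (c0 / 2) := Real.one_le_rpow hXR (by linarith only [hc0])
    linarith only [h1, h2, h3, h4, h5, h6]
  set E : ℝ := ((2 * X : ℕ) : ℝ) ^ (1 - 1 / (2 * A) + ε / 2) with hE
  have hE0 : 0 ≤ E := by positivity
  have hcard : (F.card : ℝ) ≤ M0 + ∑ k ∈ Icc 1 K1, ∑ H ∈ Icc Hl Hu, E * (k * H + k) := by
    have h1 : F.card ≤ M0 + ∑ k ∈ Icc 1 K1, ∑ H ∈ Icc Hl Hu, ∑ n0 ∈ B k H, (k * H + k) := by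
      refine (card_le_card hcover).trans ((card_union_le _ _).trans ?_)
      apply Nat.add_le_add
      · rw [Nat.card_Icc]; omega
      · refine card_biUnion_le.trans (sum_le_sum fun k _ => ?_)
        refine card_biUnion_le.trans (sum_le_sum fun H _ => ?_)
        refine card_biUnion_le.trans (sum_le_sum fun n0 _ => ?_)
        rw [Nat.card_Ioo]
        omega
    have h2 : (F.card : ℝ) ≤ ((M0 + ∑ k ∈ Icc 1 K1, ∑ H ∈ Icc Hl Hu, ∑ n0 ∈ B k H, (k * H + k) : ℕ) : ℝ) := by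
      exact_mod_cast h1
    refine h2.trans ?_
    push_cast
    gcongr with k hk H hH
    rw [mem_Icc] at hk hH
    rw [sum_const, nsmul_eq_mul]
    apply mul_le_mul_of_nonneg_right _ (by positivity)
    have h3 := hX H k 0 (Nat.ceil_le.1 hH.1) (le_trans (by exact_mod_cast hH.2) hHc) hk.1
    exact h3
  have hK1R : ((K1 : ℕ) : ℝ) ≤ (X : ℝ) ^ κ := Nat.floor_le (by positivity)
  have hHuR : ((Hu : ℕ) : ℝ) ≤ 3 * (X : ℝ) ^ c := by
    have h1 : ((Hu : ℕ) : ℝ) ≤ (X : ℝ) ^ c + 2 := Nat.floor_le (by positivity)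
    linarith only [h1, hXc1]
  have hM0R : ((M0 : ℕ) : ℝ) ≤ 2 * (X : ℝ) ^ (κ + ε / 4) := Nat.floor_le (by positivity)
  have hER : E ≤ 2 ^ (1 + ε / 2) * (X : ℝ) ^ (1 - 1 / (2 * A) + ε / 2) := by
    rw [hE]
    push_cast
    rw [Real.mul_rpow (by norm_num) hX0.le]
    apply mul_le_mul_of_nonneg_right _ (by positivity)
    apply Real.rpow_le_rpow_of_exponent_le (by norm_num)
    have : 0 ≤ 1 / (2 * A) := by positivity
    linarith only [this]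
  have hsum : ∑ k ∈ Icc 1 K1, ∑ H ∈ Icc Hl Hu, E * ((k : ℝ) * H + k) ≤
      (X : ℝ) ^ κ * (3 * (X : ℝ) ^ c * (E * ((X : ℝ) ^ κ * (4 * (X : ℝ) ^ c)))) := by
    have h1 : ∀ k ∈ Icc 1 K1, ∀ H ∈ Icc Hl Hu, E * ((k : ℝ) * H + k) ≤ E * ((X : ℝ) ^ κ * (4 * (X : ℝ) ^ c)) := by
      intro k hk H hH
      rw [mem_Icc] at hk hH
      apply mul_le_mul_of_nonneg_left _ hE0
      have h2 : (k : ℝ) ≤ (X : ℝ) ^ κ := le_trans (by exact_mod_cast hk.2) hK1R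
      have h3 : (H : ℝ) + 1 ≤ 4 * (X : ℝ) ^ c := by
        have : (H : ℝ) ≤ 3 * (X : ℝ) ^ c := le_trans (by exact_mod_cast hH.2) hHuR
        linarith only [this, hXc1]
      calc (k : ℝ) * H + k = k * (H + 1) := by ring
        _ ≤ (X : ℝ) ^ κ * (4 * (X : ℝ) ^ c) := mul_le_mul h2 h3 (by positivity) (by positivity)
    have hG0 : 0 ≤ E * ((X : ℝ) ^ κ * (4 * (X : ℝ) ^ c)) := by positivity
    have hcI : (((Icc Hl Hu).card : ℕ) : ℝ) ≤ 3 * (X : ℝ) ^ c := by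
      rw [Nat.card_Icc]
      have h5 : 1 ≤ Hl := by
        rw [hHl]
        apply Nat.one_le_ceil_iff.2
        apply Real.rpow_pos_of_pos
        apply Real.log_pos
        push_cast
        linarith only [hXR]
      have h6 : Hu + 1 - Hl ≤ Hu := by omega
      exact le_trans (by exact_mod_cast h6) hHuR
    calc ∑ k ∈ Icc 1 K1, ∑ H ∈ Icc Hl Hu, E * ((k : ℝ) * H + k)
        ≤ ∑ k ∈ Icc 1 K1, ∑ H ∈ Icc Hl Hu, E * ((X : ℝ) ^ κ * (4 * (X : ℝ) ^ c)) :=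
          sum_le_sum fun k hk => sum_le_sum fun H hH => h1 k hk H hH
      _ = K1 * (((Icc Hl Hu).card : ℕ) * (E * ((X : ℝ) ^ κ * (4 * (X : ℝ) ^ c)))) := by
          rw [sum_const, sum_const, nsmul_eq_mul, nsmul_eq_mul, Nat.card_Icc, Nat.add_sub_cancel]
      _ ≤ (X : ℝ) ^ κ * (3 * (X : ℝ) ^ c * (E * ((X : ℝ) ^ κ * (4 * (X : ℝ) ^ c)))) := by
          gcongr
  set e : ℝ := 2 * κ + 1 - 1 / (2 * A) + ε with he
  have hfin1 : (X : ℝ) ^ (κ + ε / 4) ≤ (X : ℝ) ^ (e - ε / 4) :=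
    Real.rpow_le_rpow_of_exponent_le hXR (by rw [he]; linarith only [hκ, hA1, hε])
  have hfin2 : (X : ℝ) ^ κ * (3 * (X : ℝ) ^ c * (E * ((X : ℝ) ^ κ * (4 * (X : ℝ) ^ c)))) ≤
      12 * 2 ^ (1 + ε / 2) * (X : ℝ) ^ (e - ε / 4) := by
    calc (X : ℝ) ^ κ * (3 * (X : ℝ) ^ c * (E * ((X : ℝ) ^ κ * (4 * (X : ℝ) ^ c))))
        ≤ (X : ℝ) ^ κ * (3 * (X : ℝ) ^ c * ((2 ^ (1 + ε / 2) * (X : ℝ) ^ (1 - 1 / (2 * A) + ε / 2)) *
          ((X : ℝ) ^ κ * (4 * (X : ℝ) ^ c)))) := by gcongr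
      _ = 12 * 2 ^ (1 + ε / 2) * ((X : ℝ) ^ κ * (X : ℝ) ^ c * (X : ℝ) ^ (1 - 1 / (2 * A) + ε / 2) *
          (X : ℝ) ^ κ * (X : ℝ) ^ c) := by ring
      _ ≤ 12 * 2 ^ (1 + ε / 2) * (X : ℝ) ^ (e - ε / 4) := by
          apply mul_le_mul_of_nonneg_left _ (by positivity)
          rw [← Real.rpow_add hX0, ← Real.rpow_add hX0, ← Real.rpow_add hX0, ← Real.rpow_add hX0]
          apply Real.rpow_le_rpow_of_exponent_le hXR
          rw [he]
          linarith only [hcε]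
  calc (F.card : ℝ) ≤ 2 * (X : ℝ) ^ (e - ε / 4) + 12 * 2 ^ (1 + ε / 2) * (X : ℝ) ^ (e - ε / 4) := by
        linarith only [hcard, hsum, hfin2, hM0R, hfin1]
    _ = (12 * 2 ^ (1 + ε / 2) + 2) * (X : ℝ) ^ (e - ε / 4) := by ring
    _ ≤ (X : ℝ) ^ (ε / 4) * (X : ℝ) ^ (e - ε / 4) := mul_le_mul_of_nonneg_right pF (by positivity)
    _ = (X : ℝ) ^ e := by
        rw [← Real.rpow_add hX0]
        congr 1
        ring

end Pool.Agent.H537.EG
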