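import Pool.Agent.H537.EG.Mom
import Pool.Graph.R_pool_sql_team_seeded_b0a926ef.R502.BL.Wt

/-! Selberg's weights and their expansion. The first theorem is `Pool.Agent.R502.BL.wts` with the support of the
weights and the sign of the main term added. -/

set_option autoImplicit false

namespace Pool.Agent.H537.EG
open Finset
open Pool.Agent.Helper923.PPS
open Pool.Agent.R502.BL (th DD mem_DD ww_ne sq_div)
open Pool.Agent.Erdos456.SieveAux (ww JJ ww_one ww_zero ww_bound mainSum_eq JJ_pos)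

theorem wts2 (k R : ℕ) (hk : 1 ≤ k) (hR : 1 ≤ R) : ∃ ρ : ℕ → ℝ,
    (∀ d, ρ d ≠ 0 → d ∣ PP k R ∧ d ≤ R ^ 2) ∧
    (∀ d, |ρ d| ≤ (1 + Real.log R / Real.log 2) ^ 2 * (d.divisors.card : ℝ) ^ 2) ∧
    (∀ n : ℕ, 1 ≤ n → 0 ≤ th ρ k (R ^ 2) n) ∧
    (∀ n : ℕ, 1 ≤ n → (∀ p : ℕ, p.Prime → p ≤ R → p ∣ n → p ∣ k) → th ρ k (R ^ 2) n = 1) ∧
    0 ≤ ∑ d ∈ DD k (R ^ 2), ρ d / d ∧
    ∑ d ∈ DD k (R ^ 2), ρ d / d ≤ ((k : ℝ) / Nat.totient k) / Real.log ((R : ℝ) + 1) := by
  classical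
  set s := apSieve 0 k 1 R with hs
  set w := ww s R with hw
  set ρ := BoundingSieve.lambdaSquared w with hρ
  have hP0 : PP k R ≠ 0 := (PP_squarefree k R).ne_zero
  have hR1 : (1 : ℝ) ≤ R := by exact_mod_cast hR
  have hlogR : 0 ≤ Real.log R := Real.log_nonneg hR1
  have hl2 : 0 < Real.log 2 := Real.log_pos (by norm_num)
  set A : ℝ := 1 + Real.log R / Real.log 2 with hA
  have hA0 : 0 ≤ A := by positivity
  have hwb : ∀ d, |w d| ≤ A := by
    intro d
    by_cases h0 : w d = 0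
    · rw [h0, abs_zero]; exact hA0
    obtain ⟨hdP, hdR⟩ := ww_ne h0
    have hd' : d ∈ Nat.divisors s.prodPrimes := Nat.mem_divisors.2 ⟨hdP, hP0⟩
    refine (ww_bound R hR hd').trans ?_
    have hd0 : d ≠ 0 := ne_zero_of_dvd_ne_zero hP0 hdP
    rw [BoundingSieve.selbergTerms_apply]
    change ((d : ℝ)⁻¹ * ∏ p ∈ d.primeFactors, (1 - (p : ℝ)⁻¹)⁻¹) / (d : ℝ)⁻¹ ≤ _
    have hdr : (d : ℝ) ≠ 0 := by exact_mod_cast hd0
    rw [mul_div_assoc, mul_comm, div_mul_cancel₀ _ (inv_ne_zero hdr)]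
    refine (Pool.Agent.H617R3.BT.prod_le_card _ fun p hp => (Nat.prime_of_mem_primeFactors hp).two_le).trans ?_
    have h1 := Pool.Agent.H617R3.BT.card_primeFactors_le hd0
    have h2 : Real.log d ≤ Real.log R := by
      apply Real.log_le_log (by exact_mod_cast Nat.pos_of_ne_zero hd0)
      exact_mod_cast hdR
    have h3 : Real.log d / Real.log 2 ≤ Real.log R / Real.log 2 := by gcongr
    linarith
  have hρne : ∀ d, ρ d ≠ 0 → d ∣ PP k R ∧ d ≤ R ^ 2 := by
    intro d hd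
    rw [hρ] at hd
    unfold BoundingSieve.lambdaSquared at hd
    obtain ⟨d1, hd1, h1⟩ := exists_ne_zero_of_sum_ne_zero hd
    obtain ⟨d2, hd2, h2⟩ := exists_ne_zero_of_sum_ne_zero h1
    split_ifs at h2 with h3
    · obtain ⟨a1, a2⟩ := ww_ne (left_ne_zero_of_mul h2)
      obtain ⟨b1, b2⟩ := ww_ne (right_ne_zero_of_mul h2)
      rw [h3]
      refine ⟨Nat.lcm_dvd a1 b1, ?_⟩
      have a0 : d1 ≠ 0 := ne_zero_of_dvd_ne_zero hP0 a1
      have b0 : d2 ≠ 0 := ne_zero_of_dvd_ne_zero hP0 b1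
      calc Nat.lcm d1 d2 ≤ d1 * d2 := Nat.le_of_dvd (Nat.mul_pos (by omega) (by omega)) (Nat.lcm_dvd_mul d1 d2)
        _ ≤ R * R := Nat.mul_le_mul a2 b2
        _ = R ^ 2 := by ring
    · exact absurd rfl h2
  have hρDD : ∀ d, ρ d ≠ 0 → d ∈ DD k (R ^ 2) := by
    intro d hd
    obtain ⟨h1, h2⟩ := hρne d hd
    rw [mem_DD]
    exact ⟨⟨Nat.pos_of_ne_zero (ne_zero_of_dvd_ne_zero hP0 h1), h2⟩, coprime_of_dvd_PP h1⟩
  have hth : ∀ n : ℕ, 1 ≤ n → th ρ k (R ^ 2) n = (∑ d ∈ n.divisors, w d) ^ 2 := by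
    intro n hn
    rw [sq_div w n (by omega)]
    unfold th
    rw [← sum_filter]
    have h1 : ∑ d ∈ (DD k (R ^ 2)).filter (fun d => d ∣ n), ρ d =
        ∑ d ∈ ((DD k (R ^ 2)).filter (fun d => d ∣ n)).filter (fun d => ρ d ≠ 0), ρ d := by
      rw [sum_filter_ne_zero]
    have h2 : ∑ d ∈ n.divisors, ρ d = ∑ d ∈ n.divisors.filter (fun d => ρ d ≠ 0), ρ d := by
      rw [sum_filter_ne_zero]
    rw [h1]
    change _ = ∑ d ∈ n.divisors, ρ d
    rw [h2]
    apply sum_congr _ (fun _ _ => rfl)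
    ext d
    simp only [mem_filter, Nat.mem_divisors]
    constructor
    · rintro ⟨⟨_, h3⟩, h4⟩
      exact ⟨⟨h3, by omega⟩, h4⟩
    · rintro ⟨⟨h3, _⟩, h4⟩
      exact ⟨⟨hρDD d h4, h3⟩, h4⟩
  refine ⟨ρ, hρne, ?_, ?_, ?_, ?_⟩
  · intro d
    rw [hρ]
    unfold BoundingSieve.lambdaSquared
    refine (abs_sum_le_sum_abs _ _).trans ?_
    calc ∑ d1 ∈ d.divisors, |∑ d2 ∈ d.divisors, if d = Nat.lcm d1 d2 then w d1 * w d2 else 0|
        ≤ ∑ d1 ∈ d.divisors, ∑ d2 ∈ d.divisors, A * A := by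
          apply sum_le_sum
          intro d1 _
          refine (abs_sum_le_sum_abs _ _).trans ?_
          apply sum_le_sum
          intro d2 _
          split_ifs
          · rw [abs_mul]
            exact mul_le_mul (hwb d1) (hwb d2) (abs_nonneg _) hA0
          · rw [abs_zero]; positivity
      _ = A ^ 2 * (d.divisors.card : ℝ) ^ 2 := by
          rw [sum_const, sum_const, nsmul_eq_mul, nsmul_eq_mul]
          ring
  · intro n hn
    rw [hth n hn]
    exact sq_nonneg _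
  · intro n hn hp
    rw [hth n hn]
    have h1 : ∑ d ∈ n.divisors, w d = w 1 := by
      apply sum_eq_single 1
      · intro d hd hd1
        rw [Nat.mem_divisors] at hd
        by_contra h0
        obtain ⟨h2, h3⟩ := ww_ne h0
        obtain ⟨p, hpp, hpd⟩ := Nat.exists_prime_and_dvd hd1
        have h4 := (prime_dvd_PP hpp).1 (hpd.trans h2)
        exact h4.2 (hp p hpp h4.1 (hpd.trans hd.1))
      · intro h
        exfalso
        apply h
        rw [Nat.mem_divisors]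
        exact ⟨one_dvd _, by omega⟩
    rw [h1, hw, ww_one R hR]
    norm_num
  · have h1 : ∑ d ∈ DD k (R ^ 2), ρ d / d = s.mainSum ρ := by
      unfold BoundingSieve.mainSum
      change ∑ d ∈ DD k (R ^ 2), ρ d / d = ∑ d ∈ Nat.divisors (PP k R), ρ d * (d : ℝ)⁻¹
      have e1 : ∑ d ∈ DD k (R ^ 2), ρ d / d = ∑ d ∈ (DD k (R ^ 2)).filter (fun d => ρ d ≠ 0), ρ d / d := by
        symm
        apply sum_subset (filter_subset _ _)
        intro d hd hd2
        rw [mem_filter, not_and, not_not] at hd2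
        rw [hd2 hd, zero_div]
      have e2 : ∑ d ∈ Nat.divisors (PP k R), ρ d * (d : ℝ)⁻¹ =
          ∑ d ∈ (Nat.divisors (PP k R)).filter (fun d => ρ d ≠ 0), ρ d * (d : ℝ)⁻¹ := by
        symm
        apply sum_subset (filter_subset _ _)
        intro d hd hd2
        rw [mem_filter, not_and, not_not] at hd2
        rw [hd2 hd, zero_mul]
      rw [e1, e2]
      apply sum_congr
      · ext d
        simp only [mem_filter, Nat.mem_divisors]
        constructor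
        · rintro ⟨_, h4⟩
          exact ⟨⟨(hρne d h4).1, hP0⟩, h4⟩
        · rintro ⟨_, h4⟩
          exact ⟨hρDD d h4, h4⟩
      · intro d _
        rw [div_eq_mul_inv]
    rw [h1, hρ, hw, mainSum_eq R hR]
    refine ⟨(one_div_pos.2 (JJ_pos R hR)).le, ?_⟩
    have hJ : ((Nat.totient k : ℝ) / k) * Real.log ((R : ℝ) + 1) ≤ JJ s R := by
      have h1 := Pool.Agent.H307R2.OP.BT4P.selS_ge2 (a := 0) (q := k) (N := 1) (R := R) hk
      refine h1.trans (le_of_eq ?_)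
      unfold selS Pool.Agent.Erdos456.SieveAux.JJ
      apply Finset.sum_congr _ fun _ _ => rfl
      ext l
      simp only [Finset.mem_filter, Nat.cast_le]
      rfl
    have hq' : (0 : ℝ) < k := by exact_mod_cast hk
    have ht' : (0 : ℝ) < Nat.totient k := by exact_mod_cast Nat.totient_pos.2 hk
    have hlog : 0 < Real.log ((R : ℝ) + 1) := Real.log_pos (by linarith)
    calc 1 / JJ s R ≤ 1 / (((Nat.totient k : ℝ) / k) * Real.log ((R : ℝ) + 1)) :=
          one_div_le_one_div_of_le (by positivity) hJ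
      _ = ((k : ℝ) / Nat.totient k) / Real.log ((R : ℝ) + 1) := by field_simp


/-- the primes `≤ R` not dividing `k` -/
def PQ (k R : ℕ) : Finset ℕ := (Icc 1 R).filter (fun p => p.Prime ∧ ¬ p ∣ k)

lemma mem_PQ {k R p : ℕ} : p ∈ PQ k R ↔ p.Prime ∧ p ≤ R ∧ ¬ p ∣ k := by
  unfold PQ
  rw [mem_filter, mem_Icc]
  constructor
  · rintro ⟨⟨_, h1⟩, h2, h3⟩; exact ⟨h2, h1, h3⟩
  · rintro ⟨h2, h1, h3⟩; exact ⟨⟨h2.one_le, h1⟩, h2, h3⟩

/-- the sets of primes with product at most `R ^ 2` -/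
def SQ (k R : ℕ) : Finset (Finset ℕ) := (PQ k R).powerset.filter (fun s => ∏ p ∈ s, p ≤ R ^ 2)

lemma mem_SQ {k R : ℕ} {s : Finset ℕ} : s ∈ SQ k R ↔ s ⊆ PQ k R ∧ ∏ p ∈ s, p ≤ R ^ 2 := by
  unfold SQ
  rw [mem_filter, mem_powerset]

lemma sum_SQ {k R : ℕ} {ρ : ℕ → ℝ} (hρ : ∀ d, ρ d ≠ 0 → d ∣ PP k R ∧ d ≤ R ^ 2) (g : ℕ → ℝ) :
    ∑ d ∈ DD k (R ^ 2), ρ d * g d = ∑ s ∈ SQ k R, ρ (∏ p ∈ s, p) * g (∏ p ∈ s, p) := by
  classical
  have hinj : Set.InjOn (fun s : Finset ℕ => ∏ p ∈ s, p) (SQ k R : Set (Finset ℕ)) := by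
    intro s hs s' hs' h
    have h1 : ∀ p ∈ s, p.Prime := fun p hp => (mem_PQ.1 ((mem_SQ.1 hs).1 hp)).1
    have h2 : ∀ p ∈ s', p.Prime := fun p hp => (mem_PQ.1 ((mem_SQ.1 hs').1 hp)).1
    simp only at h
    rw [← Nat.primeFactors_prod h1, ← Nat.primeFactors_prod h2, h]
  rw [← sum_image (f := fun d => ρ d * g d) hinj]
  symm
  apply sum_subset
  · intro d hd
    rw [mem_image] at hd
    obtain ⟨s, hs, rfl⟩ := hd
    rw [mem_SQ] at hs
    rw [mem_DD]
    refine ⟨⟨prod_pos fun p hp => (mem_PQ.1 (hs.1 hp)).1.pos, hs.2⟩, ?_⟩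
    apply Nat.Coprime.prod_left
    intro p hp
    have := mem_PQ.1 (hs.1 hp)
    exact (Nat.Prime.coprime_iff_not_dvd this.1).2 this.2.2
  · intro d _ hd
    by_cases h0 : ρ d = 0
    · rw [h0, zero_mul]
    · exfalso
      apply hd
      obtain ⟨h1, h2⟩ := hρ d h0
      have hsq : Squarefree d := (PP_squarefree k R).squarefree_of_dvd h1
      rw [mem_image]
      refine ⟨d.primeFactors, ?_, Nat.prod_primeFactors_of_squarefree hsq⟩
      rw [mem_SQ]
      refine ⟨?_, by rw [Nat.prod_primeFactors_of_squarefree hsq]; exact h2⟩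
      intro p hp
      have hpp := Nat.prime_of_mem_primeFactors hp
      rw [mem_PQ]
      exact ⟨hpp, (prime_dvd_PP hpp).1 ((Nat.dvd_of_mem_primeFactors hp).trans h1)⟩

lemma card_div_le {s : Finset ℕ} (hs : ∀ p ∈ s, p.Prime) :
    (∏ p ∈ s, p).divisors.card ≤ 2 ^ s.card := by
  have h0 : ∏ p ∈ s, p ≠ 0 := prod_ne_zero_iff.2 fun p hp => (hs p hp).ne_zero
  rw [Nat.card_divisors h0, Nat.primeFactors_prod hs]
  calc ∏ x ∈ s, ((∏ p ∈ s, p).factorization x + 1) ≤ ∏ x ∈ s, 2 := by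
        apply prod_le_prod'
        intro x hx
        have hsq : Squarefree (∏ p ∈ s, p) := by
          apply Finset.squarefree_prod_of_pairwise_isCoprime
          · intro a ha b hb hab
            exact Nat.coprime_iff_isRelPrime.1 ((Nat.coprime_primes (hs a ha) (hs b hb)).2 hab)
          · intro a ha
            exact (hs a ha).squarefree
        have := hsq.natFactorization_le_one x
        omega
    _ = 2 ^ s.card := by rw [prod_const]

/-- **the weights**: `k` is divisible by all primes `≤ w` -/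
theorem weights (k R w r : ℕ) (hk : 1 ≤ k) (hR : 1 ≤ R) (hw : 2 ≤ w)
    (hkw : ∀ p : ℕ, p.Prime → p ≤ w → p ∣ k) (hr : R ^ 2 < w ^ (r + 1)) :
    ∃ (E : ℝ) (θ : ℕ → ℝ) (T : Finset (Finset ℕ)) (c : Finset ℕ → ℝ),
      0 ≤ E ∧ E ≤ ((k : ℝ) / Nat.totient k) / Real.log ((R : ℝ) + 1) ∧
      (∀ n, 1 ≤ n → 0 ≤ θ n) ∧
      (∀ n, 1 ≤ n → (∀ p : ℕ, p.Prime → p ≤ R → p ∣ n → p ∣ k) → θ n = 1) ∧
      (∀ n, θ n = E + ∑ t ∈ T, c t * Xi t n) ∧
      (∀ t ∈ T, t ⊆ PQ k R ∧ t.Nonempty ∧ t.card ≤ r ∧ ∏ p ∈ t, p ≤ R ^ 2) ∧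
      (∀ t ∈ T, |c t| ≤ (1 + Real.log R / Real.log 2) ^ 2 * 4 ^ r * ∏ p ∈ PQ k R, (1 + 1 / (p : ℝ))) := by
  classical
  obtain ⟨ρ, hρ, hρb, hnn, hone, hE0, hE⟩ := wts2 k R hk hR
  have hcard : ∀ s ∈ SQ k R, s.card ≤ r := by
    intro s hs
    rw [mem_SQ] at hs
    by_contra hlt
    push Not at hlt
    have h1 : w ^ s.card ≤ ∏ p ∈ s, p := by
      rw [← prod_const]
      apply prod_le_prod'
      intro p hp
      have h2 := mem_PQ.1 (hs.1 hp)
      by_contra h3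
      push Not at h3
      exact h2.2.2 (hkw p h2.1 h3.le)
    have h2 : w ^ (r + 1) ≤ w ^ s.card := Nat.pow_le_pow_right (by omega) hlt
    omega
  set c : Finset ℕ → ℝ := fun t => ∑ s ∈ (SQ k R).filter (fun s => t ⊆ s),
    ρ (∏ p ∈ s, p) * ∏ p ∈ s \ t, (1 / (p : ℝ)) with hc
  set E : ℝ := ∑ d ∈ DD k (R ^ 2), ρ d / d with hEdef
  have hdown : ∀ s ∈ SQ k R, ∀ t, t ⊆ s → t ∈ SQ k R := by
    intro s hs t hts
    rw [mem_SQ] at hs ⊢
    refine ⟨hts.trans hs.1, (Nat.le_of_dvd ?_ (prod_dvd_prod_of_subset _ _ _ hts)).trans hs.2⟩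
    exact prod_pos fun p hp => (mem_PQ.1 (hs.1 hp)).1.pos
  have hemp : ∅ ∈ SQ k R := by
    rw [mem_SQ]
    refine ⟨empty_subset _, ?_⟩
    rw [prod_empty]
    exact Nat.one_le_pow _ _ hR
  have hcE : c ∅ = E := by
    have h1 := sum_SQ hρ (fun d => 1 / (d : ℝ))
    have h2 : E = ∑ d ∈ DD k (R ^ 2), ρ d * (1 / (d : ℝ)) := by
      rw [hEdef]
      apply sum_congr rfl
      intro d _
      rw [mul_one_div]
    rw [h2, h1, hc]
    simp only
    rw [filter_true_of_mem (fun s _ => empty_subset s)]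
    apply sum_congr rfl
    intro s _
    rw [sdiff_empty]
    congr 1
    push_cast
    rw [prod_div_distrib, prod_const_one]
  have hexp : ∀ n, th ρ k (R ^ 2) n = ∑ t ∈ SQ k R, c t * Xi t n := by
    intro n
    have h1 := sum_SQ hρ (fun d => if d ∣ n then (1 : ℝ) else 0)
    have h2 : th ρ k (R ^ 2) n = ∑ d ∈ DD k (R ^ 2), ρ d * (if d ∣ n then (1 : ℝ) else 0) := by
      unfold th
      apply sum_congr rfl
      intro d _
      split_ifs <;> simp
    rw [h2, h1]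
    have h3 : ∀ s ∈ SQ k R, ρ (∏ p ∈ s, p) * (if ∏ p ∈ s, p ∣ n then (1 : ℝ) else 0) =
        ∑ t ∈ s.powerset, ρ (∏ p ∈ s, p) * (Xi t n * ∏ p ∈ s \ t, (1 / (p : ℝ))) := by
      intro s hs
      rw [mem_SQ] at hs
      rw [← mul_sum]
      congr 1
      have h4 : (if ∏ p ∈ s, p ∣ n then (1 : ℝ) else 0) = ∏ p ∈ s, (xi p n + 1 / (p : ℝ)) := by
        have h5 : ∀ p ∈ s, xi p n + 1 / (p : ℝ) = if p ∣ n then (1 : ℝ) else 0 := by
          intro p _
          unfold xi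
          ring
        rw [prod_congr rfl h5]
        by_cases hall : ∀ p ∈ s, p ∣ n
        · rw [if_pos (Finset.prod_primes_dvd _ (fun a ha => (mem_PQ.1 (hs.1 ha)).1.prime) hall)]
          symm
          exact prod_eq_one fun p hp => if_pos (hall p hp)
        · rw [if_neg]
          · push Not at hall
            obtain ⟨p, hp, hpn⟩ := hall
            symm
            exact prod_eq_zero hp (if_neg hpn)
          · intro h6
            exact hall fun p hp => (dvd_prod_of_mem (fun p => p) hp).trans h6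
      rw [h4, prod_add]
      rfl
    rw [sum_congr rfl h3]
    have h7 : ∀ s ∈ SQ k R, ∑ t ∈ s.powerset, ρ (∏ p ∈ s, p) * (Xi t n * ∏ p ∈ s \ t, (1 / (p : ℝ))) =
        ∑ t ∈ SQ k R, if t ⊆ s then ρ (∏ p ∈ s, p) * (Xi t n * ∏ p ∈ s \ t, (1 / (p : ℝ))) else 0 := by
      intro s hs
      rw [← sum_filter]
      apply sum_congr _ (fun _ _ => rfl)
      ext t
      rw [mem_powerset, mem_filter]
      exact ⟨fun h => ⟨hdown s hs t h, h⟩, fun h => h.2⟩
    rw [sum_congr rfl h7, sum_comm]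
    apply sum_congr rfl
    intro t _
    rw [← sum_filter, hc]
    simp only
    rw [sum_mul]
    apply sum_congr rfl
    intro s _
    ring
  refine ⟨E, th ρ k (R ^ 2), (SQ k R).erase ∅, c, hE0, hE, hnn, hone, ?_, ?_, ?_⟩
  · intro n
    rw [hexp n, ← add_sum_erase _ _ hemp, hcE]
    unfold Xi
    rw [prod_empty, mul_one]
  · intro t ht
    rw [mem_erase] at ht
    have h1 := mem_SQ.1 ht.2
    exact ⟨h1.1, nonempty_iff_ne_empty.2 ht.1, hcard t ht.2, h1.2⟩
  · intro t ht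
    rw [mem_erase] at ht
    have hA0 : 0 ≤ (1 + Real.log R / Real.log 2) ^ 2 := sq_nonneg _
    have hpR : ∀ p ∈ PQ k R, (0 : ℝ) < p := fun p hp => by exact_mod_cast (mem_PQ.1 hp).1.pos
    rw [hc]
    simp only
    refine (abs_sum_le_sum_abs _ _).trans ?_
    have h1 : ∀ s ∈ (SQ k R).filter (fun s => t ⊆ s),
        |ρ (∏ p ∈ s, p) * ∏ p ∈ s \ t, (1 / (p : ℝ))| ≤
        ((1 + Real.log R / Real.log 2) ^ 2 * 4 ^ r) * ∏ p ∈ s \ t, (1 / (p : ℝ)) := by
      intro s hs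
      rw [mem_filter] at hs
      have hs1 := mem_SQ.1 hs.1
      have hnn : 0 ≤ ∏ p ∈ s \ t, (1 / (p : ℝ)) := prod_nonneg fun p _ => by positivity
      rw [abs_mul, abs_of_nonneg hnn]
      apply mul_le_mul_of_nonneg_right _ hnn
      refine (hρb _).trans ?_
      apply mul_le_mul_of_nonneg_left _ hA0
      have h2 : ((∏ p ∈ s, p).divisors.card : ℝ) ≤ 2 ^ r := by
        have h3 := card_div_le (s := s) (fun p hp => (mem_PQ.1 (hs1.1 hp)).1)
        have h4 : 2 ^ s.card ≤ 2 ^ r := Nat.pow_le_pow_right (by norm_num) (hcard s hs.1)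
        exact_mod_cast h3.trans h4
      calc ((∏ p ∈ s, p).divisors.card : ℝ) ^ 2 ≤ (2 ^ r) ^ 2 := by gcongr
        _ = 4 ^ r := by rw [← pow_mul, mul_comm, pow_mul]; norm_num
    refine (sum_le_sum h1).trans ?_
    rw [← mul_sum]
    apply mul_le_mul_of_nonneg_left _ (by positivity)
    rw [Finset.prod_one_add]
    have hinj : Set.InjOn (fun s : Finset ℕ => s \ t) ((SQ k R).filter (fun s => t ⊆ s) : Set (Finset ℕ)) := by
      intro s hs s' hs' h
      rw [mem_coe, mem_filter] at hs hs'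
      simp only at h
      rw [← sdiff_union_of_subset hs.2, ← sdiff_union_of_subset hs'.2, h]
    rw [← sum_image (f := fun u : Finset ℕ => ∏ p ∈ u, (1 / (p : ℝ))) hinj]
    apply sum_le_sum_of_subset_of_nonneg
    · intro u hu
      rw [mem_image] at hu
      obtain ⟨s, hs, rfl⟩ := hu
      rw [mem_filter] at hs
      rw [mem_powerset]
      exact sdiff_subset.trans (mem_SQ.1 hs.1).1
    · intro u _ _
      exact prod_nonneg fun p _ => by positivity

end Pool.Agent.H537.EG
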