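import Pool.Agent.H537.EG.Avg

/-! The elementary functions `Zf` of the expansion of divisor sums in windows of arithmetic progressions. -/

set_option autoImplicit false

namespace Pool.Agent.H537.EG
open Finset

lemma cnt_card (k D n H : ℕ) (hD : 1 ≤ D) (hk : k.Coprime D) :
    ((range H).filter (fun h => D ∣ n + k * h)).card = H / D ∨
    (((range H).filter (fun h => D ∣ n + k * h)).card = H / D + 1 ∧ ¬ D ∣ H) := by
  have : NeZero D := ⟨by omega⟩
  set v : ℕ := (-(n : ZMod D) * (k : ZMod D)⁻¹).val with hv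
  have hvc : (v : ZMod D) = -(n : ZMod D) * (k : ZMod D)⁻¹ := by rw [hv, ZMod.natCast_val, ZMod.cast_id]
  have hkk : (k : ZMod D) * (k : ZMod D)⁻¹ = 1 := ZMod.coe_mul_inv_eq_one k hk
  have h1 : ∀ h, D ∣ n + k * h ↔ h ≡ v [MOD D] := by
    intro h
    rw [← ZMod.natCast_eq_natCast_iff, hvc, ← ZMod.natCast_eq_zero_iff]
    push_cast
    constructor
    · intro h2
      have h3 : (k : ZMod D) * h = -n := by linear_combination h2
      calc (h : ZMod D) = ((k : ZMod D) * (k : ZMod D)⁻¹) * h := by rw [hkk, one_mul]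
        _ = ((k : ZMod D) * h) * (k : ZMod D)⁻¹ := by ring
        _ = _ := by rw [h3]
    · intro h2
      rw [h2]
      linear_combination (-(n : ZMod D)) * hkk
  have h5 := Nat.count_modEq_card H (show 0 < D by omega) v
  rw [Nat.count_eq_card_filter_range] at h5
  have h2 : (range H).filter (fun h => D ∣ n + k * h) = (range H).filter (fun h => h ≡ v [MOD D]) := by
    apply filter_congr
    intro h _
    exact h1 h
  rw [h2, h5]
  split_ifs with h3
  · right
    refine ⟨rfl, ?_⟩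
    intro h4
    rw [Nat.mod_eq_zero_of_dvd h4] at h3
    omega
  · left
    omega

/-- the count of multiples of `D` in a window -/
noncomputable def Nc (k H n D : ℕ) : ℝ := ∑ h ∈ range H, if D ∣ n + k * h then (1 : ℝ) else 0

lemma Nc_near (k D n H : ℕ) (hD : 1 ≤ D) (hk : k.Coprime D) : |Nc k H n D - (H : ℝ) / D| ≤ 1 := by
  have hDR : (0 : ℝ) < D := by exact_mod_cast hD
  have e1 : Nc k H n D = (((range H).filter (fun h => D ∣ n + k * h)).card : ℝ) := by
    unfold Nc
    rw [← sum_filter]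
    simp
  have h2 : ((H / D : ℕ) : ℝ) ≤ (H : ℝ) / D := Nat.cast_div_le
  have h3 : (H : ℝ) / D < ((H / D : ℕ) : ℝ) + 1 := by
    rw [div_lt_iff₀ hDR]
    have := Nat.lt_div_mul_add (a := H) (b := D) (by omega)
    have h4 : H < (H / D + 1) * D := by rw [add_mul, one_mul]; exact this
    exact_mod_cast h4
  rw [e1]
  rcases cnt_card k D n H hD hk with h | ⟨h, _⟩
  · rw [h, abs_le]; constructor <;> linarith
  · rw [h, abs_le]; push_cast; constructor <;> linarith

/-- among `p` consecutive terms exactly one is divisible by `p` -/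
lemma one_hit (s p m : ℕ) (hp : 1 ≤ p) (hs : s.Coprime p) :
    ∑ x ∈ range p, (if p ∣ m + x * s then (1 : ℝ) else 0) = 1 := by
  have e1 : ∑ x ∈ range p, (if p ∣ m + x * s then (1 : ℝ) else 0) =
      (((range p).filter (fun x => p ∣ m + s * x)).card : ℝ) := by
    rw [← sum_filter]
    simp only [mul_comm s]
    simp
  rw [e1]
  rcases cnt_card s p m p hp hs with h | ⟨_, h⟩
  · rw [h, Nat.div_self (by omega)]; norm_num
  · exact absurd (dvd_refl p) h

noncomputable def xi (p m : ℕ) : ℝ := (if p ∣ m then 1 else 0) - 1 / p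

noncomputable def Xi (t : Finset ℕ) (m : ℕ) : ℝ := ∏ p ∈ t, xi p m

noncomputable def Zf (k H d : ℕ) (t : Finset ℕ) (n : ℕ) : ℝ :=
  ∑ h ∈ range H, if d ∣ n + k * h then Xi t (n + k * h) else 0

lemma xi_abs_le {p m : ℕ} (hp : 1 ≤ p) : |xi p m| ≤ 1 := by
  have hpR : (1 : ℝ) ≤ p := by exact_mod_cast hp
  have h1 : 0 < 1 / (p : ℝ) := by positivity
  have h2 : 1 / (p : ℝ) ≤ 1 := by rw [div_le_one (by linarith)]; exact hpR
  unfold xi
  split_ifs
  · rw [abs_le]; constructor <;> linarith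
  · rw [abs_le]; constructor <;> linarith

lemma Xi_abs_le {t : Finset ℕ} {m : ℕ} (ht : ∀ p ∈ t, 1 ≤ p) : |Xi t m| ≤ 1 := by
  unfold Xi
  rw [abs_prod]
  exact prod_le_one (fun _ _ => abs_nonneg _) (fun p hp => xi_abs_le (ht p hp))

lemma xi_inv {p s m : ℕ} (hs : p ∣ s) : xi p (m + s) = xi p m := by
  unfold xi
  have hiff : p ∣ m + s ↔ p ∣ m := (Nat.dvd_add_iff_left hs).symm
  simp only [hiff]

lemma sum_xi (s p m : ℕ) (hp : 1 ≤ p) (hs : s.Coprime p) : ∑ x ∈ range p, xi p (m + x * s) = 0 := by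
  unfold xi
  rw [sum_sub_distrib, one_hit s p m hp hs]
  have hpR : (p : ℝ) ≠ 0 := by positivity
  simp [hpR]

lemma sum_abs_xi (s p m : ℕ) (hp : 1 ≤ p) (hs : s.Coprime p) :
    ∑ x ∈ range p, |xi p (m + x * s)| ≤ 2 := by
  have hpR : (0 : ℝ) < p := by exact_mod_cast hp
  calc ∑ x ∈ range p, |xi p (m + x * s)|
      ≤ ∑ x ∈ range p, ((if p ∣ m + x * s then (1 : ℝ) else 0) + 1 / p) := by
        apply sum_le_sum
        intro x _
        unfold xi
        refine (abs_sub _ _).trans ?_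
        rw [abs_of_nonneg (a := (1 : ℝ) / p) (by positivity), abs_of_nonneg]
        split_ifs <;> norm_num
    _ = 2 := by
        rw [sum_add_distrib, one_hit s p m hp hs]
        simp only [sum_const, card_range, nsmul_eq_mul]
        field_simp
        norm_num

lemma Zf_inv {k H d s : ℕ} {t : Finset ℕ} (hd : d ∣ s) (ht : ∀ p ∈ t, p ∣ s) (n : ℕ) :
    Zf k H d t (n + s) = Zf k H d t n := by
  unfold Zf
  apply sum_congr rfl
  intro h _
  have e : n + s + k * h = (n + k * h) + s := by ring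
  have hiff : d ∣ (n + k * h) + s ↔ d ∣ n + k * h := (Nat.dvd_add_iff_left hd).symm
  rw [e]
  simp only [hiff]
  have : Xi t (n + k * h + s) = Xi t (n + k * h) := prod_congr rfl fun p hp => xi_inv (ht p hp)
  rw [this]

lemma Zf_sum_zero {k H d s p : ℕ} {t : Finset ℕ} (hp : p ∈ t) (hp1 : 1 ≤ p) (hs : s.Coprime p) (hd : d ∣ s)
    (ht : ∀ q ∈ t, q ≠ p → q ∣ s) (n : ℕ) : Sg s p (Zf k H d t) n = 0 := by
  unfold Sg Zf
  rw [sum_comm]
  apply sum_eq_zero
  intro h _
  have e1 : ∀ x ∈ range p, (if d ∣ n + x * s + k * h then Xi t (n + x * s + k * h) else 0) =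
      (if d ∣ n + k * h then Xi (t.erase p) (n + k * h) else 0) * xi p (n + k * h + x * s) := by
    intro x _
    have e : n + x * s + k * h = (n + k * h) + x * s := by ring
    have hiff : d ∣ (n + k * h) + x * s ↔ d ∣ n + k * h :=
      (Nat.dvd_add_iff_left (Dvd.dvd.mul_left hd x)).symm
    rw [e]
    simp only [hiff]
    split_ifs
    · unfold Xi
      rw [← mul_prod_erase t _ hp, mul_comm]
      congr 1
      apply prod_congr rfl
      intro q hq
      rw [mem_erase] at hq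
      exact xi_inv (Dvd.dvd.mul_left (ht q hq.2 hq.1) x)
    · rw [zero_mul]
  rw [sum_congr rfl e1, ← mul_sum, sum_xi s p _ hp1 hs, mul_zero]

/-- pointwise bound -/
lemma Zf_abs_le {k H d : ℕ} {t : Finset ℕ} (hd1 : 1 ≤ d) (hkd : k.Coprime d)
    (htp : ∀ p ∈ t, p.Prime) (hkt : ∀ p ∈ t, k.Coprime p) (hdt : ∀ p ∈ t, d.Coprime p) (ht : t.Nonempty) (n : ℕ) :
    |Zf k H d t n| ≤ 2 ^ t.card := by
  have hdR : (0 : ℝ) < d := by exact_mod_cast hd1
  have hpR : ∀ p ∈ t, (1 : ℝ) ≤ p := fun p hp => by exact_mod_cast (htp p hp).one_le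
  have e1 : Zf k H d t n = ∑ g ∈ t.powerset, (∏ p ∈ t \ g, (-(1 / (p : ℝ)))) *
      Nc k H n (d * ∏ p ∈ g, p) := by
    unfold Zf Nc
    rw [sum_congr rfl (fun g _ => mul_sum _ _ _), sum_comm]
    apply sum_congr rfl
    intro h _
    by_cases hdn : d ∣ n + k * h
    · rw [if_pos hdn]
      unfold Xi xi
      simp only [sub_eq_add_neg]
      rw [prod_add]
      apply sum_congr rfl
      intro g hg
      rw [mem_powerset] at hg
      rw [mul_comm]
      congr 1
      have hcop : d.Coprime (∏ p ∈ g, p) := Nat.Coprime.prod_right fun p hp => hdt p (hg hp)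
      have hiff : d * ∏ p ∈ g, p ∣ n + k * h ↔ ∀ p ∈ g, p ∣ n + k * h := by
        constructor
        · intro h1 p hp
          exact (dvd_prod_of_mem (fun p => p) hp).trans ((Dvd.intro_left _ rfl).trans h1)
        · intro h1
          apply Nat.Coprime.mul_dvd_of_dvd_of_dvd hcop hdn
          exact Finset.prod_primes_dvd _ (fun a ha => (htp a (hg ha)).prime) h1
      by_cases hall : ∀ p ∈ g, p ∣ n + k * h
      · rw [if_pos (hiff.2 hall)]
        apply prod_eq_one
        intro p hp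
        rw [if_pos (hall p hp)]
      · rw [if_neg (fun h2 => hall (hiff.1 h2))]
        push Not at hall
        obtain ⟨p, hp, hpn⟩ := hall
        exact prod_eq_zero hp (if_neg hpn)
    · rw [if_neg hdn]
      symm
      apply sum_eq_zero
      intro g _
      rw [if_neg, mul_zero]
      intro h2
      exact hdn ((Dvd.intro _ rfl).trans h2)
  have e2 : ∑ g ∈ t.powerset, (∏ p ∈ t \ g, (-(1 / (p : ℝ)))) *
      ((H : ℝ) / ((d * ∏ p ∈ g, p : ℕ) : ℝ)) = 0 := by
    have h1 : ∏ p ∈ t, ((1 / (p : ℝ)) + (-(1 / (p : ℝ)))) = 0 := by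
      obtain ⟨p, hp⟩ := ht
      exact prod_eq_zero hp (by ring)
    rw [prod_add] at h1
    calc ∑ g ∈ t.powerset, (∏ p ∈ t \ g, (-(1 / (p : ℝ)))) * ((H : ℝ) / ((d * ∏ p ∈ g, p : ℕ) : ℝ))
        = ∑ g ∈ t.powerset, ((H : ℝ) / d) * ((∏ p ∈ g, (1 / (p : ℝ))) * ∏ p ∈ t \ g, (-(1 / (p : ℝ)))) := by
          apply sum_congr rfl
          intro g hg
          rw [mem_powerset] at hg
          push_cast
          rw [prod_div_distrib, prod_const_one]
          have : (0 : ℝ) < ∏ p ∈ g, (p : ℝ) := prod_pos fun p hp => by linarith [hpR p (hg hp)]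
          field_simp
      _ = 0 := by rw [← mul_sum, h1, mul_zero]
  have e3 : Zf k H d t n = ∑ g ∈ t.powerset, (∏ p ∈ t \ g, (-(1 / (p : ℝ)))) *
      (Nc k H n (d * ∏ p ∈ g, p) - (H : ℝ) / ((d * ∏ p ∈ g, p : ℕ) : ℝ)) := by
    simp only [mul_sub]
    rw [sum_sub_distrib, e2, sub_zero, e1]
  rw [e3]
  refine (abs_sum_le_sum_abs _ _).trans ?_
  have e4 : ∀ g ∈ t.powerset, |(∏ p ∈ t \ g, (-(1 / (p : ℝ)))) *
      (Nc k H n (d * ∏ p ∈ g, p) - (H : ℝ) / ((d * ∏ p ∈ g, p : ℕ) : ℝ))| ≤ 1 := by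
    intro g hg
    rw [mem_powerset] at hg
    rw [abs_mul]
    have a1 : |∏ p ∈ t \ g, (-(1 / (p : ℝ)))| ≤ 1 := by
      rw [abs_prod]
      apply prod_le_one (fun _ _ => abs_nonneg _)
      intro p hp
      rw [mem_sdiff] at hp
      rw [abs_neg, abs_of_nonneg (by positivity), div_le_one (by linarith [hpR p hp.1])]
      exact hpR p hp.1
    have hD : 1 ≤ d * ∏ p ∈ g, p := Nat.mul_pos hd1 (prod_pos fun p hp => (htp p (hg hp)).pos)
    have hk : k.Coprime (d * ∏ p ∈ g, p) :=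
      Nat.Coprime.mul_right hkd (Nat.Coprime.prod_right fun p hp => hkt p (hg hp))
    have a2 := Nc_near k (d * ∏ p ∈ g, p) n H hD hk
    calc |∏ p ∈ t \ g, (-(1 / (p : ℝ)))| * |Nc k H n (d * ∏ p ∈ g, p) -
          (H : ℝ) / ((d * ∏ p ∈ g, p : ℕ) : ℝ)| ≤ 1 * 1 :=
          mul_le_mul a1 a2 (abs_nonneg _) zero_le_one
      _ = 1 := one_mul _
  refine (sum_le_sum e4).trans ?_
  rw [sum_const, card_powerset, nsmul_eq_mul, mul_one]
  push_cast
  exact le_refl _

lemma SL_Xi {σ : ℕ → ℕ} (l : List ℕ) : ∀ (t : Finset ℕ), (∀ p ∈ t, 1 ≤ p) → l.Nodup → (∀ p ∈ l, p ∈ t) →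
    (∀ p ∈ l, (σ p).Coprime p ∧ ∀ q ∈ t, q ≠ p → q ∣ σ p) → ∀ m,
    SL σ l (fun n => |Xi t n|) m ≤ 2 ^ l.length := by
  induction l with
  | nil =>
    intro t ht _ _ _ m
    simpa [SL] using Xi_abs_le ht
  | cons p l ih =>
    intro t ht hnd hlt hσ m
    rw [List.nodup_cons] at hnd
    have hpt := hlt p List.mem_cons_self
    obtain ⟨hcop, hdiv⟩ := hσ p List.mem_cons_self
    have h1 : ∀ n, Sg (σ p) p (fun n => |Xi t n|) n ≤ 2 * |Xi (t.erase p) n| := by
      intro n
      unfold Sg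
      have e1 : ∀ x ∈ range p, |Xi t (n + x * σ p)| = |Xi (t.erase p) n| * |xi p (n + x * σ p)| := by
        intro x _
        unfold Xi
        rw [← mul_prod_erase t _ hpt, abs_mul, mul_comm]
        congr 2
        apply prod_congr rfl
        intro q hq
        rw [mem_erase] at hq
        exact xi_inv (Dvd.dvd.mul_left (hdiv q hq.2 hq.1) x)
      rw [sum_congr rfl e1, ← mul_sum, mul_comm]
      exact mul_le_mul_of_nonneg_right (sum_abs_xi _ _ _ (ht p hpt) hcop) (abs_nonneg _)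
    have h2 : SL σ (p :: l) (fun n => |Xi t n|) m ≤ SL σ l (fun n => 2 * |Xi (t.erase p) n|) m :=
      SL_mono l h1 m
    refine h2.trans ?_
    rw [SL_smul]
    have h3 := ih (t.erase p) (fun q hq => ht q (mem_of_mem_erase hq)) hnd.2
      (fun q hq => mem_erase.2 ⟨fun h => hnd.1 (h ▸ hq), hlt q (List.mem_cons_of_mem _ hq)⟩)
      (fun q hq => ⟨(hσ q (List.mem_cons_of_mem _ hq)).1, fun r hr hrq =>
        (hσ q (List.mem_cons_of_mem _ hq)).2 r (mem_of_mem_erase hr) hrq⟩) m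
    rw [List.length_cons, pow_succ]
    linarith

/-- mean square over the residues modulo the primes in `t` -/
lemma SL_Zf_sq {k H d : ℕ} {σ : ℕ → ℕ} {t : Finset ℕ} (hd1 : 1 ≤ d) (hkd : k.Coprime d)
    (htp : ∀ p ∈ t, p.Prime) (hkt : ∀ p ∈ t, k.Coprime p) (hdt : ∀ p ∈ t, d.Coprime p) (ht : t.Nonempty)
    (l : List ℕ) (hnd : l.Nodup) (hlt : ∀ p ∈ l, p ∈ t)
    (hσ : ∀ p ∈ l, (σ p).Coprime p ∧ ∀ q ∈ t, q ≠ p → q ∣ σ p) (n : ℕ) :
    SL σ l (fun n => (Zf k H d t n) ^ 2) n ≤ 4 ^ t.card * H := by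
  have h1 : ∀ n, (Zf k H d t n) ^ 2 ≤ 2 ^ t.card * ∑ h ∈ range H, |Xi t (n + k * h)| := by
    intro n
    have a1 := Zf_abs_le (H := H) hd1 hkd htp hkt hdt ht n
    have a2 : |Zf k H d t n| ≤ ∑ h ∈ range H, |Xi t (n + k * h)| := by
      unfold Zf
      refine (abs_sum_le_sum_abs _ _).trans (sum_le_sum fun h _ => ?_)
      split_ifs
      · exact le_refl _
      · rw [abs_zero]; exact abs_nonneg _
    rw [← sq_abs, sq]
    exact mul_le_mul a1 a2 (abs_nonneg _) (by positivity)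
  refine (SL_mono l h1 n).trans ?_
  rw [SL_smul, SL_sum]
  have hll : l.length ≤ t.card := by
    rw [← List.toFinset_card_of_nodup hnd]
    apply card_le_card
    intro p hp
    exact hlt p (List.mem_toFinset.1 hp)
  have h2 : ∀ h ∈ range H, SL σ l (fun n => |Xi t (n + k * h)|) n ≤ 2 ^ t.card := by
    intro h _
    have e := SL_trans (σ := σ) l (k * h) (fun n => |Xi t n|)
    rw [e]
    refine (SL_Xi l t (fun p hp => (htp p hp).one_le) hnd hlt hσ _).trans ?_
    exact pow_le_pow_right₀ (by norm_num) hll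
  calc (2 : ℝ) ^ t.card * ∑ h ∈ range H, SL σ l (fun n => |Xi t (n + k * h)|) n
      ≤ 2 ^ t.card * ∑ h ∈ range H, (2 : ℝ) ^ t.card :=
        mul_le_mul_of_nonneg_left (sum_le_sum h2) (by positivity)
    _ = 4 ^ t.card * H := by
        rw [sum_const, card_range, nsmul_eq_mul]
        have : (4 : ℝ) ^ t.card = 2 ^ t.card * 2 ^ t.card := by
          rw [← mul_pow]; norm_num
        rw [this]; ring

end Pool.Agent.H537.EG
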